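import Mathlib

/-!
# Large values of short cubic character sums (MP_081200_nt): interface

See `BLUEPRINT.md`. Every block is one Prop `Stmt_X`; file `Pool/Agent/Work/LV/<X>.lean` should end
with `theorem stmt_X : ... → Stmt_X`.
-/

namespace Pool.Agent.Work.LV

open Finset Polynomial

/-- The character sum over the interval `(M, M + N]`. -/
noncomputable def shortSum {q : ℕ} (χ : DirichletCharacter ℂ q) (M : ℤ) (N : ℕ) : ℂ :=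
  ∑ a ∈ Ioc M (M + N), χ (a : ZMod q)

/-- The absolute value of the sum of `χ` over `x + 1, ..., x + B`. -/
noncomputable def TT {q : ℕ} (χ : DirichletCharacter ℂ q) (B : ℕ) (x : ZMod q) : ℝ :=
  ‖∑ b ∈ Icc 1 B, χ (x + (b : ZMod q))‖

/-- The integers in `𝓜` are pairwise at distance at least `L` modulo `q`. -/
def Sep (q : ℕ) (L : ℝ) (𝓜 : Finset ℤ) : Prop :=
  ∀ M ∈ 𝓜, ∀ M' ∈ 𝓜, M ≠ M' → ∀ k : ℤ, L ≤ |((M - M' - k * q : ℤ) : ℝ)|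

/-- The number of `(a, M, n)` in `P × 𝓜 × [1, N]` with `a x = M + n` modulo `q`. -/
def vv (q : ℕ) (P : Finset ℕ) (𝓜 : Finset ℤ) (N : ℕ) (x : ZMod q) : ℕ :=
  ((P ×ˢ 𝓜 ×ˢ Icc 1 N).filter fun t =>
    (t.1 : ZMod q) * x = (t.2.1 : ZMod q) + (t.2.2 : ZMod q)).card

/-- BLOCK W (Weil bound by Stepanov's method, cubic characters of prime modulus). -/
def Stmt_W : Prop :=
  ∀ d : ℕ, ∃ C : ℝ, 0 ≤ C ∧ ∀ (p : ℕ) [Fact p.Prime] (χ : MulChar (ZMod p) ℂ),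
    χ ^ 3 = 1 → χ ≠ 1 → ∀ F : (ZMod p)[X], F.natDegree ≤ d →
      (∃ α : ZMod p, ¬ 3 ∣ F.rootMultiplicity α) →
        ‖∑ x : ZMod p, χ (F.eval x)‖ ≤ C * Real.sqrt p

/-- BLOCK M (2r-th moment, primitive cubic characters of any modulus). -/
def Stmt_M : Prop :=
  ∀ r : ℕ, 1 ≤ r → ∀ ε : ℝ, 0 < ε → ∃ C : ℝ, 0 ≤ C ∧
    ∀ (q : ℕ) [NeZero q] (χ : DirichletCharacter ℂ q), χ.IsPrimitive → χ ^ 3 = 1 → ∀ B : ℕ,
      ∑ x : ZMod q, TT χ B x ^ (2 * r) ≤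
        C * ((B : ℝ) ^ r * q + (B : ℝ) ^ (2 * r) * (q : ℝ) ^ (1 / 2 + ε))

/-- BLOCK E (multiplicative energy of separated intervals with small dilations). -/
def Stmt_E : Prop :=
  ∃ C : ℝ, 0 ≤ C ∧ ∀ (q N Y D : ℕ) [NeZero q] (P : Finset ℕ) (𝓜 : Finset ℤ),
    1 ≤ N → 8 * N ≤ q → Y ≤ N → (∀ a ∈ P, 1 ≤ a ∧ a ≤ Y ∧ a.Coprime q) →
    (∀ m : ℕ, 0 < m → m < q → (P.filter (· ∣ m)).card ≤ D) → Sep q N 𝓜 →
      ∑ x : ZMod q, (vv q P 𝓜 N x : ℝ) ^ 2 ≤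
        C * (D * (P.card * 𝓜.card * N) + (P.card * 𝓜.card * N) ^ 2 / q)

end Pool.Agent.Work.LV
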