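import Pool.Agent.Work.LV.Interface

/-!
# Assembly, part 1: shifts, Hölder and the main inequality
-/

namespace Pool.Agent.Work.LV

open Finset

theorem sum_Icc_one {β : Type*} [AddCommMonoid β] (f : ℕ → β) (N : ℕ) :
    ∑ n ∈ Icc 1 N, f n = ∑ n ∈ range N, f (n + 1) := by
  rw [Finset.range_eq_Ico, Finset.sum_Ico_add' (fun n => f n) 0 N 1]
  apply Finset.sum_congr _ (fun _ _ => rfl)
  ext x
  simp [Finset.mem_Icc, Finset.mem_Ico]

theorem shortSum_eq {q : ℕ} (χ : DirichletCharacter ℂ q) (M : ℤ) (N : ℕ) :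
    shortSum χ M N = ∑ n ∈ Icc 1 N, χ ((M : ZMod q) + (n : ZMod q)) := by
  unfold shortSum
  symm
  refine Finset.sum_bij (fun n _ => M + (n : ℤ)) ?_ ?_ ?_ ?_
  · intro n hn
    rw [mem_Icc] at hn
    rw [mem_Ioc]
    omega
  · intro a ha b hb h
    simpa using h
  · intro b hb
    rw [mem_Ioc] at hb
    refine ⟨(b - M).toNat, ?_, ?_⟩
    · rw [mem_Icc]; omega
    · show M + ((b - M).toNat : ℤ) = b
      omega
  · intro a ha
    push_cast
    rfl

/-- Shifting a sum of bounded terms by `t` changes it by at most `2t`. -/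
theorem shift_le (f : ℕ → ℂ) (hf : ∀ n, ‖f n‖ ≤ 1) (N t : ℕ) :
    ‖∑ n ∈ Icc 1 N, f n - ∑ n ∈ Icc 1 N, f (n + t)‖ ≤ 2 * t := by
  rw [sum_Icc_one, sum_Icc_one (fun n => f (n + t))]
  induction t with
  | zero => simp
  | succ t ih =>
    have h1 : ∑ n ∈ range N, f (n + 1 + (t + 1)) =
        ∑ n ∈ range N, f (n + 1 + t) + (f (N + 1 + t) - f (0 + 1 + t)) := by
      have e1 := Finset.sum_range_succ (fun n => f (n + 1 + t)) N
      have e2 := Finset.sum_range_succ' (fun n => f (n + 1 + t)) N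
      have e3 : ∑ n ∈ range N, f (n + 1 + (t + 1)) = ∑ n ∈ range N, f (n + 1 + 1 + t) := by
        apply Finset.sum_congr rfl
        intro n _
        congr 1
        ring
      rw [e3]
      rw [e1] at e2
      linear_combination -e2
    rw [h1]
    calc ‖∑ n ∈ range N, f (n + 1) - (∑ n ∈ range N, f (n + 1 + t) + (f (N + 1 + t) - f (0 + 1 + t)))‖
        = ‖(∑ n ∈ range N, f (n + 1) - ∑ n ∈ range N, f (n + 1 + t)) +
            (f (0 + 1 + t) - f (N + 1 + t))‖ := by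
          congr 1
          ring
      _ ≤ ‖∑ n ∈ range N, f (n + 1) - ∑ n ∈ range N, f (n + 1 + t)‖ +
            (‖f (0 + 1 + t)‖ + ‖f (N + 1 + t)‖) := by
          refine (norm_add_le _ _).trans ?_
          gcongr
          exact norm_sub_le _ _
      _ ≤ 2 * t + (1 + 1) := by
          gcongr
          · exact hf _
          · exact hf _
      _ = 2 * ((t + 1 : ℕ) : ℝ) := by push_cast; ring

/-- One modulus `a`: the lower bound for the sum of `TT` over the points `(M+n)/a`. -/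
theorem one_a {q : ℕ} [NeZero q] (χ : DirichletCharacter ℂ q) (M : ℤ) (N B Y a : ℕ)
    (haq : a.Coprime q) (haY : a ≤ Y) :
    (B : ℝ) * (‖shortSum χ M N‖ - 2 * Y * B) ≤
      ∑ n ∈ Icc 1 N, TT χ B (((M : ZMod q) + (n : ZMod q)) * (a : ZMod q)⁻¹) := by
  have hinv : (a : ZMod q) * (a : ZMod q)⁻¹ = 1 := ZMod.coe_mul_inv_eq_one a haq
  have h1 : ∀ b ∈ Icc 1 B, ‖shortSum χ M N - ∑ n ∈ Icc 1 N,
      χ ((M : ZMod q) + (n : ZMod q) + (a : ZMod q) * (b : ZMod q))‖ ≤ 2 * Y * B := by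
    intro b hb
    rw [mem_Icc] at hb
    rw [shortSum_eq]
    have := shift_le (fun n => χ ((M : ZMod q) + (n : ZMod q)))
      (fun n => DirichletCharacter.norm_le_one χ _) N (a * b)
    refine le_trans (le_of_eq ?_) (this.trans ?_)
    · congr 2
      apply Finset.sum_congr rfl
      intro n _
      push_cast
      ring_nf
    · rw [mul_assoc]
      gcongr
      push_cast
      gcongr
      · exact_mod_cast hb.2
  have h2 : (B : ℂ) * shortSum χ M N = ∑ b ∈ Icc 1 B, (shortSum χ M N - ∑ n ∈ Icc 1 N,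
      χ ((M : ZMod q) + (n : ZMod q) + (a : ZMod q) * (b : ZMod q))) +
      ∑ b ∈ Icc 1 B, ∑ n ∈ Icc 1 N,
        χ ((M : ZMod q) + (n : ZMod q) + (a : ZMod q) * (b : ZMod q)) := by
    rw [← Finset.sum_add_distrib]
    simp
  have h3 : ‖∑ b ∈ Icc 1 B, (shortSum χ M N - ∑ n ∈ Icc 1 N,
      χ ((M : ZMod q) + (n : ZMod q) + (a : ZMod q) * (b : ZMod q)))‖ ≤ B * (2 * Y * B) := by
    refine (norm_sum_le _ _).trans ((Finset.sum_le_sum h1).trans ?_)
    simp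
  have h4 : ‖∑ b ∈ Icc 1 B, ∑ n ∈ Icc 1 N,
        χ ((M : ZMod q) + (n : ZMod q) + (a : ZMod q) * (b : ZMod q))‖ ≤
      ∑ n ∈ Icc 1 N, TT χ B (((M : ZMod q) + (n : ZMod q)) * (a : ZMod q)⁻¹) := by
    rw [Finset.sum_comm]
    refine (norm_sum_le _ _).trans (Finset.sum_le_sum fun n _ => ?_)
    have e : ∑ b ∈ Icc 1 B, χ ((M : ZMod q) + (n : ZMod q) + (a : ZMod q) * (b : ZMod q)) =
        χ (a : ZMod q) * ∑ b ∈ Icc 1 B,
          χ (((M : ZMod q) + (n : ZMod q)) * (a : ZMod q)⁻¹ + (b : ZMod q)) := by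
      rw [Finset.mul_sum]
      apply Finset.sum_congr rfl
      intro b _
      rw [← map_mul]
      congr 1
      linear_combination -((M : ZMod q) + (n : ZMod q)) * hinv
    rw [e, norm_mul]
    unfold TT
    calc ‖χ (a : ZMod q)‖ * _ ≤ 1 * _ :=
          mul_le_mul_of_nonneg_right (DirichletCharacter.norm_le_one χ _) (norm_nonneg _)
      _ = _ := one_mul _
  have h5 : ‖(B : ℂ) * shortSum χ M N‖ ≤ B * (2 * Y * B) +
      ∑ n ∈ Icc 1 N, TT χ B (((M : ZMod q) + (n : ZMod q)) * (a : ZMod q)⁻¹) := by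
    rw [h2]
    exact (norm_add_le _ _).trans (add_le_add h3 h4)
  rw [norm_mul, Complex.norm_natCast] at h5
  linarith

theorem sum_vv {q : ℕ} [NeZero q] (P : Finset ℕ) (𝓜 : Finset ℤ) (N : ℕ)
    (hP : ∀ a ∈ P, a.Coprime q) (f : ZMod q → ℝ) :
    ∑ x : ZMod q, (vv q P 𝓜 N x : ℝ) * f x =
      ∑ a ∈ P, ∑ M ∈ 𝓜, ∑ n ∈ Icc 1 N,
        f (((M : ZMod q) + (n : ZMod q)) * (a : ZMod q)⁻¹) := by
  have h1 : ∀ x : ZMod q, (vv q P 𝓜 N x : ℝ) * f x =
      ∑ t ∈ P ×ˢ 𝓜 ×ˢ Icc 1 N,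
        if (t.1 : ZMod q) * x = (t.2.1 : ZMod q) + (t.2.2 : ZMod q) then f x else 0 := by
    intro x
    unfold vv
    rw [← Finset.sum_filter, Finset.sum_const, nsmul_eq_mul]
  rw [Finset.sum_congr rfl (fun x _ => h1 x), Finset.sum_comm, Finset.sum_product]
  apply Finset.sum_congr rfl
  intro a ha
  rw [Finset.sum_product]
  apply Finset.sum_congr rfl
  intro M _
  apply Finset.sum_congr rfl
  intro n _
  have hinv : (a : ZMod q) * (a : ZMod q)⁻¹ = 1 := ZMod.coe_mul_inv_eq_one a (hP a ha)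
  rw [Finset.sum_eq_single (((M : ZMod q) + (n : ZMod q)) * (a : ZMod q)⁻¹)]
  · rw [if_pos]
    linear_combination ((M : ZMod q) + (n : ZMod q)) * hinv
  · intro x _ hx
    rw [if_neg]
    intro h
    apply hx
    have : (a : ZMod q) * x * (a : ZMod q)⁻¹ = ((M : ZMod q) + (n : ZMod q)) * (a : ZMod q)⁻¹ := by
      have h' : (a : ZMod q) * x = (M : ZMod q) + (n : ZMod q) := h
      rw [h']
    linear_combination this - x * hinv
  · intro h
    exact absurd (Finset.mem_univ _) h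

/-- The total mass of `vv`. -/
theorem sum_vv_one {q : ℕ} [NeZero q] (P : Finset ℕ) (𝓜 : Finset ℤ) (N : ℕ)
    (hP : ∀ a ∈ P, a.Coprime q) :
    ∑ x : ZMod q, (vv q P 𝓜 N x : ℝ) = P.card * 𝓜.card * N := by
  have := sum_vv P 𝓜 N hP (fun _ => 1)
  simp only [mul_one] at this
  rw [this]
  simp
  ring

/-- The main inequality. -/
theorem main_ineq {q : ℕ} [NeZero q] (χ : DirichletCharacter ℂ q) (P : Finset ℕ) (𝓜 : Finset ℤ)
    (N B Y : ℕ) (V : ℝ) (hP : ∀ a ∈ P, a.Coprime q) (hY : ∀ a ∈ P, a ≤ Y)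
    (hV : ∀ M ∈ 𝓜, V ≤ ‖shortSum χ M N‖) :
    (P.card : ℝ) * 𝓜.card * (B * (V - 2 * Y * B)) ≤
      ∑ x : ZMod q, (vv q P 𝓜 N x : ℝ) * TT χ B x := by
  rw [sum_vv P 𝓜 N hP]
  have : ∀ a ∈ P, ∀ M ∈ 𝓜, (B : ℝ) * (V - 2 * Y * B) ≤
      ∑ n ∈ Icc 1 N, TT χ B (((M : ZMod q) + (n : ZMod q)) * (a : ZMod q)⁻¹) := by
    intro a ha M hM
    refine le_trans ?_ (one_a χ M N B Y a (hP a ha) (hY a ha))
    have := hV M hM
    gcongr
  calc (P.card : ℝ) * 𝓜.card * (B * (V - 2 * Y * B))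
      = ∑ a ∈ P, ∑ M ∈ 𝓜, (B : ℝ) * (V - 2 * Y * B) := by
        simp only [Finset.sum_const, nsmul_eq_mul]
        ring
    _ ≤ _ := Finset.sum_le_sum fun a ha => Finset.sum_le_sum fun M hM => this a ha M hM

/-- Hölder's inequality in the form used by Burgess. -/
theorem holder {ι : Type*} (s : Finset ι) (w z : ι → ℝ) (hw : ∀ i, 0 ≤ w i) (hz : ∀ i, 0 ≤ z i)
    (r : ℕ) (hr : 1 ≤ r) :
    (∑ i ∈ s, w i * z i) ^ (2 * r) ≤
      (∑ i ∈ s, w i) ^ (2 * r - 2) * (∑ i ∈ s, w i ^ 2) * ∑ i ∈ s, z i ^ (2 * r) := by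
  -- first with exponent r
  have h1 : (∑ i ∈ s, w i * z i) ^ r ≤ (∑ i ∈ s, w i) ^ (r - 1) * ∑ i ∈ s, w i * z i ^ r := by
    obtain ⟨k, rfl⟩ : ∃ k, r = k + 1 := ⟨r - 1, by omega⟩
    have := Real.inner_le_weight_mul_Lp_of_nonneg s (p := (k + 1 : ℕ)) (by exact_mod_cast hr) w z hw hz
    have h0 : 0 ≤ ∑ i ∈ s, w i * z i := Finset.sum_nonneg fun i _ => mul_nonneg (hw i) (hz i)
    have hW : 0 ≤ ∑ i ∈ s, w i := Finset.sum_nonneg fun i _ => hw i
    have hZ : 0 ≤ ∑ i ∈ s, w i * z i ^ (k + 1) :=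
      Finset.sum_nonneg fun i _ => mul_nonneg (hw i) (pow_nonneg (hz i) _)
    have h2 := pow_le_pow_left₀ h0 this (k + 1)
    refine h2.trans (le_of_eq ?_)
    rw [mul_pow]
    congr 1
    · rw [← Real.rpow_natCast, ← Real.rpow_mul hW]
      rw [← Real.rpow_natCast]
      congr 1
      push_cast
      field_simp
      simp
    · simp only [Real.rpow_natCast]
      rw [← Real.rpow_natCast, ← Real.rpow_mul hZ]
      have : ((((k + 1 : ℕ) : ℝ))⁻¹ * ((k + 1 : ℕ) : ℝ)) = 1 := by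
        field_simp
      rw [this, Real.rpow_one]
  have h2 : (∑ i ∈ s, w i * z i ^ r) ^ 2 ≤ (∑ i ∈ s, w i ^ 2) * ∑ i ∈ s, (z i ^ r) ^ 2 :=
    Finset.sum_mul_sq_le_sq_mul_sq s w (fun i => z i ^ r)
  have h0 : 0 ≤ ∑ i ∈ s, w i * z i := Finset.sum_nonneg fun i _ => mul_nonneg (hw i) (hz i)
  have hW : 0 ≤ ∑ i ∈ s, w i := Finset.sum_nonneg fun i _ => hw i
  calc (∑ i ∈ s, w i * z i) ^ (2 * r) = ((∑ i ∈ s, w i * z i) ^ r) ^ 2 := by
        rw [← pow_mul, mul_comm]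
    _ ≤ ((∑ i ∈ s, w i) ^ (r - 1) * ∑ i ∈ s, w i * z i ^ r) ^ 2 :=
        pow_le_pow_left₀ (pow_nonneg h0 _) h1 2
    _ = (∑ i ∈ s, w i) ^ (2 * r - 2) * (∑ i ∈ s, w i * z i ^ r) ^ 2 := by
        rw [mul_pow, ← pow_mul]
        congr 2
        omega
    _ ≤ (∑ i ∈ s, w i) ^ (2 * r - 2) * ((∑ i ∈ s, w i ^ 2) * ∑ i ∈ s, (z i ^ r) ^ 2) :=
        mul_le_mul_of_nonneg_left h2 (pow_nonneg hW _)
    _ = _ := by
        rw [← mul_assoc]
        congr 1
        apply Finset.sum_congr rfl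
        intro i _
        rw [← pow_mul, mul_comm]

end Pool.Agent.Work.LV
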