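import Mathlib
import Pool.Agent.Work.LV.Interface
import Pool.Agent.Work.MP_852da8_nt_k_helper53.LS

/-!
# Block E: multiplicative energy of separated intervals with small dilations
-/

set_option autoImplicit false

namespace Pool.Agent.Work.LV

open Finset
open Pool.Agent.Work.MP_852da8_nt_six
open Pool.Agent.Work.MP_852da8_nt_k.LS

namespace EE

/-- Shorthand for the standard additive character. -/
noncomputable abbrev ps (q : ℕ) [NeZero q] : AddChar (ZMod q) ℂ := ZMod.stdAddChar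

lemma ps_int (q : ℕ) [NeZero q] (j : ℤ) : ps q (j : ZMod q) = ee ((j : ℝ) / q) := by
  unfold ps ee
  rw [ZMod.stdAddChar_coe]
  congr 1
  push_cast
  ring

lemma norm_ps (q : ℕ) [NeZero q] (x : ZMod q) : ‖ps q x‖ = 1 := AddChar.norm_apply _ _

lemma conj_ps (q : ℕ) [NeZero q] (x : ZMod q) : (starRingEnd ℂ) (ps q x) = ps q (-x) :=
  (AddChar.map_neg_eq_conj _ _).symm

/-- the energy inequality -/
lemma energy (q : ℕ) [NeZero q] {ι : Type*} [DecidableEq ι] (I : Finset ι) (f : ι → ZMod q)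
    (w : ι → ℂ) :
    ∑ x : ZMod q, ‖∑ i ∈ I, w i * ps q (f i * x)‖ ^ 2 ≤
      q * ∑ i ∈ I, ‖w i‖ ^ 2 * ((I.filter fun i' => f i' = f i).card : ℝ) := by
  classical
  have h1 : ((∑ x : ZMod q, ‖∑ i ∈ I, w i * ps q (f i * x)‖ ^ 2 : ℝ) : ℂ) =
      ∑ i ∈ I, ∑ i' ∈ I, w i * (starRingEnd ℂ) (w i') * (if f i = f i' then (q : ℂ) else 0) := by
    rw [Complex.ofReal_sum]
    have e1 : ∀ x : ZMod q, ((‖∑ i ∈ I, w i * ps q (f i * x)‖ ^ 2 : ℝ) : ℂ) =
        ∑ i ∈ I, ∑ i' ∈ I, w i * (starRingEnd ℂ) (w i') * ps q (x * (f i - f i')) := by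
      intro x
      push_cast
      rw [← Complex.mul_conj', map_sum, Finset.sum_mul_sum]
      refine Finset.sum_congr rfl fun i _ => Finset.sum_congr rfl fun i' _ => ?_
      rw [RingHom.map_mul, conj_ps]
      have : x * (f i - f i') = f i * x + -(f i' * x) := by ring
      rw [this, AddChar.map_add_eq_mul]
      ring
    simp_rw [e1]
    rw [Finset.sum_comm]
    refine Finset.sum_congr rfl fun i _ => ?_
    rw [Finset.sum_comm]
    refine Finset.sum_congr rfl fun i' _ => ?_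
    rw [← Finset.mul_sum]
    congr 1
    rw [AddChar.sum_mulShift _ (ZMod.isPrimitive_stdAddChar q)]
    by_cases h : f i = f i'
    · rw [if_pos (sub_eq_zero.2 h), if_pos h, ZMod.card]
    · rw [if_neg (sub_ne_zero.2 h), if_neg h]
      simp
  have h2 : (∑ x : ZMod q, ‖∑ i ∈ I, w i * ps q (f i * x)‖ ^ 2 : ℝ) ≤
      ∑ i ∈ I, ∑ i' ∈ I, (if f i = f i' then (q : ℝ) * ((‖w i‖ ^ 2 + ‖w i'‖ ^ 2) / 2) else 0) := by
    have h3 : (∑ x : ZMod q, ‖∑ i ∈ I, w i * ps q (f i * x)‖ ^ 2 : ℝ) =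
        ‖((∑ x : ZMod q, ‖∑ i ∈ I, w i * ps q (f i * x)‖ ^ 2 : ℝ) : ℂ)‖ := by
      rw [Complex.norm_real, Real.norm_of_nonneg]
      exact Finset.sum_nonneg fun _ _ => by positivity
    rw [h3, h1]
    refine (norm_sum_le _ _).trans (Finset.sum_le_sum fun i _ => ?_)
    refine (norm_sum_le _ _).trans (Finset.sum_le_sum fun i' _ => ?_)
    by_cases h : f i = f i'
    · rw [if_pos h, if_pos h, norm_mul, norm_mul, Complex.norm_conj, Complex.norm_natCast]
      nlinarith [sq_nonneg (‖w i‖ - ‖w i'‖), Nat.cast_nonneg (α := ℝ) q]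
    · rw [if_neg h, if_neg h, mul_zero, norm_zero]
  refine h2.trans (le_of_eq ?_)
  have h4 : ∀ i i', (if f i = f i' then (q : ℝ) * ((‖w i‖ ^ 2 + ‖w i'‖ ^ 2) / 2) else 0) =
      (if f i' = f i then (q : ℝ) * ‖w i‖ ^ 2 / 2 else 0) +
      (if f i = f i' then (q : ℝ) * ‖w i'‖ ^ 2 / 2 else 0) := by
    intro i i'
    by_cases h : f i = f i'
    · rw [if_pos h, if_pos h.symm, if_pos h]
      ring
    · rw [if_neg h, if_neg (fun h' => h h'.symm), if_neg h, add_zero]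
  simp_rw [h4, Finset.sum_add_distrib]
  have h5 : ∑ i ∈ I, ∑ i' ∈ I, (if f i = f i' then (q : ℝ) * ‖w i'‖ ^ 2 / 2 else 0) =
      ∑ i ∈ I, ∑ i' ∈ I, (if f i' = f i then (q : ℝ) * ‖w i‖ ^ 2 / 2 else 0) := by
    rw [Finset.sum_comm]
  rw [h5, ← Finset.sum_add_distrib, Finset.mul_sum]
  refine Finset.sum_congr rfl fun i _ => ?_
  rw [← Finset.sum_filter, Finset.sum_const, nsmul_eq_mul]
  ring

/-- the majorant at the points of an interval -/
lemma major (q N K n : ℕ) [NeZero q] (hn : n ≤ N) (hK : 8 * N * K ≤ q) :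
    (K : ℝ) ^ 2 / 2 ≤ ‖∑ k ∈ range K, ps q ((k : ZMod q) * (n : ZMod q))‖ ^ 2 := by
  have hq : (0 : ℝ) < q := by exact_mod_cast Nat.pos_of_ne_zero (NeZero.ne q)
  have h1 : (K : ℝ) * (Real.sqrt 2 / 2) ≤
      (∑ k ∈ range K, ps q ((k : ZMod q) * (n : ZMod q))).re := by
    rw [Complex.re_sum]
    have h2 : ∀ k ∈ range K, Real.sqrt 2 / 2 ≤ (ps q ((k : ZMod q) * (n : ZMod q))).re := by
      intro k hk
      rw [mem_range] at hk
      have e : (k : ZMod q) * (n : ZMod q) = (((k * n : ℕ) : ℤ) : ZMod q) := by push_cast; ring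
      rw [e, ps_int]
      unfold ee
      have e2 : (2 * (Real.pi : ℂ) * (((((k * n : ℕ) : ℤ) : ℝ) / (q : ℝ) : ℝ) : ℂ) * Complex.I) =
          ((2 * Real.pi * ((((k * n : ℕ) : ℤ) : ℝ) / q) : ℝ) : ℂ) * Complex.I := by
        push_cast; ring
      rw [e2, Complex.exp_ofReal_mul_I_re, ← Real.cos_pi_div_four]
      apply Real.cos_le_cos_of_nonneg_of_le_pi
      · positivity
      · have := Real.pi_pos; linarith
      · have h3 : (((k * n : ℕ) : ℤ) : ℝ) / q ≤ 1 / 8 := by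
          rw [div_le_iff₀ hq]
          have h4 : 8 * (k * n) ≤ q := by
            calc 8 * (k * n) ≤ 8 * (K * N) := by gcongr
              _ = 8 * N * K := by ring
              _ ≤ q := hK
          have h5 : (8 : ℝ) * ((k : ℝ) * n) ≤ q := by exact_mod_cast h4
          push_cast
          linarith
        have := Real.pi_pos
        nlinarith
    calc (K : ℝ) * (Real.sqrt 2 / 2) = ∑ k ∈ range K, Real.sqrt 2 / 2 := by simp
      _ ≤ _ := Finset.sum_le_sum h2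
  have h2 : (K : ℝ) * (Real.sqrt 2 / 2) ≤ ‖∑ k ∈ range K, ps q ((k : ZMod q) * (n : ZMod q))‖ :=
    h1.trans (Complex.re_le_norm _)
  calc (K : ℝ) ^ 2 / 2 = ((K : ℝ) * (Real.sqrt 2 / 2)) ^ 2 := by
        rw [mul_pow, div_pow, Real.sq_sqrt (by norm_num)]
        ring
    _ ≤ _ := pow_le_pow_left₀ (by positivity) h2 2

/-- the majorant function -/
noncomputable def WW (q K : ℕ) [NeZero q] (𝓜 : Finset ℤ) (y : ZMod q) : ℝ :=
  2 / (K : ℝ) ^ 2 * ∑ M ∈ 𝓜, ‖∑ k ∈ range K, ps q ((k : ZMod q) * (y - (M : ZMod q)))‖ ^ 2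

lemma WW_nonneg (q K : ℕ) [NeZero q] (𝓜 : Finset ℤ) (y : ZMod q) : 0 ≤ WW q K 𝓜 y := by
  unfold WW
  positivity

lemma count_le (q N K : ℕ) [NeZero q] (𝓜 : Finset ℤ) (y : ZMod q) (hK1 : 1 ≤ K)
    (hK : 8 * N * K ≤ q) (hN : 1 ≤ N) :
    (((𝓜 ×ˢ Icc 1 N).filter fun t => y = (t.1 : ZMod q) + (t.2 : ZMod q)).card : ℝ) ≤
      WW q K 𝓜 y := by
  classical
  have hNq : N < q := by nlinarith
  have hKpos : (0 : ℝ) < K := by exact_mod_cast hK1
  unfold WW
  rw [Finset.mul_sum, Finset.card_filter, Finset.sum_product]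
  push_cast
  refine Finset.sum_le_sum fun M _ => ?_
  by_cases hex : ∃ n ∈ Icc 1 N, y = (M : ZMod q) + (n : ZMod q)
  · obtain ⟨n, hn, hy⟩ := hex
    have h1 : ∑ m ∈ Icc 1 N, (if y = (M : ZMod q) + (m : ZMod q) then (1 : ℝ) else 0) ≤ 1 := by
      rw [Finset.sum_eq_single n]
      · split_ifs <;> norm_num
      · intro m hm hmn
        rw [if_neg]
        intro hy'
        apply hmn
        have h3 : (m : ZMod q) = (n : ZMod q) := by
          rw [hy] at hy'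
          exact (add_left_cancel hy').symm
        rw [ZMod.natCast_eq_natCast_iff] at h3
        rw [mem_Icc] at hm hn
        exact Nat.ModEq.eq_of_lt_of_lt h3 (by omega) (by omega)
      · intro h
        exact absurd hn h
    have h2 : y - (M : ZMod q) = (n : ZMod q) := by rw [hy]; ring
    rw [h2]
    have h3 := major q N K n (mem_Icc.1 hn).2 hK
    refine h1.trans ?_
    calc (1 : ℝ) = 2 / (K : ℝ) ^ 2 * ((K : ℝ) ^ 2 / 2) := by field_simp
      _ ≤ _ := by gcongr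
  · push Not at hex
    rw [Finset.sum_eq_zero]
    · positivity
    · intro m hm
      rw [if_neg (hex m hm)]

lemma vv_le (q N K : ℕ) [NeZero q] (P : Finset ℕ) (𝓜 : Finset ℤ) (x : ZMod q) (hK1 : 1 ≤ K)
    (hK : 8 * N * K ≤ q) (hN : 1 ≤ N) :
    (vv q P 𝓜 N x : ℝ) ≤ ∑ a ∈ P, WW q K 𝓜 ((a : ZMod q) * x) := by
  classical
  have h1 : (vv q P 𝓜 N x : ℝ) = ∑ a ∈ P,
      (((𝓜 ×ˢ Icc 1 N).filter fun t => (a : ZMod q) * x = (t.1 : ZMod q) + (t.2 : ZMod q)).card : ℝ) := by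
    unfold vv
    rw [Finset.card_filter, Finset.sum_product]
    push_cast
    refine Finset.sum_congr rfl fun a _ => ?_
    rw [Finset.card_filter]
    push_cast
    rfl
  rw [h1]
  exact Finset.sum_le_sum fun a _ => count_le q N K 𝓜 _ hK1 hK hN

/-- the sums over the positions -/
noncomputable def SS (q : ℕ) [NeZero q] (𝓜 : Finset ℤ) (j : ℤ) : ℂ :=
  ∑ M ∈ 𝓜, ps q (-((j : ZMod q) * (M : ZMod q)))

/-- number of representations as a difference -/
noncomputable def cc (K : ℕ) (j : ℤ) : ℝ :=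
  (((range K ×ˢ range K).filter fun t : ℕ × ℕ => (t.1 : ℤ) - t.2 = j).card : ℝ)

lemma cc_nonneg (K : ℕ) (j : ℤ) : 0 ≤ cc K j := by unfold cc; positivity

lemma cc_le (K : ℕ) (j : ℤ) : cc K j ≤ K := by
  classical
  unfold cc
  refine Nat.cast_le.2 ?_
  calc ((range K ×ˢ range K).filter fun t : ℕ × ℕ => (t.1 : ℤ) - t.2 = j).card
      ≤ (range K).card := by
        apply Finset.card_le_card_of_injOn (fun t => t.1)
        · intro t ht
          rw [Finset.mem_coe, mem_filter, mem_product] at ht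
          exact ht.1.1
        · intro t ht t' ht' h
          rw [Finset.mem_coe, mem_filter] at ht ht'
          simp only at h
          have h1 := ht.2
          have h2 := ht'.2
          ext
          · exact h
          · omega
    _ = K := card_range K

lemma WW_expand (q K : ℕ) [NeZero q] (𝓜 : Finset ℤ) (y : ZMod q) :
    ((WW q K 𝓜 y : ℝ) : ℂ) = ∑ j ∈ Ioo (-(K : ℤ)) K,
      ((2 / (K : ℝ) ^ 2 * cc K j : ℝ) : ℂ) * SS q 𝓜 j * ps q ((j : ZMod q) * y) := by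
  classical
  unfold WW
  have e1 : ∀ M : ℤ, ((‖∑ k ∈ range K, ps q ((k : ZMod q) * (y - (M : ZMod q)))‖ ^ 2 : ℝ) : ℂ) =
      ∑ j ∈ Ioo (-(K : ℤ)) K, ((cc K j : ℝ) : ℂ) * ps q ((j : ZMod q) * (y - (M : ZMod q))) := by
    intro M
    push_cast
    rw [← Complex.mul_conj', map_sum, Finset.sum_mul_sum, ← Finset.sum_product']
    have e2 : ∀ t ∈ range K ×ˢ range K,
        ps q ((t.1 : ZMod q) * (y - (M : ZMod q))) * (starRingEnd ℂ) (ps q ((t.2 : ZMod q) * (y - (M : ZMod q)))) =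
        ps q (((((t.1 : ℤ) - t.2 : ℤ)) : ZMod q) * (y - (M : ZMod q))) := by
      intro t _
      rw [conj_ps, ← AddChar.map_add_eq_mul]
      congr 1
      push_cast
      ring
    rw [Finset.sum_congr rfl e2]
    have hmaps : ∀ t ∈ range K ×ˢ range K, ((t.1 : ℤ) - t.2) ∈ Ioo (-(K : ℤ)) K := by
      intro t ht
      rw [mem_product, mem_range, mem_range] at ht
      rw [mem_Ioo]
      omega
    rw [← Finset.sum_fiberwise_of_maps_to hmaps]
    refine Finset.sum_congr rfl fun j _ => ?_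
    rw [Finset.sum_congr rfl (g := fun _ => ps q ((j : ZMod q) * (y - (M : ZMod q))))
      (fun t ht => by rw [(mem_filter.1 ht).2])]
    rw [Finset.sum_const, nsmul_eq_mul]
    unfold cc
    push_cast
    rfl
  rw [Complex.ofReal_mul, Complex.ofReal_sum]
  simp_rw [e1]
  rw [Finset.sum_comm, Finset.mul_sum]
  refine Finset.sum_congr rfl fun j _ => ?_
  unfold SS
  rw [← Finset.mul_sum]
  have e3 : ∑ M ∈ 𝓜, ps q ((j : ZMod q) * (y - (M : ZMod q))) =
      (∑ M ∈ 𝓜, ps q (-((j : ZMod q) * (M : ZMod q)))) * ps q ((j : ZMod q) * y) := by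
    rw [Finset.sum_mul]
    refine Finset.sum_congr rfl fun M _ => ?_
    rw [← AddChar.map_add_eq_mul]
    congr 1
    ring
  rw [e3]
  push_cast
  ring

/-- the large sieve bound -/
lemma sieve_bound (q N K : ℕ) [NeZero q] (𝓜 : Finset ℤ) (hK1 : 1 ≤ K)
    (hK : 8 * N * K ≤ q) (hN : 1 ≤ N) (hS : Sep q N 𝓜) :
    ∑ j ∈ Ioo (-(K : ℤ)) K, ‖SS q 𝓜 j‖ ^ 2 ≤ 16 * q * 𝓜.card / N := by
  classical
  have hq : (0 : ℝ) < q := by exact_mod_cast Nat.pos_of_ne_zero (NeZero.ne q)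
  have hNr : (0 : ℝ) < N := by exact_mod_cast hN
  have hNq : N ≤ q := by nlinarith
  set θ : ℤ → ℝ := fun M => (M : ℝ) / q with hθ
  set δ : ℝ := (N : ℝ) / q with hδ
  have hδpos : 0 < δ := by positivity
  have hsp : Spaced 𝓜 θ δ := by
    intro M hM M' hM' hne
    have h1 := hS M hM M' hM' hne (round (θ M - θ M'))
    unfold nd
    have e : θ M - θ M' - (round (θ M - θ M') : ℝ) =
        ((M - M' - round (θ M - θ M') * q : ℤ) : ℝ) / q := by
      rw [eq_div_iff hq.ne', hθ]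
      push_cast
      field_simp
    rw [e, abs_div, abs_of_pos hq, hδ]
    gcongr
  set B : ℕ := ⌈(q : ℝ) / N⌉₊ with hB
  have hB1 : 1 / δ ≤ B := by
    rw [hδ, one_div_div]
    exact Nat.le_ceil _
  have hB2 : (B : ℝ) ≤ 2 * (q / N) := by
    have h1 := Nat.ceil_lt_add_one (a := (q : ℝ) / N) (by positivity)
    have h2 : (1 : ℝ) ≤ q / N := by
      rw [le_div_iff₀ hNr, one_mul]
      exact_mod_cast hNq
    linarith
  have hB3 : 2 * K ≤ B := by
    have h1 : ((2 * K : ℕ) : ℝ) ≤ B := by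
      refine le_trans ?_ (Nat.le_ceil _)
      rw [le_div_iff₀ hNr]
      have h2 : 2 * K * N ≤ q := by nlinarith
      exact_mod_cast h2
    exact_mod_cast h1
  have h1 := dual_sieve hδpos hsp hB1 (fun M : ℤ => ee ((K : ℝ) * θ M))
  have h2 : ∑ M ∈ 𝓜, ‖ee ((K : ℝ) * θ M)‖ ^ 2 = 𝓜.card := by
    simp [norm_ee]
  rw [h2] at h1
  have h3 : ∑ j ∈ Ioo (-(K : ℤ)) K, ‖SS q 𝓜 j‖ ^ 2 =
      ∑ b ∈ (Ioo (-(K : ℤ)) K).image (fun j : ℤ => (j + (K : ℤ)).toNat),
        ‖∑ M ∈ 𝓜, ee ((K : ℝ) * θ M) * ee (-((b : ℝ) * θ M))‖ ^ 2 := by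
    rw [Finset.sum_image]
    · refine Finset.sum_congr rfl fun j hj => ?_
      rw [mem_Ioo] at hj
      unfold SS
      congr 2
      refine Finset.sum_congr rfl fun M _ => ?_
      have e : -((j : ZMod q) * (M : ZMod q)) = ((-(j * M) : ℤ) : ZMod q) := by push_cast; ring
      rw [e, ps_int, ← ee_add]
      congr 1
      have h4 : (((j + K).toNat : ℕ) : ℝ) = (j : ℝ) + K := by
        have : (((j + K).toNat : ℕ) : ℤ) = j + K := Int.toNat_of_nonneg (by omega)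
        exact_mod_cast this
      rw [h4, hθ]
      push_cast
      ring
    · intro j hj j' hj' h
      rw [Finset.mem_coe, mem_Ioo] at hj hj'
      simp only at h
      omega
  rw [h3]
  calc ∑ b ∈ (Ioo (-(K : ℤ)) K).image (fun j : ℤ => (j + (K : ℤ)).toNat),
        ‖∑ M ∈ 𝓜, ee ((K : ℝ) * θ M) * ee (-((b : ℝ) * θ M))‖ ^ 2
      ≤ ∑ b ∈ Icc 1 B, ‖∑ M ∈ 𝓜, ee ((K : ℝ) * θ M) * ee (-((b : ℝ) * θ M))‖ ^ 2 := by
        apply Finset.sum_le_sum_of_subset_of_nonneg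
        · intro b hb
          rw [mem_image] at hb
          obtain ⟨j, hj, rfl⟩ := hb
          rw [mem_Ioo] at hj
          rw [mem_Icc]
          omega
        · intro _ _ _
          positivity
    _ ≤ 8 * B * 𝓜.card := h1
    _ ≤ 8 * (2 * (q / N)) * 𝓜.card := by gcongr
    _ = 16 * q * 𝓜.card / N := by ring

end EE

open EE

/-- Block E. -/
theorem stmt_E : Stmt_E := by
  classical
  refine ⟨100000, by norm_num, ?_⟩
  intro q N Y D _ P 𝓜 hN hNq hYN hP hD hS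
  have hq0 : 0 < q := Nat.pos_of_ne_zero (NeZero.ne q)
  have hq : (0 : ℝ) < q := by exact_mod_cast hq0
  have hNr : (0 : ℝ) < N := by exact_mod_cast hN
  set K : ℕ := q / (8 * N) with hKdef
  have hK1 : 1 ≤ K := (Nat.one_le_div_iff (by omega)).2 hNq
  have hK : 8 * N * K ≤ q := Nat.mul_div_le q (8 * N)
  have hKpos : (0 : ℝ) < K := by exact_mod_cast hK1
  have hKlow : (q : ℝ) ≤ 16 * N * K := by
    have h1 : q < 8 * N * (K + 1) := by
      have := Nat.lt_mul_div_succ q (show 0 < 8 * N by omega)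
      simpa using this
    have h2 : q ≤ 16 * N * K := by nlinarith
    exact_mod_cast h2
  set w : ℤ → ℂ := fun j => ((2 / (K : ℝ) ^ 2 * cc K j : ℝ) : ℂ) * SS q 𝓜 j with hw
  set J : Finset ℤ := Ioo (-(K : ℤ)) K with hJ
  -- step 1
  have h1 : ∑ x : ZMod q, (vv q P 𝓜 N x : ℝ) ^ 2 ≤
      ∑ x : ZMod q, ‖∑ i ∈ P ×ˢ J, w i.2 * ps q (((i.1 : ZMod q) * (i.2 : ZMod q)) * x)‖ ^ 2 := by
    refine Finset.sum_le_sum fun x _ => ?_
    have e1 : ((∑ a ∈ P, WW q K 𝓜 ((a : ZMod q) * x) : ℝ) : ℂ) =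
        ∑ i ∈ P ×ˢ J, w i.2 * ps q (((i.1 : ZMod q) * (i.2 : ZMod q)) * x) := by
      rw [Complex.ofReal_sum, Finset.sum_product]
      refine Finset.sum_congr rfl fun a _ => ?_
      rw [WW_expand]
      refine Finset.sum_congr rfl fun j _ => ?_
      simp only [hw]
      congr 2
      ring
    rw [← e1, Complex.norm_real, Real.norm_of_nonneg (Finset.sum_nonneg fun a _ => WW_nonneg _ _ _ _)]
    exact pow_le_pow_left₀ (by positivity) (vv_le q N K P 𝓜 x hK1 hK hN) 2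
  -- step 2
  have h2 := energy q (P ×ˢ J) (fun i => (i.1 : ZMod q) * (i.2 : ZMod q)) (fun i => w i.2)
  -- the number of coincidences
  have hsmall : ∀ a ∈ P, ∀ j ∈ J, 8 * |(a : ℤ) * j| ≤ q := by
    intro a ha j hj
    obtain ⟨ha1, ha2, -⟩ := hP a ha
    rw [hJ, mem_Ioo] at hj
    rw [abs_mul, abs_of_nonneg (by positivity : (0 : ℤ) ≤ (a : ℤ))]
    have h3 : |j| ≤ K := abs_le.2 ⟨by omega, by omega⟩
    have h4 : (a : ℤ) ≤ N := by exact_mod_cast ha2.trans hYN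
    have h5 : (8 * N * K : ℤ) ≤ q := by exact_mod_cast hK
    calc 8 * ((a : ℤ) * |j|) ≤ 8 * ((N : ℤ) * K) := by gcongr
      _ = 8 * N * K := by ring
      _ ≤ q := h5
  have hcoin : ∀ i ∈ P ×ˢ J, ∀ i' ∈ P ×ˢ J,
      ((i'.1 : ZMod q) * (i'.2 : ZMod q) = (i.1 : ZMod q) * (i.2 : ZMod q)) →
        (i'.1 : ℤ) * i'.2 = (i.1 : ℤ) * i.2 := by
    intro i hi i' hi' h
    rw [mem_product] at hi hi'
    have h3 := hsmall _ hi.1 _ hi.2
    have h4 := hsmall _ hi'.1 _ hi'.2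
    have h5 : (((i'.1 : ℤ) * i'.2 - (i.1 : ℤ) * i.2 : ℤ) : ZMod q) = 0 := by
      push_cast
      rw [h, sub_self]
    rw [ZMod.intCast_zmod_eq_zero_iff_dvd] at h5
    have h6 := Int.eq_zero_of_abs_lt_dvd h5 (by
      have := abs_sub ((i'.1 : ℤ) * i'.2) ((i.1 : ℤ) * i.2)
      have hq1 : (1 : ℤ) ≤ q := by exact_mod_cast hq0
      omega)
    linarith
  have hcard0 : ∀ i ∈ P ×ˢ J, i.2 = 0 →
      (((P ×ˢ J).filter fun i' => (i'.1 : ZMod q) * (i'.2 : ZMod q) = (i.1 : ZMod q) * (i.2 : ZMod q)).card : ℝ)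
        ≤ P.card := by
    intro i hi h0
    refine Nat.cast_le.2 ?_
    apply Finset.card_le_card_of_injOn (fun i' => i'.1)
    · intro i' hi'
      rw [Finset.mem_coe, mem_filter, mem_product] at hi'
      exact hi'.1.1
    · intro i' hi' i'' hi'' h
      rw [Finset.mem_coe, mem_filter] at hi' hi''
      have h3 := hcoin i hi i' hi'.1 hi'.2
      have h4 := hcoin i hi i'' hi''.1 hi''.2
      rw [h0, mul_zero] at h3 h4
      have h5 := (hP _ (mem_product.1 hi'.1).1).1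
      have h6 := (hP _ (mem_product.1 hi''.1).1).1
      have h7 : i'.2 = 0 := by
        rcases mul_eq_zero.1 h3 with h | h
        · omega
        · exact h
      have h8 : i''.2 = 0 := by
        rcases mul_eq_zero.1 h4 with h | h
        · omega
        · exact h
      ext
      · exact h
      · rw [h7, h8]
  have hcard1 : ∀ i ∈ P ×ˢ J, i.2 ≠ 0 →
      (((P ×ˢ J).filter fun i' => (i'.1 : ZMod q) * (i'.2 : ZMod q) = (i.1 : ZMod q) * (i.2 : ZMod q)).card : ℝ)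
        ≤ D := by
    intro i hi h0
    have hi1 := (hP _ (mem_product.1 hi).1).1
    have hm0 : (i.1 : ℤ) * i.2 ≠ 0 := mul_ne_zero (by omega) h0
    have hlt : ((i.1 : ℤ) * i.2).natAbs < q := by
      have h8 := hsmall _ (mem_product.1 hi).1 _ (mem_product.1 hi).2
      rw [← Int.natCast_natAbs] at h8
      omega
    have hDm := hD ((i.1 : ℤ) * i.2).natAbs (Int.natAbs_pos.2 hm0) hlt
    refine le_trans ?_ (Nat.cast_le.2 hDm)
    refine Nat.cast_le.2 ?_
    apply Finset.card_le_card_of_injOn (fun i' => i'.1)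
    · intro i' hi'
      rw [Finset.mem_coe, mem_filter] at hi'
      rw [Finset.mem_coe, mem_filter]
      refine ⟨(mem_product.1 hi'.1).1, ?_⟩
      have h3 := hcoin i hi i' hi'.1 hi'.2
      rw [← h3, Int.natAbs_mul, Int.natAbs_natCast]
      exact dvd_mul_right _ _
    · intro i' hi' i'' hi'' h
      rw [Finset.mem_coe, mem_filter] at hi' hi''
      have h3 := hcoin i hi i' hi'.1 hi'.2
      have h4 := hcoin i hi i'' hi''.1 hi''.2
      have h5 := (hP _ (mem_product.1 hi'.1).1).1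
      simp only at h
      ext
      · exact h
      · rw [← h] at h4
        rw [← h4] at h3
        exact mul_left_cancel₀ (by omega) h3
  -- bounds for the weights
  have hw0 : ‖w 0‖ ≤ 2 * 𝓜.card / K := by
    simp only [hw]
    rw [norm_mul, Complex.norm_real, Real.norm_of_nonneg (by have := cc_nonneg K 0; positivity)]
    have e1 : ‖SS q 𝓜 0‖ ≤ 𝓜.card := by
      unfold SS
      refine (norm_sum_le _ _).trans ?_
      simp [norm_ps]
    have e2 := cc_le K 0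
    calc 2 / (K : ℝ) ^ 2 * cc K 0 * ‖SS q 𝓜 0‖ ≤ 2 / (K : ℝ) ^ 2 * K * 𝓜.card := by gcongr
      _ = 2 * (𝓜.card : ℝ) / K := by field_simp
  have hwj : ∀ j, ‖w j‖ ^ 2 ≤ 4 / (K : ℝ) ^ 2 * ‖SS q 𝓜 j‖ ^ 2 := by
    intro j
    simp only [hw]
    rw [norm_mul, Complex.norm_real, Real.norm_of_nonneg (by have := cc_nonneg K j; positivity), mul_pow]
    have e2 := cc_le K j
    have e3 := cc_nonneg K j
    gcongr
    calc (2 / (K : ℝ) ^ 2 * cc K j) ^ 2 ≤ (2 / (K : ℝ) ^ 2 * K) ^ 2 := by gcongr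
      _ = 4 / (K : ℝ) ^ 2 := by field_simp; norm_num
  have hsum : ∑ j ∈ J, ‖w j‖ ^ 2 ≤ 4 / (K : ℝ) ^ 2 * (16 * q * 𝓜.card / N) := by
    calc ∑ j ∈ J, ‖w j‖ ^ 2 ≤ ∑ j ∈ J, 4 / (K : ℝ) ^ 2 * ‖SS q 𝓜 j‖ ^ 2 :=
          Finset.sum_le_sum fun j _ => hwj j
      _ = 4 / (K : ℝ) ^ 2 * ∑ j ∈ J, ‖SS q 𝓜 j‖ ^ 2 := by rw [Finset.mul_sum]
      _ ≤ _ := by
        gcongr
        exact sieve_bound q N K 𝓜 hK1 hK hN hS
  -- the right side of step 2
  have h3 : ∑ i ∈ P ×ˢ J, ‖w i.2‖ ^ 2 *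
      (((P ×ˢ J).filter fun i' => (i'.1 : ZMod q) * (i'.2 : ZMod q) = (i.1 : ZMod q) * (i.2 : ZMod q)).card : ℝ) ≤
      P.card * (D * ∑ j ∈ J, ‖w j‖ ^ 2) + P.card * (P.card * ‖w 0‖ ^ 2) := by
    calc _ ≤ ∑ i ∈ P ×ˢ J, (‖w i.2‖ ^ 2 * D + (if i.2 = 0 then ‖w i.2‖ ^ 2 * P.card else 0)) := by
          refine Finset.sum_le_sum fun i hi => ?_
          by_cases h0 : i.2 = 0
          · rw [if_pos h0]
            have := hcard0 i hi h0
            have h5 : 0 ≤ ‖w i.2‖ ^ 2 * D := by positivity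
            have h6 : ‖w i.2‖ ^ 2 *
                (((P ×ˢ J).filter fun i' => (i'.1 : ZMod q) * (i'.2 : ZMod q) =
                  (i.1 : ZMod q) * (i.2 : ZMod q)).card : ℝ) ≤ ‖w i.2‖ ^ 2 * P.card := by gcongr
            linarith
          · rw [if_neg h0, add_zero]
            have := hcard1 i hi h0
            gcongr
      _ = P.card * (D * ∑ j ∈ J, ‖w j‖ ^ 2) + P.card * (P.card * ‖w 0‖ ^ 2) := by
          rw [Finset.sum_product]
          simp only [Finset.sum_add_distrib, Finset.sum_const, nsmul_eq_mul]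
          have h0J : (0 : ℤ) ∈ J := by
            rw [hJ, mem_Ioo]; omega
          rw [Finset.sum_ite_eq' J 0 (fun j => ‖w j‖ ^ 2 * (P.card : ℝ)), if_pos h0J, ← Finset.sum_mul]
          ring
  have hJc : (0 : ℝ) ≤ 𝓜.card := by positivity
  have hPc : (0 : ℝ) ≤ P.card := by positivity
  have hDc : (0 : ℝ) ≤ D := by positivity
  have hKinv : 1 / (K : ℝ) ≤ 16 * N / q := by
    rw [div_le_div_iff₀ hKpos hq]
    linarith
  have hKinv0 : 0 ≤ 1 / (K : ℝ) := by positivity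
  calc ∑ x : ZMod q, (vv q P 𝓜 N x : ℝ) ^ 2
      ≤ q * ∑ i ∈ P ×ˢ J, ‖w i.2‖ ^ 2 *
      (((P ×ˢ J).filter fun i' => (i'.1 : ZMod q) * (i'.2 : ZMod q) = (i.1 : ZMod q) * (i.2 : ZMod q)).card : ℝ) :=
        h1.trans h2
    _ ≤ q * (P.card * (D * ∑ j ∈ J, ‖w j‖ ^ 2) + P.card * (P.card * ‖w 0‖ ^ 2)) := by gcongr
    _ ≤ q * (P.card * (D * (4 / (K : ℝ) ^ 2 * (16 * q * 𝓜.card / N))) +
          P.card * (P.card * (2 * 𝓜.card / K) ^ 2)) := by gcongr
    _ = q * (P.card * (D * (4 * (1 / (K : ℝ)) ^ 2 * (16 * q * 𝓜.card / N))) +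
          P.card * (P.card * (2 * 𝓜.card * (1 / (K : ℝ))) ^ 2)) := by ring
    _ ≤ q * (P.card * (D * (4 * (16 * N / q) ^ 2 * (16 * q * 𝓜.card / N))) +
          P.card * (P.card * (2 * 𝓜.card * (16 * N / q)) ^ 2)) := by gcongr
    _ = 16384 * (D * (P.card * 𝓜.card * N)) + 1024 * ((P.card * 𝓜.card * N) ^ 2 / q) := by
        field_simp
        ring
    _ ≤ 100000 * (D * (P.card * 𝓜.card * N) + (P.card * 𝓜.card * N) ^ 2 / q) := by
        have e1 : 0 ≤ D * (P.card * 𝓜.card * N : ℝ) := by positivity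
        have e2 : 0 ≤ (P.card * 𝓜.card * N : ℝ) ^ 2 / q := by positivity
        linarith

end Pool.Agent.Work.LV
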