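import Pool.Agent.Work.LV.Interface

/-!
# Block W, part 1: the nonvanishing lemma
-/

namespace Pool.Agent.Work.LV

open Finset Polynomial

section val

variable {K : Type} [Field K]

theorem rm_pow (a : K[X]) (n : ℕ) (α : K) :
    (a ^ n).rootMultiplicity α = n * a.rootMultiplicity α := by
  classical
  rw [← count_roots, ← count_roots, roots_pow, Multiset.count_nsmul]

/-- The valuation argument. -/
theorem norm_eq_zero {f : K[X]} (hf : f ≠ 0) {α : K} (hα : ¬ 3 ∣ f.rootMultiplicity α) {κ : K}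
    (hκ : κ ≠ 0) {a b c : K[X]}
    (h : f ^ 2 * a ^ 3 + C κ * f * b ^ 3 + C (κ ^ 2) * c ^ 3 = 3 * C κ * f * a * b * c) :
    a = 0 ∧ b = 0 ∧ c = 0 := by
  set μ := f.rootMultiplicity α with hμ
  set L : K[X] := X - C α with hL
  -- divisibility of each term by powers of `L`
  have hdiv : ∀ {g : K[X]}, g ≠ 0 → ∀ n, L ^ n ∣ g ↔ n ≤ g.rootMultiplicity α := by
    intro g hg n
    rw [le_rootMultiplicity_iff hg]
  have hU : ∀ a : K[X], a ≠ 0 → (f ^ 2 * a ^ 3) ≠ 0 ∧
      (f ^ 2 * a ^ 3).rootMultiplicity α = 2 * μ + 3 * a.rootMultiplicity α := by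
    intro a ha
    have h0 : f ^ 2 * a ^ 3 ≠ 0 := mul_ne_zero (pow_ne_zero _ hf) (pow_ne_zero _ ha)
    refine ⟨h0, ?_⟩
    rw [rootMultiplicity_mul h0, rm_pow, rm_pow]
  have hV : ∀ b : K[X], b ≠ 0 → (C κ * f * b ^ 3) ≠ 0 ∧
      (C κ * f * b ^ 3).rootMultiplicity α = μ + 3 * b.rootMultiplicity α := by
    intro b hb
    have h0 : C κ * f * b ^ 3 ≠ 0 :=
      mul_ne_zero (mul_ne_zero (C_ne_zero.mpr hκ) hf) (pow_ne_zero _ hb)
    refine ⟨h0, ?_⟩
    rw [rootMultiplicity_mul h0, rootMultiplicity_mul (left_ne_zero_of_mul h0),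
      rm_pow, rootMultiplicity_C, zero_add]
  have hW : ∀ c : K[X], c ≠ 0 → (C (κ ^ 2) * c ^ 3) ≠ 0 ∧
      (C (κ ^ 2) * c ^ 3).rootMultiplicity α = 3 * c.rootMultiplicity α := by
    intro c hc
    have h0 : C (κ ^ 2) * c ^ 3 ≠ 0 :=
      mul_ne_zero (C_ne_zero.mpr (pow_ne_zero _ hκ)) (pow_ne_zero _ hc)
    refine ⟨h0, ?_⟩
    rw [rootMultiplicity_mul h0, rm_pow, rootMultiplicity_C, zero_add]
  -- the product term
  have hT : ∀ e : ℕ, (a ≠ 0 → e ≤ 2 * μ + 3 * a.rootMultiplicity α) →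
      (b ≠ 0 → e ≤ μ + 3 * b.rootMultiplicity α) → (c ≠ 0 → e ≤ 3 * c.rootMultiplicity α) →
      L ^ (e + 1) ∣ 3 * C κ * f * a * b * c := by
    intro e h1 h2 h3
    by_cases ha : a = 0
    · rw [ha]; simp
    by_cases hb : b = 0
    · rw [hb]; simp
    by_cases hc : c = 0
    · rw [hc]; simp
    have h1 := h1 ha
    have h2 := h2 hb
    have h3 := h3 hc
    have hfabc : f * a * b * c ≠ 0 := mul_ne_zero (mul_ne_zero (mul_ne_zero hf ha) hb) hc
    have hr : (f * a * b * c).rootMultiplicity α =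
        μ + a.rootMultiplicity α + b.rootMultiplicity α + c.rootMultiplicity α := by
      rw [rootMultiplicity_mul hfabc, rootMultiplicity_mul (left_ne_zero_of_mul hfabc),
        rootMultiplicity_mul (left_ne_zero_of_mul (left_ne_zero_of_mul hfabc))]
    have h4 : L ^ (e + 1) ∣ f * a * b * c := by
      rw [hdiv hfabc, hr]
      omega
    have h5 : 3 * C κ * f * a * b * c = (3 * C κ) * (f * a * b * c) := by ring
    rw [h5]
    exact Dvd.dvd.mul_left h4 _
  by_contra hne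
  -- the minimum
  obtain ⟨e, he⟩ : ∃ e : ℕ, (a ≠ 0 ∧ e = 2 * μ + 3 * a.rootMultiplicity α ∨
      b ≠ 0 ∧ e = μ + 3 * b.rootMultiplicity α ∨ c ≠ 0 ∧ e = 3 * c.rootMultiplicity α) ∧
      (a ≠ 0 → e ≤ 2 * μ + 3 * a.rootMultiplicity α) ∧
      (b ≠ 0 → e ≤ μ + 3 * b.rootMultiplicity α) ∧ (c ≠ 0 → e ≤ 3 * c.rootMultiplicity α) := by
    classical
    have hex : ∃ e : ℕ, (a ≠ 0 ∧ e = 2 * μ + 3 * a.rootMultiplicity α ∨
      b ≠ 0 ∧ e = μ + 3 * b.rootMultiplicity α ∨ c ≠ 0 ∧ e = 3 * c.rootMultiplicity α) := by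
      by_cases ha : a = 0
      · by_cases hb : b = 0
        · by_cases hc : c = 0
          · exact absurd ⟨ha, hb, hc⟩ hne
          · exact ⟨_, Or.inr (Or.inr ⟨hc, rfl⟩)⟩
        · exact ⟨_, Or.inr (Or.inl ⟨hb, rfl⟩)⟩
      · exact ⟨_, Or.inl ⟨ha, rfl⟩⟩
    refine ⟨Nat.find hex, Nat.find_spec hex, fun h => ?_, fun h => ?_, fun h => ?_⟩
    · exact Nat.find_min' hex (Or.inl ⟨h, rfl⟩)
    · exact Nat.find_min' hex (Or.inr (Or.inl ⟨h, rfl⟩))
    · exact Nat.find_min' hex (Or.inr (Or.inr ⟨h, rfl⟩))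
  obtain ⟨h0, h1, h2, h3⟩ := he
  have hT' := hT e h1 h2 h3
  have dU : (a ≠ 0 → e + 1 ≤ 2 * μ + 3 * a.rootMultiplicity α) → L ^ (e + 1) ∣ f ^ 2 * a ^ 3 := by
    intro h4
    by_cases ha : a = 0
    · rw [ha]; simp
    · rw [hdiv (hU a ha).1, (hU a ha).2]; exact h4 ha
  have dV : (b ≠ 0 → e + 1 ≤ μ + 3 * b.rootMultiplicity α) → L ^ (e + 1) ∣ C κ * f * b ^ 3 := by
    intro h4
    by_cases hb : b = 0
    · rw [hb]; simp
    · rw [hdiv (hV b hb).1, (hV b hb).2]; exact h4 hb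
  have dW : (c ≠ 0 → e + 1 ≤ 3 * c.rootMultiplicity α) → L ^ (e + 1) ∣ C (κ ^ 2) * c ^ 3 := by
    intro h4
    by_cases hc : c = 0
    · rw [hc]; simp
    · rw [hdiv (hW c hc).1, (hW c hc).2]; exact h4 hc
  rcases h0 with ⟨ha, he⟩ | ⟨hb, he⟩ | ⟨hc, he⟩
  · have h4 := dV (fun hb => by have := h2 hb; omega)
    have h5 := dW (fun hc => by have := h3 hc; omega)
    have h6 : L ^ (e + 1) ∣ f ^ 2 * a ^ 3 := by
      have : f ^ 2 * a ^ 3 = 3 * C κ * f * a * b * c - C κ * f * b ^ 3 - C (κ ^ 2) * c ^ 3 := by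
        rw [← h]; ring
      rw [this]
      exact dvd_sub (dvd_sub hT' h4) h5
    rw [hdiv (hU a ha).1, (hU a ha).2] at h6
    omega
  · have h4 := dU (fun ha => by have := h1 ha; omega)
    have h5 := dW (fun hc => by have := h3 hc; omega)
    have h6 : L ^ (e + 1) ∣ C κ * f * b ^ 3 := by
      have : C κ * f * b ^ 3 = 3 * C κ * f * a * b * c - f ^ 2 * a ^ 3 - C (κ ^ 2) * c ^ 3 := by
        rw [← h]; ring
      rw [this]
      exact dvd_sub (dvd_sub hT' h4) h5
    rw [hdiv (hV b hb).1, (hV b hb).2] at h6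
    omega
  · have h4 := dU (fun ha => by have := h1 ha; omega)
    have h5 := dV (fun hb => by have := h2 hb; omega)
    have h6 : L ^ (e + 1) ∣ C (κ ^ 2) * c ^ 3 := by
      have : C (κ ^ 2) * c ^ 3 = 3 * C κ * f * a * b * c - f ^ 2 * a ^ 3 - C κ * f * b ^ 3 := by
        rw [← h]; ring
      rw [this]
      exact dvd_sub (dvd_sub hT' h4) h5
    rw [hdiv (hW c hc).1, (hW c hc).2] at h6
    omega

end val

section nonvanish

variable {p : ℕ} [Fact p.Prime]

theorem pow_p_mod (f : (ZMod p)[X]) : (X : (ZMod p)[X]) ^ p ∣ f ^ p - C (f.eval 0) := by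
  have h1 : f ^ p = expand (ZMod p) p f := (ZMod.expand_card f).symm
  have h2 : (X : (ZMod p)[X]) ∣ f - C (f.eval 0) := by
    rw [X_dvd_iff, coeff_sub, coeff_C_zero, coeff_zero_eq_eval_zero, sub_self]
  obtain ⟨g, hg⟩ := h2
  have h3 : f = X * g + C (f.eval 0) := by rw [← hg]; ring
  rw [h1]
  conv_lhs => rw [← one_mul (X ^ p)]
  have h4 : expand (ZMod p) p f = X ^ p * expand (ZMod p) p g + C (f.eval 0) := by
    conv_lhs => rw [h3]
    rw [map_add, map_mul, expand_X, expand_C]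
  rw [h4, one_mul, add_sub_cancel_right]
  exact dvd_mul_right _ _

/-- One coefficient: if `a + b g + c g²` vanishes modulo `X^p` with `g = f^m`, `3 m = p - 1`. -/
theorem coeff_vanish {f : (ZMod p)[X]} {d D m : ℕ} (hd : f.natDegree ≤ d) (hf0 : f.eval 0 ≠ 0)
    {α : ZMod p} (hα : ¬ 3 ∣ f.rootMultiplicity α) (hm : 3 * m + 1 = p)
    (hD : 2 * d + 3 * D < p) {a b c : (ZMod p)[X]} (ha : a.natDegree ≤ D) (hb : b.natDegree ≤ D)
    (hc : c.natDegree ≤ D) (h : (X : (ZMod p)[X]) ^ p ∣ a + b * f ^ m + c * f ^ (2 * m)) :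
    a = 0 ∧ b = 0 ∧ c = 0 := by
  have hf : f ≠ 0 := by rintro rfl; simp at hf0
  set κ := f.eval 0 with hκ
  obtain ⟨g, hg⟩ := pow_p_mod f
  have hg' : f ^ p = X ^ p * g + C κ := by rw [← hg]; ring
  apply norm_eq_zero hf hα hf0
  set N : (ZMod p)[X] := f ^ 2 * a ^ 3 + C κ * f * b ^ 3 + C (κ ^ 2) * c ^ 3 -
    3 * C κ * f * a * b * c with hN
  have h1 : (X : (ZMod p)[X]) ^ p ∣ N := by
    obtain ⟨u, hu⟩ := h
    have h2 : f ^ 2 * ((a + b * f ^ m + c * f ^ (2 * m)) * (a ^ 2 + b ^ 2 * f ^ (2 * m) +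
        c ^ 2 * f ^ (4 * m) - a * b * f ^ m - a * c * f ^ (2 * m) - b * c * f ^ (3 * m))) =
        f ^ 2 * a ^ 3 + f ^ p * f * b ^ 3 + f ^ p * f ^ p * c ^ 3 -
          3 * f ^ p * f * a * b * c := by
      have hfp : f ^ (3 * m + 1) = f ^ p := by rw [hm]
      rw [← hfp]; ring
    rw [hu, hg'] at h2
    have h3 : N = X ^ p * (f ^ 2 * (u * (a ^ 2 + b ^ 2 * f ^ (2 * m) +
        c ^ 2 * f ^ (4 * m) - a * b * f ^ m - a * c * f ^ (2 * m) - b * c * f ^ (3 * m))) -
        g * f * b ^ 3 - (2 * g * C κ + X ^ p * g * g) * c ^ 3 + 3 * g * f * a * b * c) := by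
      rw [hN, C_pow]
      linear_combination -h2
    rw [h3]
    exact dvd_mul_right _ _
  have h2 : N.natDegree < p := by
    have e1 : (f ^ 2 * a ^ 3).natDegree ≤ 2 * d + 3 * D := by
      refine natDegree_mul_le.trans (add_le_add ?_ ?_)
      · exact natDegree_pow_le.trans (Nat.mul_le_mul_left _ hd)
      · exact natDegree_pow_le.trans (Nat.mul_le_mul_left _ ha)
    have e2 : (C κ * f * b ^ 3).natDegree ≤ 2 * d + 3 * D := by
      refine natDegree_mul_le.trans (add_le_add ?_ ?_)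
      · refine (natDegree_C_mul_le _ _).trans (by omega)
      · exact natDegree_pow_le.trans (Nat.mul_le_mul_left _ hb)
    have e3 : (C (κ ^ 2) * c ^ 3).natDegree ≤ 2 * d + 3 * D := by
      refine (natDegree_C_mul_le _ _).trans (natDegree_pow_le.trans ?_)
      have := Nat.mul_le_mul_left 3 hc
      omega
    have e4 : (3 * C κ * f * a * b * c).natDegree ≤ 2 * d + 3 * D := by
      have : (3 * C κ * f * a * b * c : (ZMod p)[X]) = C (3 * κ) * (f * a * b * c) := by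
        rw [C_mul]; simp only [map_ofNat]; ring
      rw [this]
      refine (natDegree_C_mul_le _ _).trans ?_
      have e5 : (f * a * b * c).natDegree ≤ d + D + D + D :=
        natDegree_mul_le.trans (add_le_add (natDegree_mul_le.trans (add_le_add
          (natDegree_mul_le.trans (add_le_add hd ha)) hb)) hc)
      omega
    have e5 : N.natDegree ≤ 2 * d + 3 * D := by
      rw [hN]
      refine (natDegree_sub_le _ _).trans (max_le ?_ e4)
      refine (natDegree_add_le _ _).trans (max_le ?_ e3)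
      exact (natDegree_add_le _ _).trans (max_le e1 e2)
    omega
  have h3 : N = 0 := by
    by_contra hne
    have := natDegree_le_of_dvd h1 hne
    rw [natDegree_X_pow] at this
    omega
  rw [hN, sub_eq_zero] at h3
  exact h3

/-- **Nonvanishing lemma.** -/
theorem aux_ne_zero {f : (ZMod p)[X]} {d D m : ℕ} (hd : f.natDegree ≤ d) (hf0 : f.eval 0 ≠ 0)
    {α : ZMod p} (hα : ¬ 3 ∣ f.rootMultiplicity α) (hm : 3 * m + 1 = p)
    (hD : 2 * d + 3 * D < p) {J : ℕ} (r : Fin 3 → ℕ → (ZMod p)[X])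
    (hr : ∀ i j, (r i j).natDegree ≤ D)
    (h0 : ∑ j ∈ range J, (∑ i : Fin 3, r i j * f ^ (i.val * m)) * X ^ (j * p) = 0) :
    ∀ j < J, ∀ i, r i j = 0 := by
  intro j
  induction j using Nat.strong_induction_on with
  | _ j ih =>
    intro hj
    have hp : p ≠ 0 := (Fact.out : p.Prime).ne_zero
    -- only the terms with index at least `j` remain
    have h1 : ∑ k ∈ range J, (∑ i : Fin 3, r i k * f ^ (i.val * m)) * X ^ (k * p) =
        X ^ (j * p) * ∑ k ∈ range (J - j),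
          (∑ i : Fin 3, r i (j + k) * f ^ (i.val * m)) * X ^ (k * p) := by
      obtain ⟨t, rfl⟩ := Nat.exists_eq_add_of_le hj.le
      rw [Finset.sum_range_add]
      have h2 : ∑ k ∈ range j, (∑ i : Fin 3, r i k * f ^ (i.val * m)) * X ^ (k * p) = 0 := by
        apply Finset.sum_eq_zero
        intro k hk
        rw [Finset.mem_range] at hk
        have := ih k hk (by omega)
        simp [this]
      rw [h2, zero_add, Nat.add_sub_cancel_left, Finset.mul_sum]
      apply Finset.sum_congr rfl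
      intro k _
      rw [add_mul, pow_add]
      ring
    rw [h1] at h0
    have h2 := (mul_eq_zero.mp h0).resolve_left (pow_ne_zero _ X_ne_zero)
    obtain ⟨t, ht⟩ : ∃ t, J - j = t + 1 := ⟨J - j - 1, by omega⟩
    rw [ht, Finset.sum_range_succ'] at h2
    simp only [zero_mul, pow_zero, mul_one, add_zero] at h2
    have h3 : (X : (ZMod p)[X]) ^ p ∣ ∑ k ∈ range t,
        (∑ i : Fin 3, r i (j + (k + 1)) * f ^ (i.val * m)) * X ^ ((k + 1) * p) := by
      apply Finset.dvd_sum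
      intro k _
      apply Dvd.dvd.mul_left
      exact pow_dvd_pow _ (Nat.le_mul_of_pos_left _ (Nat.succ_pos k))
    have h4 : (X : (ZMod p)[X]) ^ p ∣ ∑ i : Fin 3, r i j * f ^ (i.val * m) := by
      have := dvd_neg.mpr h3
      rwa [← eq_neg_of_add_eq_zero_right h2] at this
    rw [Fin.sum_univ_three] at h4
    simp only [Fin.val_zero, zero_mul, pow_zero, mul_one, Fin.val_one, one_mul, Fin.val_two] at h4
    obtain ⟨ha, hb, hc⟩ := coeff_vanish hd hf0 hα hm hD (hr 0 j) (hr 1 j) (hr 2 j) h4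
    intro i
    fin_cases i
    · exact ha
    · exact hb
    · exact hc

end nonvanish

end Pool.Agent.Work.LV
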