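import Pool.Agent.Work.LV.W1

/-!
# Block W, part 2: construction of the auxiliary polynomial and the counting bound
-/

namespace Pool.Agent.Work.LV

open Finset Polynomial

variable {p : ℕ} [Fact p.Prime]

/-- The operator giving the `k`-th derivative of `f ^ e * r`, divided by `f ^ (e - k)`. -/
noncomputable def Lop (f : (ZMod p)[X]) (e : ℕ) : ℕ → ((ZMod p)[X] →ₗ[ZMod p] (ZMod p)[X])
  | 0 => LinearMap.id
  | k + 1 => (LinearMap.mulLeft (ZMod p) f ∘ₗ derivative +
      ((e - k : ℕ) : ZMod p) • LinearMap.mulLeft (ZMod p) (derivative f)) ∘ₗ Lop f e k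

theorem Lop_succ (f : (ZMod p)[X]) (e k : ℕ) (r : (ZMod p)[X]) :
    Lop f e (k + 1) r = f * derivative (Lop f e k r) +
      C ((e - k : ℕ) : ZMod p) * (derivative f * Lop f e k r) := by
  simp [Lop, smul_eq_C_mul]

theorem Lop_natDegree {f : (ZMod p)[X]} {d D : ℕ} (hd : f.natDegree ≤ d) (e : ℕ)
    {r : (ZMod p)[X]} (hr : r.natDegree ≤ D) (k : ℕ) : (Lop f e k r).natDegree ≤ D + k * d := by
  induction k with
  | zero => simpa [Lop] using hr
  | succ k ih =>
    rw [Lop_succ]
    refine (natDegree_add_le _ _).trans (max_le ?_ ?_)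
    · refine natDegree_mul_le.trans ?_
      have := (natDegree_derivative_le (Lop f e k r)).trans (Nat.sub_le_sub_right ih 1)
      rw [Nat.succ_mul]
      omega
    · refine (natDegree_C_mul_le _ _).trans (natDegree_mul_le.trans ?_)
      have := (natDegree_derivative_le f).trans (Nat.sub_le_sub_right hd 1)
      rw [Nat.succ_mul]
      omega

theorem derivative_X_pow_mul_p (j : ℕ) : derivative ((X : (ZMod p)[X]) ^ (j * p)) = 0 := by
  rw [derivative_X_pow, Nat.cast_mul, ZMod.natCast_self, mul_zero, C_0, zero_mul]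

theorem iterate_deriv_term (f r : (ZMod p)[X]) (e j k : ℕ) (hk : k ≤ e) :
    derivative^[k] (f ^ e * r * X ^ (j * p)) = f ^ (e - k) * Lop f e k r * X ^ (j * p) := by
  induction k with
  | zero => simp [Lop]
  | succ k ih =>
    rw [Function.iterate_succ_apply', ih (by omega), derivative_mul, derivative_X_pow_mul_p,
      mul_zero, add_zero, derivative_mul, derivative_pow, Lop_succ]
    obtain ⟨t, ht⟩ : ∃ t, e - k = t + 1 := ⟨e - k - 1, by omega⟩
    have h1 : e - (k + 1) = t := by omega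
    rw [h1, ht, Nat.add_sub_cancel, pow_succ]
    ring

/-- The evaluation of the `k`-th derivative of the auxiliary polynomial at a point. -/
theorem eval_deriv_aux {f : (ZMod p)[X]} {m ℓ J : ℕ} (r : Fin 3 → ℕ → (ZMod p)[X])
    {k : ℕ} (hk : k ≤ ℓ) {x a : ZMod p} (hx : f.eval x ^ m = a) :
    (derivative^[k] (∑ j ∈ range J, (∑ i : Fin 3, r i j * f ^ (ℓ + i.val * m)) *
      X ^ (j * p))).eval x =
    f.eval x ^ (ℓ - k) *
      (∑ j ∈ range J, (∑ i : Fin 3, C (a ^ i.val) * Lop f (ℓ + i.val * m) k (r i j)) *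
        X ^ j).eval x := by
  rw [iterate_derivative_sum, eval_finsetSum, eval_finsetSum, Finset.mul_sum]
  apply Finset.sum_congr rfl
  intro j _
  have h1 : (∑ i : Fin 3, r i j * f ^ (ℓ + i.val * m)) * X ^ (j * p) =
      ∑ i : Fin 3, f ^ (ℓ + i.val * m) * r i j * X ^ (j * p) := by
    rw [Finset.sum_mul]
    apply Finset.sum_congr rfl
    intro i _
    ring
  rw [h1, iterate_derivative_sum, eval_finsetSum]
  have h2 : ∀ i : Fin 3, (derivative^[k] (f ^ (ℓ + i.val * m) * r i j * X ^ (j * p))).eval x =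
      f.eval x ^ (ℓ - k) * (a ^ i.val * (Lop f (ℓ + i.val * m) k (r i j)).eval x * x ^ j) := by
    intro i
    rw [iterate_deriv_term _ _ _ _ _ (by omega)]
    have h3 : ℓ + i.val * m - k = (ℓ - k) + i.val * m := by omega
    rw [h3, eval_mul, eval_mul, eval_pow, eval_pow, eval_X, pow_mul, pow_add, ← hx,
      ZMod.pow_card]
    have h4 : (f.eval x) ^ (i.val * m) = (f.eval x ^ m) ^ i.val := by
      rw [mul_comm, pow_mul]
    rw [h4]
    ring
  simp_rw [h2]
  rw [eval_mul, eval_finsetSum, eval_pow, eval_X, Finset.sum_mul, Finset.mul_sum]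
  apply Finset.sum_congr rfl
  intro i _
  rw [eval_mul, eval_C]

section count

variable {J ℓ D : ℕ}

/-- Extension of a finite family of polynomials by zero. -/
noncomputable def extR (r : Fin J → Fin 3 → degreeLT (ZMod p) (D + 1)) :
    Fin 3 → ℕ → (ZMod p)[X] :=
  fun i j => if h : j < J then (r ⟨j, h⟩ i : (ZMod p)[X]) else 0

/-- The polynomial whose vanishing makes the `k`-th derivative vanish at the points with
`f ^ m = a`, as a linear map. -/
noncomputable def SS (f : (ZMod p)[X]) (m ℓ : ℕ) (a : ZMod p) (J D k : ℕ) :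
    (Fin J → Fin 3 → degreeLT (ZMod p) (D + 1)) →ₗ[ZMod p] (ZMod p)[X] :=
  ∑ j : Fin J, ∑ i : Fin 3, LinearMap.mulLeft (ZMod p) (C (a ^ i.val) * X ^ j.val) ∘ₗ
    Lop f (ℓ + i.val * m) k ∘ₗ (degreeLT (ZMod p) (D + 1)).subtype ∘ₗ
      LinearMap.proj i ∘ₗ LinearMap.proj j

theorem SS_apply (f : (ZMod p)[X]) (m : ℕ) (a : ZMod p) (k : ℕ)
    (r : Fin J → Fin 3 → degreeLT (ZMod p) (D + 1)) :
    SS f m ℓ a J D k r = ∑ j ∈ range J,
      (∑ i : Fin 3, C (a ^ i.val) * Lop f (ℓ + i.val * m) k (extR r i j)) * X ^ j := by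
  rw [Finset.sum_range, SS, LinearMap.sum_apply]
  apply Finset.sum_congr rfl
  intro j _
  rw [LinearMap.sum_apply, Finset.sum_mul]
  apply Finset.sum_congr rfl
  intro i _
  have h1 : extR r i j = (r j i : (ZMod p)[X]) := by
    rw [extR, dif_pos j.2]
  rw [h1]
  simp only [LinearMap.comp_apply, LinearMap.mulLeft_apply, LinearMap.proj_apply,
    Submodule.subtype_apply]
  ring

theorem natDegree_of_mem {r : degreeLT (ZMod p) (D + 1)} : (r : (ZMod p)[X]).natDegree ≤ D := by
  have h := mem_degreeLT.mp r.2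
  by_cases h0 : (r : (ZMod p)[X]) = 0
  · rw [h0]; simp
  · rw [← natDegree_lt_iff_degree_lt h0] at h
    omega

theorem extR_natDegree (r : Fin J → Fin 3 → degreeLT (ZMod p) (D + 1)) (i : Fin 3) (j : ℕ) :
    (extR r i j).natDegree ≤ D := by
  unfold extR
  split_ifs with h
  · exact natDegree_of_mem
  · simp

theorem SS_natDegree {f : (ZMod p)[X]} {d : ℕ} (hd : f.natDegree ≤ d) (m : ℕ) (a : ZMod p) (k : ℕ)
    (r : Fin J → Fin 3 → degreeLT (ZMod p) (D + 1)) :
    (SS f m ℓ a J D k r).natDegree ≤ D + k * d + (J - 1) := by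
  rw [SS_apply]
  apply natDegree_sum_le_of_forall_le
  intro j hj
  rw [Finset.mem_range] at hj
  refine natDegree_mul_le.trans (add_le_add ?_ ?_)
  · apply natDegree_sum_le_of_forall_le
    intro i _
    exact (natDegree_C_mul_le _ _).trans (Lop_natDegree hd _ (extR_natDegree r i j) k)
  · rw [natDegree_X_pow]; omega

/-- Existence of the auxiliary coefficients. -/
theorem exists_coeffs {f : (ZMod p)[X]} {d : ℕ} (hd : f.natDegree ≤ d) (m : ℕ) (a : ZMod p)
    (hJ : 1 ≤ J) (hcount : ∑ k ∈ range ℓ, (D + k * d + J) < 3 * J * (D + 1)) :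
    ∃ r : Fin J → Fin 3 → degreeLT (ZMod p) (D + 1), r ≠ 0 ∧
      ∀ k < ℓ, SS f m ℓ a J D k r = 0 := by
  let Φ : (Fin J → Fin 3 → degreeLT (ZMod p) (D + 1)) →ₗ[ZMod p]
      ((k : Fin ℓ) → (Fin (D + k.val * d + J) → ZMod p)) :=
    LinearMap.pi fun k => LinearMap.pi fun n => lcoeff (ZMod p) n.val ∘ₗ SS f m ℓ a J D k.val
  have hfd : FiniteDimensional (ZMod p) (degreeLT (ZMod p) (D + 1)) :=
    Module.Finite.equiv (degreeLTEquiv (ZMod p) (D + 1)).symm
  have hdim : Module.finrank (ZMod p) (degreeLT (ZMod p) (D + 1)) = D + 1 := by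
    rw [LinearEquiv.finrank_eq (degreeLTEquiv (ZMod p) (D + 1)), Module.finrank_fin_fun]
  have hlt : Module.finrank (ZMod p) ((k : Fin ℓ) → (Fin (D + k.val * d + J) → ZMod p)) <
      Module.finrank (ZMod p) (Fin J → Fin 3 → degreeLT (ZMod p) (D + 1)) := by
    rw [Module.finrank_pi_fintype, Module.finrank_pi_fintype]
    simp only [Module.finrank_pi_fintype, hdim, Finset.sum_const,
      Finset.card_univ, Fintype.card_fin, smul_eq_mul, Module.finrank_self, mul_one]
    rw [Finset.sum_range] at hcount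
    calc ∑ k : Fin ℓ, (D + k.val * d + J) < 3 * J * (D + 1) := hcount
      _ = J * (3 * (D + 1)) := by ring
  have hker := LinearMap.ker_ne_bot_of_finrank_lt (f := Φ) hlt
  obtain ⟨r, hr, hr0⟩ := Submodule.exists_mem_ne_zero_of_ne_bot hker
  refine ⟨r, hr0, fun k hk => ?_⟩
  rw [LinearMap.mem_ker] at hr
  ext n
  rw [coeff_zero]
  by_cases hn : n < D + k * d + J
  · exact congrFun (congrFun hr ⟨k, hk⟩) ⟨n, hn⟩
  · apply coeff_eq_zero_of_natDegree_lt
    have := SS_natDegree (ℓ := ℓ) hd m a k r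
    omega

/-- **Stepanov's bound.** -/
theorem stepanov_count {f : (ZMod p)[X]} {d m : ℕ} (hd : f.natDegree ≤ d) (hf0 : f.eval 0 ≠ 0)
    {α : ZMod p} (hα : ¬ 3 ∣ f.rootMultiplicity α) (hm : 3 * m + 1 = p)
    (hD : 2 * d + 3 * D < p) (hJ : 1 ≤ J) (hℓ : ℓ ≤ p)
    (hcount : ∑ k ∈ range ℓ, (D + k * d + J) < 3 * J * (D + 1)) (a : ZMod p) :
    ℓ * (univ.filter fun x : ZMod p => f.eval x ^ m = a).card ≤
      D + (ℓ + 2 * m) * d + (J - 1) * p := by
  classical
  obtain ⟨r, hr0, hr⟩ := exists_coeffs (ℓ := ℓ) hd m a hJ hcount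
  set R := extR r with hR
  set P : (ZMod p)[X] := ∑ j ∈ range J, (∑ i : Fin 3, R i j * f ^ (ℓ + i.val * m)) *
      X ^ (j * p) with hP
  have hPf : P = f ^ ℓ * ∑ j ∈ range J, (∑ i : Fin 3, R i j * f ^ (i.val * m)) * X ^ (j * p) := by
    rw [hP, Finset.mul_sum]
    apply Finset.sum_congr rfl
    intro j _
    rw [← mul_assoc]
    congr 1
    rw [Finset.mul_sum]
    apply Finset.sum_congr rfl
    intro i _
    rw [pow_add]; ring
  have hf : f ≠ 0 := by rintro rfl; simp at hf0
  have hP0 : P ≠ 0 := by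
    rw [hPf]
    apply mul_ne_zero (pow_ne_zero _ hf)
    intro h0
    have h1 := aux_ne_zero hd hf0 hα hm hD R (extR_natDegree r) h0
    apply hr0
    funext j i
    have h2 := h1 j j.2 i
    rw [hR, extR, dif_pos j.2] at h2
    exact Subtype.ext h2
  -- multiplicity at the points
  have hmult : ∀ x ∈ univ.filter (fun x : ZMod p => f.eval x ^ m = a),
      ℓ ≤ P.rootMultiplicity x := by
    intro x hx
    rw [Finset.mem_filter] at hx
    rcases Nat.eq_zero_or_pos ℓ with h0 | hpos
    · omega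
    have h1 : ℓ - 1 < P.rootMultiplicity x := by
      apply lt_rootMultiplicity_of_isRoot_iterate_derivative_of_mem_nonZeroDivisors' hP0
      · intro k hk
        rw [IsRoot, hP, eval_deriv_aux R (by omega) hx.2]
        have h2 := hr k (by omega)
        rw [SS_apply] at h2
        rw [h2, eval_zero, mul_zero]
      · intro k hk hk0
        rw [mem_nonZeroDivisors_iff_ne_zero, Ne, ZMod.natCast_eq_zero_iff]
        intro hdvd
        have := Nat.le_of_dvd (Nat.pos_of_ne_zero hk0) hdvd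
        omega
    omega
  have hdeg : P.natDegree ≤ D + (ℓ + 2 * m) * d + (J - 1) * p := by
    rw [hP]
    apply natDegree_sum_le_of_forall_le
    intro j hj
    rw [Finset.mem_range] at hj
    refine natDegree_mul_le.trans (add_le_add ?_ ?_)
    · apply natDegree_sum_le_of_forall_le
      intro i _
      refine natDegree_mul_le.trans (add_le_add (extR_natDegree r i j) ?_)
      refine natDegree_pow_le.trans ?_
      have hi : i.val ≤ 2 := by omega
      exact Nat.mul_le_mul (Nat.add_le_add_left (Nat.mul_le_mul_right _ hi) _) hd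
    · rw [natDegree_X_pow]
      exact Nat.mul_le_mul_right _ (by omega)
  calc ℓ * (univ.filter fun x : ZMod p => f.eval x ^ m = a).card
      = ∑ x ∈ univ.filter (fun x : ZMod p => f.eval x ^ m = a), ℓ := by
        rw [Finset.sum_const, smul_eq_mul, mul_comm]
    _ ≤ ∑ x ∈ univ.filter (fun x : ZMod p => f.eval x ^ m = a), P.rootMultiplicity x :=
        Finset.sum_le_sum hmult
    _ = ∑ x ∈ univ.filter (fun x : ZMod p => f.eval x ^ m = a), P.roots.count x := by
        apply Finset.sum_congr rfl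
        intro x _
        rw [count_roots]
    _ ≤ ∑ x : ZMod p, P.roots.count x :=
        Finset.sum_le_sum_of_subset (Finset.filter_subset _ _)
    _ = Multiset.card P.roots := Multiset.sum_count_eq_card (fun x _ => Finset.mem_univ x)
    _ ≤ P.natDegree := card_roots' P
    _ ≤ D + (ℓ + 2 * m) * d + (J - 1) * p := hdeg

end count

end Pool.Agent.Work.LV
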