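import Pool.Agent.Work.LV.MLoc

/-!
# Block M, part 3: counting
-/

set_option autoImplicit false

namespace Pool.Agent.Work.LV.M

open Finset Pool.Agent.Work.LV

/-- Functions all of whose values are taken at least twice. -/
lemma card_twice {I : Type} [Fintype I] [DecidableEq I] (r B : ℕ) (hI : Fintype.card I = 2 * r)
    (hr : 1 ≤ r) (P : (I → ℕ) → Prop) [DecidablePred P]
    (hP : ∀ h, P h → ∀ i, ∃ j, j ≠ i ∧ h j = h i) :
    ((Fintype.piFinset fun _ : I => Icc 1 B).filter P).card ≤ (2 * r) ^ (2 * r) * B ^ r := by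
  classical
  rcases Nat.eq_zero_or_pos B with rfl | hB
  · have : Nonempty I := Fintype.card_pos_iff.1 (by omega)
    obtain ⟨i⟩ := this
    have h0 : (Fintype.piFinset fun _ : I => Icc 1 0) = ∅ := by
      rw [eq_empty_iff_forall_notMem]
      intro h hh
      rw [Fintype.mem_piFinset] at hh
      simpa using hh i
    rw [h0]
    simp
  have hsub : (Fintype.piFinset fun _ : I => Icc 1 B).filter P ⊆
      (univ.filter fun f : I → I => (univ.image f).card ≤ r).biUnion fun f =>
        (Fintype.piFinset fun _ : I => Icc 1 B).filter fun h => ∀ i, h i = h (f i) := by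
    intro h hh
    rw [mem_filter] at hh
    obtain ⟨hh1, hh2⟩ := hh
    have hcard : 2 * (univ.image h).card ≤ Fintype.card I := by
      rw [← card_univ, card_eq_sum_card_image h univ, mul_comm, ← smul_eq_mul]
      apply card_nsmul_le_sum
      intro v hv
      obtain ⟨i, -, rfl⟩ := mem_image.1 hv
      obtain ⟨j, hji, hj⟩ := hP h hh2 i
      have : ({i, j} : Finset I) ⊆ univ.filter fun x => h x = h i := by
        intro x hx
        rw [mem_insert, mem_singleton] at hx
        rcases hx with rfl | rfl
        · simp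
        · simp [hj]
      have h2 := card_le_card this
      rwa [card_pair hji.symm] at h2
    have hg : ∀ v : univ.image h, ∃ i, h i = v := by
      rintro ⟨v, hv⟩
      obtain ⟨i, -, hi⟩ := mem_image.1 hv
      exact ⟨i, hi⟩
    choose g hg using hg
    let f : I → I := fun i => g ⟨h i, mem_image_of_mem h (mem_univ i)⟩
    rw [mem_biUnion]
    refine ⟨f, ?_, ?_⟩
    · rw [mem_filter]
      refine ⟨mem_univ _, ?_⟩
      have h1 : univ.image f ⊆ univ.image g := by
        intro x hx
        obtain ⟨i, -, rfl⟩ := mem_image.1 hx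
        exact mem_image_of_mem g (mem_univ _)
      have h2 := (card_le_card h1).trans card_image_le
      rw [card_univ, Fintype.card_coe] at h2
      omega
    · rw [mem_filter]
      refine ⟨hh1, fun i => ?_⟩
      exact (hg ⟨h i, mem_image_of_mem h (mem_univ i)⟩).symm
  refine (card_le_card hsub).trans ?_
  refine card_biUnion_le.trans ?_
  have hfib : ∀ f ∈ (univ.filter fun f : I → I => (univ.image f).card ≤ r),
      ((Fintype.piFinset fun _ : I => Icc 1 B).filter fun h => ∀ i, h i = h (f i)).card ≤ B ^ r := by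
    intro f hf
    rw [mem_filter] at hf
    have h1 : ((Fintype.piFinset fun _ : I => Icc 1 B).filter fun h => ∀ i, h i = h (f i)).card ≤
        (Fintype.piFinset fun _ : (univ.image f : Finset I) => Icc 1 B).card := by
      apply card_le_card_of_injOn (fun (h : I → ℕ) (i : (univ.image f : Finset I)) => h i)
      · intro h hh
        rw [mem_coe, mem_filter, Fintype.mem_piFinset] at hh
        rw [mem_coe, Fintype.mem_piFinset]
        intro i
        exact hh.1 i
      · intro h hh h' hh' heq
        rw [mem_coe, mem_filter] at hh hh'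
        ext i
        rw [hh.2 i, hh'.2 i]
        exact congrFun heq ⟨f i, mem_image_of_mem f (mem_univ i)⟩
    refine h1.trans ?_
    rw [Fintype.card_piFinset, prod_const, Nat.card_Icc, card_univ, Fintype.card_coe]
    exact Nat.pow_le_pow_right (by omega) hf.2
  refine (sum_le_card_nsmul _ _ _ hfib).trans ?_
  rw [smul_eq_mul]
  apply Nat.mul_le_mul_right
  refine (card_filter_le _ _).trans ?_
  rw [card_univ, Fintype.card_fun, hI]

/-- Residue class without one element. -/
lemma card_class (B d v : ℕ) (hd : 0 < d) (hv : v ∈ Icc 1 B) :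
    (((Icc 1 B).filter fun m : ℕ => (d : ℤ) ∣ (m : ℤ) - v ∧ (d ≠ 1 → m ≠ v)).card : ℝ) ≤ B / d := by
  have hd0 : (0 : ℝ) < d := by exact_mod_cast hd
  rw [le_div_iff₀ hd0]
  rcases Nat.eq_or_lt_of_le (Nat.one_le_iff_ne_zero.2 hd.ne') with h1 | h1
  · rw [← h1]
    push_cast
    rw [mul_one]
    have := card_filter_le (Icc 1 B) fun m : ℕ => ((1 : ℕ) : ℤ) ∣ (m : ℤ) - v ∧ ((1 : ℕ) ≠ 1 → m ≠ v)
    rw [Nat.card_Icc, Nat.add_sub_cancel] at this
    exact_mod_cast this
  · set T := (Icc 1 B).filter fun m : ℕ => (d : ℤ) ∣ (m : ℤ) - v ∧ (d ≠ 1 → m ≠ v) with hT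
    have hvT : v ∉ T := by
      rw [hT, mem_filter]
      rintro ⟨-, -, h⟩
      exact h (by omega) rfl
    have h2 : (insert v T).card ≤ ((Ioc (0 : ℤ) B).filter fun x => x ≡ v [ZMOD d]).card := by
      apply card_le_card_of_injOn (fun m : ℕ => (m : ℤ))
      · intro m hm
        rw [mem_coe, mem_insert] at hm
        rw [mem_coe, mem_filter, mem_Ioc]
        beta_reduce
        rcases hm with rfl | hm
        · rw [mem_Icc] at hv
          exact ⟨⟨by omega, by omega⟩, Int.ModEq.refl _⟩
        · rw [hT, mem_filter, mem_Icc] at hm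
          refine ⟨⟨by omega, by omega⟩, ?_⟩
          exact (Int.modEq_iff_dvd.2 (by
            have := hm.2.1
            rwa [← dvd_neg, neg_sub] at this ⊢)).symm
      · intro a _ b _ hab
        beta_reduce at hab
        exact_mod_cast hab
    rw [card_insert_of_notMem hvT] at h2
    have h3 := Int.Ioc_filter_modEq_card 0 (B : ℤ) (r := (d : ℤ)) (by exact_mod_cast hd) v
    have hdq : (0 : ℚ) < d := by exact_mod_cast hd
    have h4 : (((Ioc (0 : ℤ) B).filter fun x => x ≡ v [ZMOD d]).card : ℤ) < (B : ℚ) / d + 1 := by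
      rw [h3]
      push_cast
      apply max_lt
      · have h5 := Int.floor_le (((B : ℚ) - v) / d)
        have h6 := Int.lt_floor_add_one (((0 : ℚ) - v) / d)
        push_cast at *
        have h7 : ((B : ℚ) - v) / d - (0 - v) / d = B / d := by ring
        linarith
      · positivity
    have h5 : ((T.card : ℚ) + 1) < B / d + 1 := by
      refine lt_of_le_of_lt ?_ h4
      exact_mod_cast h2
    have h6 : (T.card : ℚ) < B / d := by linarith
    rw [lt_div_iff₀ hdq] at h6
    have h7 : T.card * d < B := by exact_mod_cast h6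
    exact_mod_cast h7.le

/-- The number of `h` for which all the primes of `S` are bad. -/
lemma card_bad {I : Type} [Fintype I] [DecidableEq I] (i₀ : I) (B : ℕ) (S : Finset ℕ)
    (hS : ∀ p ∈ S, p.Prime) (P : (I → ℕ) → Prop) [DecidablePred P]
    (hP : ∀ h, P h → ∀ p ∈ S, Bad h i₀ p) :
    (((Fintype.piFinset fun _ : I => Icc 1 B).filter P).card : ℝ) ≤
      (Fintype.card I : ℝ) ^ S.card * (B : ℝ) ^ Fintype.card I / (∏ p ∈ S, p : ℕ) := by
  classical
  set U : (S → I) → Finset (I → ℕ) := fun φ =>
    (Fintype.piFinset fun _ : I => Icc 1 B).filter fun h =>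
      ∀ p : S, h (φ p) ≠ h i₀ ∧ ((p : ℕ) : ℤ) ∣ (h (φ p) : ℤ) - h i₀ with hU
  have hsub : (Fintype.piFinset fun _ : I => Icc 1 B).filter P ⊆ univ.biUnion U := by
    intro h hh
    rw [mem_filter] at hh
    have h1 : ∀ p : S, ∃ j, h j ≠ h i₀ ∧ ((p : ℕ) : ℤ) ∣ (h j : ℤ) - h i₀ :=
      fun p => hP h hh.2 p p.2
    choose φ hφ using h1
    rw [mem_biUnion]
    exact ⟨φ, mem_univ _, mem_filter.2 ⟨hh.1, hφ⟩⟩
  have hprod : (0 : ℝ) < (∏ p ∈ S, p : ℕ) := by
    exact_mod_cast prod_pos fun p hp => (hS p hp).pos
  have hUcard : ∀ φ : S → I, ((U φ).card : ℝ) ≤ (B : ℝ) ^ Fintype.card I / (∏ p ∈ S, p : ℕ) := by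
    intro φ
    by_cases hφ : ∃ p, φ p = i₀
    · obtain ⟨p, hp⟩ := hφ
      have : U φ = ∅ := by
        rw [eq_empty_iff_forall_notMem]
        intro h hh
        rw [hU, mem_filter] at hh
        exact (hh.2 p).1 (by rw [hp])
      rw [this, card_empty, Nat.cast_zero]
      positivity
    · push Not at hφ
      set d : I → ℕ := fun j => ∏ p ∈ univ.filter (fun p : S => φ p = j), (p : ℕ) with hd
      have hdpos : ∀ j, 0 < d j := fun j => prod_pos fun p _ => (hS p p.2).pos
      have hdi₀ : d i₀ = 1 := by
        rw [hd]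
        simp only
        rw [filter_false_of_mem fun p _ => hφ p, prod_empty]
      have hdprod : ∏ j, d j = ∏ p ∈ S, p := by
        rw [hd, prod_fiberwise, ← prod_coe_sort S (fun p => p)]
      have hUsub : U φ ⊆ (Icc 1 B).biUnion fun v => Fintype.piFinset fun j =>
          if j = i₀ then {v} else
            (Icc 1 B).filter fun m : ℕ => (d j : ℤ) ∣ (m : ℤ) - v ∧ (d j ≠ 1 → m ≠ v) := by
        intro h hh
        rw [hU, mem_filter, Fintype.mem_piFinset] at hh
        rw [mem_biUnion]
        refine ⟨h i₀, hh.1 i₀, ?_⟩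
        rw [Fintype.mem_piFinset]
        intro j
        split_ifs with hj
        · rw [hj, mem_singleton]
        · rw [mem_filter]
          refine ⟨hh.1 j, ?_, ?_⟩
          · rw [hd]
            push_cast
            apply Finset.prod_dvd_of_coprime
            · intro p hp p' hp' hne
              rw [Function.onFun, Nat.isCoprime_iff_coprime]
              rw [Nat.coprime_primes (hS p p.2) (hS p' p'.2)]
              exact fun h => hne (Subtype.ext h)
            · intro p hp
              rw [mem_filter] at hp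
              rw [← hp.2]
              exact (hh.2 p).2
          · intro hdj heq
            apply hdj
            rw [hd]
            simp only
            rw [filter_false_of_mem, prod_empty]
            intro p _ hp
            exact (hh.2 p).1 (by rw [hp]; exact heq)
      have h1 : ((U φ).card : ℝ) ≤ ∑ v ∈ Icc 1 B, ∏ j, (if j = i₀ then (1 : ℝ) else B / d j) := by
        have h2 : (U φ).card ≤ _ := (card_le_card hUsub).trans card_biUnion_le
        refine (Nat.cast_le.2 h2).trans ?_
        rw [Nat.cast_sum]
        apply sum_le_sum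
        intro v hv
        rw [Fintype.card_piFinset, Nat.cast_prod]
        apply prod_le_prod
        · intro j _; positivity
        · intro j _
          split_ifs with hj
          · simp
          · exact card_class B (d j) v (hdpos j) hv
      refine h1.trans (le_of_eq ?_)
      rw [sum_const, Nat.card_Icc, Nat.add_sub_cancel, nsmul_eq_mul]
      have h3 : (B : ℝ) * ∏ j, (if j = i₀ then (1 : ℝ) else B / d j) = ∏ j, ((B : ℝ) / d j) := by
        rw [← mul_prod_erase univ (fun j => (B : ℝ) / d j) (mem_univ i₀),
          ← mul_prod_erase univ (fun j => if j = i₀ then (1 : ℝ) else B / d j) (mem_univ i₀)]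
        rw [hdi₀, if_pos rfl, one_mul, Nat.cast_one, div_one]
        congr 1
        apply prod_congr rfl
        intro j hj
        rw [if_neg (mem_erase.1 hj).1]
      rw [h3, prod_div_distrib, prod_const, card_univ, ← Nat.cast_prod, hdprod]
  have h1 : (((Fintype.piFinset fun _ : I => Icc 1 B).filter P).card : ℝ) ≤
      ∑ φ : S → I, ((U φ).card : ℝ) := by
    have := (card_le_card hsub).trans card_biUnion_le
    exact_mod_cast this
  refine h1.trans ((sum_le_sum fun φ _ => hUcard φ).trans (le_of_eq ?_))
  rw [sum_const, card_univ, Fintype.card_fun, Fintype.card_coe, nsmul_eq_mul]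
  push_cast
  ring

end Pool.Agent.Work.LV.M
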