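import Pool.Agent.Work.LV.Interface

/-!
# Block M, part 1: local structure of primitive cubic characters, CRT, product bound
-/

set_option autoImplicit false

namespace Pool.Agent.Work.LV.M

open Finset Polynomial Pool.Agent.Work.LV

/-- `χ` does not factor through `q / p`, for every prime `p ∣ q`. -/
def LocPrim {q : ℕ} (χ : DirichletCharacter ℂ q) : Prop :=
  ∀ p : ℕ, p.Prime → ∀ h : p ∣ q, ∃ u : (ZMod q)ˣ,
    (ZMod.castHom (Nat.div_dvd_of_dvd h) (ZMod (q / p)) (u : ZMod q)) = 1 ∧ χ (u : ZMod q) ≠ 1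

lemma locPrim_of_isPrimitive {q : ℕ} [NeZero q] (χ : DirichletCharacter ℂ q) (hχ : χ.IsPrimitive) :
    LocPrim χ := by
  intro p hp h
  by_contra hcon
  push Not at hcon
  have hf : χ.FactorsThrough (q / p) := by
    rw [DirichletCharacter.factorsThrough_iff_ker_unitsMap (Nat.div_dvd_of_dvd h)]
    intro u hu
    rw [MonoidHom.mem_ker] at hu ⊢
    have h1 : (ZMod.castHom (Nat.div_dvd_of_dvd h) (ZMod (q / p)) (u : ZMod q)) = 1 := by
      have := congrArg Units.val hu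
      rw [ZMod.unitsMap_def] at this
      simpa using this
    have h2 := hcon u h1
    ext
    simpa using h2
  have h1 := (DirichletCharacter.mem_conductorSet_iff χ).2 hf
  have h2 := DirichletCharacter.conductor_dvd_of_mem_conductorSet χ h1
  rw [DirichletCharacter.isPrimitive_def] at hχ
  rw [hχ] at h2
  have h3 : q / p < q := Nat.div_lt_self (Nat.pos_of_ne_zero (NeZero.ne q)) hp.one_lt
  have h4 : 0 < q / p := Nat.div_pos (Nat.le_of_dvd (Nat.pos_of_ne_zero (NeZero.ne q)) h) hp.pos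
  have h5 := Nat.le_of_dvd h4 h2
  omega

/-- The product `∏ (x + h i) ^ e i`. -/
def RR {I : Type} [Fintype I] (e h : I → ℕ) {R : Type} [CommRing R] (x : R) : R :=
  ∏ i, (x + (h i : R)) ^ e i

lemma map_RR {I : Type} [Fintype I] (e h : I → ℕ) {R S : Type} [CommRing R] [CommRing S]
    (f : R →+* S) (x : R) : f (RR e h x) = RR e h (f x) := by
  simp [RR, map_prod]

/-- Left component of a character modulo `a * b`. -/
noncomputable def chiL {a b : ℕ} (hab : a.Coprime b) (χ : DirichletCharacter ℂ (a * b)) :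
    DirichletCharacter ℂ a where
  toFun u := χ ((ZMod.chineseRemainder hab).symm (u, 1))
  map_one' := by
    have : ((1 : ZMod a), (1 : ZMod b)) = 1 := rfl
    simp [this]
  map_mul' u v := by
    rw [← map_mul, ← map_mul, Prod.mk_mul_mk, mul_one]
  map_nonunit' u hu := by
    apply χ.map_nonunit
    rw [MulEquiv.isUnit_map, Prod.isUnit_iff]
    exact fun h => hu h.1

/-- Right component of a character modulo `a * b`. -/
noncomputable def chiR {a b : ℕ} (hab : a.Coprime b) (χ : DirichletCharacter ℂ (a * b)) :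
    DirichletCharacter ℂ b where
  toFun u := χ ((ZMod.chineseRemainder hab).symm (1, u))
  map_one' := by
    have : ((1 : ZMod a), (1 : ZMod b)) = 1 := rfl
    simp [this]
  map_mul' u v := by
    rw [← map_mul, ← map_mul, Prod.mk_mul_mk, mul_one]
  map_nonunit' u hu := by
    apply χ.map_nonunit
    rw [MulEquiv.isUnit_map, Prod.isUnit_iff]
    exact fun h => hu h.2

lemma chiL_mul_chiR {a b : ℕ} (hab : a.Coprime b) (χ : DirichletCharacter ℂ (a * b))
    (u : ZMod a) (v : ZMod b) :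
    chiL hab χ u * chiR hab χ v = χ ((ZMod.chineseRemainder hab).symm (u, v)) := by
  change χ _ * χ _ = _
  rw [← map_mul, ← map_mul, Prod.mk_mul_mk, mul_one, one_mul]

lemma chiL_pow {a b : ℕ} (hab : a.Coprime b) (χ : DirichletCharacter ℂ (a * b)) (h : χ ^ 3 = 1) :
    chiL hab χ ^ 3 = 1 := by
  ext u
  have h1 := congrArg (fun f : DirichletCharacter ℂ (a * b) =>
    f ((ZMod.chineseRemainder hab).symm ((u : ZMod a), 1))) h
  have h2 : IsUnit ((ZMod.chineseRemainder hab).symm ((u : ZMod a), (1 : ZMod b))) := by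
    rw [MulEquiv.isUnit_map, Prod.isUnit_iff]
    exact ⟨u.isUnit, isUnit_one⟩
  rw [MulChar.pow_apply_coe, MulChar.one_apply_coe]
  rw [MulChar.one_apply h2, MulChar.pow_apply' _ (by norm_num)] at h1
  exact h1

lemma chiR_pow {a b : ℕ} (hab : a.Coprime b) (χ : DirichletCharacter ℂ (a * b)) (h : χ ^ 3 = 1) :
    chiR hab χ ^ 3 = 1 := by
  ext u
  have h1 := congrArg (fun f : DirichletCharacter ℂ (a * b) =>
    f ((ZMod.chineseRemainder hab).symm (1, (u : ZMod b)))) h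
  have h2 : IsUnit ((ZMod.chineseRemainder hab).symm ((1 : ZMod a), (u : ZMod b))) := by
    rw [MulEquiv.isUnit_map, Prod.isUnit_iff]
    exact ⟨isUnit_one, u.isUnit⟩
  rw [MulChar.pow_apply_coe, MulChar.one_apply_coe]
  rw [MulChar.one_apply h2, MulChar.pow_apply' _ (by norm_num)] at h1
  exact h1

lemma sum_RR_mul {I : Type} [Fintype I] (e h : I → ℕ) {a b : ℕ} [NeZero a] [NeZero b]
    [NeZero (a * b)] (hab : a.Coprime b) (χ : DirichletCharacter ℂ (a * b)) :
    ∑ x : ZMod (a * b), χ (RR e h x)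
      = (∑ x : ZMod a, chiL hab χ (RR e h x)) * ∑ x : ZMod b, chiR hab χ (RR e h x) := by
  rw [Fintype.sum_mul_sum, ← Fintype.sum_prod_type']
  apply Fintype.sum_equiv (ZMod.chineseRemainder hab).toEquiv
  intro x
  rw [chiL_mul_chiR]
  congr 1
  set f := ZMod.chineseRemainder hab
  have h1 : (RR e h (f x).1, RR e h (f x).2) = f (RR e h x) := by
    have h2 := map_RR e h (f : ZMod (a * b) →+* ZMod a × ZMod b) x
    have h3 := map_RR e h (RingHom.fst (ZMod a) (ZMod b)) (f x)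
    have h4 := map_RR e h (RingHom.snd (ZMod a) (ZMod b)) (f x)
    simp only [RingHom.coe_fst, RingHom.coe_snd] at h3 h4
    rw [← h3, ← h4]
    exact h2.symm
  change _ = f.symm (RR e h (f x).1, RR e h (f x).2)
  rw [h1, RingEquiv.symm_apply_apply]

lemma locPrim_chiL {a b : ℕ} [NeZero a] [NeZero b] (hab : a.Coprime b)
    (χ : DirichletCharacter ℂ (a * b)) (h : LocPrim χ) : LocPrim (chiL hab χ) := by
  intro p hp hpa
  obtain ⟨u, hu1, hu2⟩ := h p hp (hpa.mul_right b)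
  set f := ZMod.chineseRemainder hab with hf
  have hpos : 0 < p := hp.pos
  have hdiv : a * b / p = a / p * b := by
    rw [mul_comm, Nat.mul_div_assoc _ hpa, mul_comm]
  have hb : b ∣ a * b / p := by rw [hdiv]; exact Dvd.intro_left _ rfl
  have ha : a / p ∣ a * b / p := by rw [hdiv]; exact Dvd.intro _ rfl
  have h2 : (f (u : ZMod (a * b))).2 = 1 := by
    have h3 : (RingHom.snd (ZMod a) (ZMod b)).comp (f : ZMod (a * b) →+* ZMod a × ZMod b)
        = (ZMod.castHom hb (ZMod b)).comp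
          (ZMod.castHom (Nat.div_dvd_of_dvd (hpa.mul_right b)) (ZMod (a * b / p))) :=
      Subsingleton.elim _ _
    have h4 := congrArg (fun g : ZMod (a * b) →+* ZMod b => g (u : ZMod (a * b))) h3
    simp only [RingHom.comp_apply, hu1, map_one] at h4
    exact h4
  have h1 : ZMod.castHom (Nat.div_dvd_of_dvd hpa) (ZMod (a / p)) (f (u : ZMod (a * b))).1 = 1 := by
    have h3 : ((ZMod.castHom (Nat.div_dvd_of_dvd hpa) (ZMod (a / p))).comp
        (RingHom.fst (ZMod a) (ZMod b))).comp (f : ZMod (a * b) →+* ZMod a × ZMod b)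
        = (ZMod.castHom ha (ZMod (a / p))).comp
          (ZMod.castHom (Nat.div_dvd_of_dvd (hpa.mul_right b)) (ZMod (a * b / p))) :=
      Subsingleton.elim _ _
    have h4 := congrArg (fun g : ZMod (a * b) →+* ZMod (a / p) => g (u : ZMod (a * b))) h3
    simp only [RingHom.comp_apply, hu1, map_one] at h4
    exact h4
  have hunit : IsUnit (f (u : ZMod (a * b))).1 :=
    (Prod.isUnit_iff.1 ((MulEquiv.isUnit_map f).2 u.isUnit)).1
  refine ⟨hunit.unit, h1, ?_⟩
  have h5 := chiL_mul_chiR hab χ (f (u : ZMod (a * b))).1 (f (u : ZMod (a * b))).2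
  rw [h2, map_one, mul_one, ← h2] at h5
  change chiL hab χ (f (u : ZMod (a * b))).1 ≠ 1
  rw [h5]
  change χ (f.symm (f (u : ZMod (a * b)))) ≠ 1
  rw [RingEquiv.symm_apply_apply]
  exact hu2

lemma locPrim_chiR {a b : ℕ} [NeZero a] [NeZero b] (hab : a.Coprime b)
    (χ : DirichletCharacter ℂ (a * b)) (h : LocPrim χ) : LocPrim (chiR hab χ) := by
  intro p hp hpb
  obtain ⟨u, hu1, hu2⟩ := h p hp (hpb.mul_left a)
  set f := ZMod.chineseRemainder hab with hf
  have hpos : 0 < p := hp.pos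
  have hdiv : a * b / p = a * (b / p) := Nat.mul_div_assoc _ hpb
  have ha : a ∣ a * b / p := by rw [hdiv]; exact Dvd.intro _ rfl
  have hb : b / p ∣ a * b / p := by rw [hdiv]; exact Dvd.intro_left _ rfl
  have h2 : (f (u : ZMod (a * b))).1 = 1 := by
    have h3 : (RingHom.fst (ZMod a) (ZMod b)).comp (f : ZMod (a * b) →+* ZMod a × ZMod b)
        = (ZMod.castHom ha (ZMod a)).comp
          (ZMod.castHom (Nat.div_dvd_of_dvd (hpb.mul_left a)) (ZMod (a * b / p))) :=
      Subsingleton.elim _ _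
    have h4 := congrArg (fun g : ZMod (a * b) →+* ZMod a => g (u : ZMod (a * b))) h3
    simp only [RingHom.comp_apply, hu1, map_one] at h4
    exact h4
  have h1 : ZMod.castHom (Nat.div_dvd_of_dvd hpb) (ZMod (b / p)) (f (u : ZMod (a * b))).2 = 1 := by
    have h3 : ((ZMod.castHom (Nat.div_dvd_of_dvd hpb) (ZMod (b / p))).comp
        (RingHom.snd (ZMod a) (ZMod b))).comp (f : ZMod (a * b) →+* ZMod a × ZMod b)
        = (ZMod.castHom hb (ZMod (b / p))).comp
          (ZMod.castHom (Nat.div_dvd_of_dvd (hpb.mul_left a)) (ZMod (a * b / p))) :=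
      Subsingleton.elim _ _
    have h4 := congrArg (fun g : ZMod (a * b) →+* ZMod (b / p) => g (u : ZMod (a * b))) h3
    simp only [RingHom.comp_apply, hu1, map_one] at h4
    exact h4
  have hunit : IsUnit (f (u : ZMod (a * b))).2 :=
    (Prod.isUnit_iff.1 ((MulEquiv.isUnit_map f).2 u.isUnit)).2
  refine ⟨hunit.unit, h1, ?_⟩
  have h5 := chiL_mul_chiR hab χ (f (u : ZMod (a * b))).1 (f (u : ZMod (a * b))).2
  rw [h2, map_one, one_mul, ← h2] at h5
  change chiR hab χ (f (u : ZMod (a * b))).2 ≠ 1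
  rw [h5]
  change χ (f.symm (f (u : ZMod (a * b)))) ≠ 1
  rw [RingEquiv.symm_apply_apply]
  exact hu2

/-- A cubic character modulo `p ^ k`, `k ≥ 2`, `p ≠ 3`, factors through `p ^ (k - 1)`. -/
lemma not_locPrim_of_ne_three {p k : ℕ} (hp : p.Prime) (hp3 : p ≠ 3) (hk : 2 ≤ k)
    (χ : DirichletCharacter ℂ (p ^ k)) (h3 : χ ^ 3 = 1) : ¬ LocPrim χ := by
  intro h
  obtain ⟨u, hu1, hu2⟩ := h p hp (dvd_pow_self p (by omega))
  apply hu2
  have : NeZero (p ^ k) := ⟨pow_ne_zero _ hp.ne_zero⟩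
  have hdiv : p ^ k / p = p ^ (k - 1) := by
    obtain ⟨j, rfl⟩ : ∃ j, k = j + 1 := ⟨k - 1, by omega⟩
    rw [pow_succ, Nat.mul_div_cancel _ hp.pos]; rfl
  -- `u ≡ 1 mod p`
  obtain ⟨m, hm⟩ : ∃ m : ℤ, (m : ZMod (p ^ k)) = (u : ZMod (p ^ k)) := ZMod.intCast_surjective _
  have hmp : (p : ℤ) ∣ m - 1 := by
    have h1 : ((m : ℤ) : ZMod (p ^ k / p)) = 1 := by
      rw [← hu1, ← hm, map_intCast]
    have h2 : ((m - 1 : ℤ) : ZMod (p ^ k / p)) = 0 := by
      push_cast; rw [h1, sub_self]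
    rw [ZMod.intCast_zmod_eq_zero_iff_dvd, hdiv] at h2
    refine dvd_trans ?_ h2
    exact_mod_cast dvd_pow_self p (by omega : k - 1 ≠ 0)
  have h4 : (p : ℤ) ^ k ∣ m ^ p ^ (k - 1) - 1 := by
    have := dvd_sub_pow_of_dvd_sub hmp (k - 1)
    rw [one_pow] at this
    obtain ⟨j, rfl⟩ : ∃ j, k = j + 1 := ⟨k - 1, by omega⟩
    simpa using this
  have h5 : ((u : ZMod (p ^ k))) ^ p ^ (k - 1) = 1 := by
    have h6 : ((m ^ p ^ (k - 1) - 1 : ℤ) : ZMod (p ^ k)) = 0 := by
      rw [ZMod.intCast_zmod_eq_zero_iff_dvd]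
      exact_mod_cast h4
    push_cast at h6
    rw [← hm]
    exact sub_eq_zero.1 h6
  have h6 : χ (u : ZMod (p ^ k)) ^ p ^ (k - 1) = 1 := by
    rw [← map_pow, h5, map_one]
  have h7 : χ (u : ZMod (p ^ k)) ^ 3 = 1 := by
    have := congrArg (fun f : DirichletCharacter ℂ (p ^ k) => f (u : ZMod (p ^ k))) h3
    simpa [MulChar.pow_apply_coe] using this
  have h8 : orderOf (χ (u : ZMod (p ^ k))) ∣ 1 := by
    have hc : Nat.Coprime (p ^ (k - 1)) 3 := by
      apply Nat.Coprime.pow_left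
      exact (Nat.coprime_primes hp Nat.prime_three).2 hp3
    rw [← hc]
    exact Nat.dvd_gcd (orderOf_dvd_of_pow_eq_one h6) (orderOf_dvd_of_pow_eq_one h7)
  exact orderOf_eq_one_iff.1 (Nat.dvd_one.1 h8)

/-- A cubic character modulo `3 ^ k`, `k ≥ 3`, factors through `3 ^ (k - 1)`. -/
lemma not_locPrim_three {k : ℕ} (hk : 3 ≤ k)
    (χ : DirichletCharacter ℂ (3 ^ k)) (h3 : χ ^ 3 = 1) : ¬ LocPrim χ := by
  intro h
  obtain ⟨u, hu1, hu2⟩ := h 3 Nat.prime_three (dvd_pow_self 3 (by omega))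
  apply hu2
  have : NeZero (3 ^ k) := ⟨pow_ne_zero _ (by norm_num)⟩
  obtain ⟨m, hm⟩ : ∃ m : ℤ, (m : ZMod (3 ^ k)) = (u : ZMod (3 ^ k)) := ZMod.intCast_surjective _
  have hdiv : 3 ^ k / 3 = 3 ^ (k - 1) := by
    obtain ⟨j, rfl⟩ : ∃ j, k = j + 1 := ⟨k - 1, by omega⟩
    rw [pow_succ, Nat.mul_div_cancel _ (by norm_num)]; rfl
  have hmp : ((3 ^ (k - 1) : ℕ) : ℤ) ∣ m - 1 := by
    have h1 : ((m : ℤ) : ZMod (3 ^ k / 3)) = 1 := by
      rw [← hu1, ← hm, map_intCast]
    have h2 : ((m - 1 : ℤ) : ZMod (3 ^ k / 3)) = 0 := by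
      push_cast; rw [h1, sub_self]
    rw [ZMod.intCast_zmod_eq_zero_iff_dvd, hdiv] at h2
    exact h2
  obtain ⟨t, ht⟩ := hmp
  obtain ⟨j, rfl⟩ : ∃ j, k = j + 3 := ⟨k - 3, by omega⟩
  have e1 : j + 3 - 1 = j + 2 := by omega
  rw [e1] at ht
  have h5 : (u : ZMod (3 ^ (j + 3))) = ((1 + 3 ^ (j + 1) * t : ℤ) : ZMod (3 ^ (j + 3))) ^ 3 := by
    rw [← hm]
    have h6 : (((1 + 3 ^ (j + 1) * t) ^ 3 - m : ℤ) : ZMod (3 ^ (j + 3))) = 0 := by
      rw [ZMod.intCast_zmod_eq_zero_iff_dvd]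
      have : m = 1 + 3 ^ (j + 2) * t := by push_cast at ht; linarith
      rw [this]
      refine ⟨3 ^ j * t ^ 2 + 3 ^ (2 * j) * t ^ 3, ?_⟩
      push_cast
      ring
    push_cast at h6 ⊢
    exact (sub_eq_zero.1 h6).symm
  have h6 : IsUnit ((1 + 3 ^ (j + 1) * t : ℤ) : ZMod (3 ^ (j + 3))) := by
    have := u.isUnit
    rw [h5] at this
    exact (isUnit_pow_iff (by norm_num)).1 this
  rw [h5, map_pow, ← MulChar.pow_apply' _ (by norm_num), h3]
  exact MulChar.one_apply h6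

end Pool.Agent.Work.LV.M
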