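import Pool.Agent.Work.LV.A2
import Pool.Agent.Work.MP_081200_nt.Imprim

/-!
# Assembly, part 3: the large value theorem for primitive characters and a fixed length
-/

namespace Pool.Agent.Work.LV

open Finset

theorem norm_shortSum_le {q : ℕ} (χ : DirichletCharacter ℂ q) (M : ℤ) (N : ℕ) :
    ‖shortSum χ M N‖ ≤ N := by
  rw [shortSum_eq]
  refine (norm_sum_le _ _).trans ?_
  calc ∑ n ∈ Icc 1 N, ‖χ ((M : ZMod q) + (n : ZMod q))‖ ≤ ∑ _n ∈ Icc 1 N, (1 : ℝ) :=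
        Finset.sum_le_sum fun n _ => DirichletCharacter.norm_le_one χ _
    _ = N := by simp

/-- The inequality between the number of large values and the energy and the moment. -/
theorem core (r : ℕ) (hr : 1 ≤ r) (η CM CE : ℝ) (hη : 0 ≤ η) (hCM : 0 ≤ CM) (hCE : 0 ≤ CE)
    (q N Y B : ℕ) [NeZero q] (χ : DirichletCharacter ℂ q) (𝓜 : Finset ℤ) (V : ℝ) (hV0 : 0 ≤ V)
    (X D : ℝ) (hX : X = (PP q Y).card * 𝓜.card * N) (hX0 : 0 < X) (hD : 0 ≤ D)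
    (hM : ∑ x : ZMod q, TT χ B x ^ (2 * r) ≤
      CM * ((B : ℝ) ^ r * q + (B : ℝ) ^ (2 * r) * (q : ℝ) ^ (1 / 2 + η)))
    (hE : ∑ x : ZMod q, (vv q (PP q Y) 𝓜 N x : ℝ) ^ 2 ≤ CE * (D * X + X ^ 2 / q))
    (hB : (q : ℝ) ^ (1 / 2 : ℝ) ≤ (B : ℝ) ^ r) (hYB : 2 * (Y : ℝ) * B ≤ V / 2) (hN : 1 ≤ N)
    (hV : ∀ M ∈ 𝓜, V ≤ ‖shortSum χ M N‖) :
    X ^ 2 * (V / (2 * N)) ^ (2 * r) ≤
      2 * CE * CM * (D * X + X ^ 2 / q) * (q : ℝ) ^ (1 / 2 + η) := by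
  have hq1 : (1 : ℝ) ≤ q := by exact_mod_cast Nat.pos_of_ne_zero (NeZero.ne q)
  have hq0 : (0 : ℝ) < q := by linarith
  have hN0 : (0 : ℝ) < N := by exact_mod_cast hN
  have hBr : (1 : ℝ) ≤ (B : ℝ) ^ r := le_trans (Real.one_le_rpow hq1 (by norm_num)) hB
  have hB0 : (0 : ℝ) < B := by
    rcases Nat.eq_zero_or_pos B with h | h
    · rw [h] at hBr
      simp only [Nat.cast_zero] at hBr
      rw [zero_pow (by omega)] at hBr
      linarith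
    · exact_mod_cast h
  have hcop : ∀ a ∈ PP q Y, a.Coprime q := fun a ha => (PP_mem ha).2.2
  have h1 := main_ineq χ (PP q Y) 𝓜 N B Y V hcop (fun a ha => (PP_mem ha).2.1) hV
  have h2 := holder Finset.univ (fun x : ZMod q => (vv q (PP q Y) 𝓜 N x : ℝ))
    (fun x => TT χ B x) (fun _ => Nat.cast_nonneg _) (fun _ => norm_nonneg _) r hr
  rw [sum_vv_one (PP q Y) 𝓜 N hcop, ← hX] at h2
  have h3 : X * (B * (V / (2 * N))) ≤ ∑ x : ZMod q, (vv q (PP q Y) 𝓜 N x : ℝ) * TT χ B x := by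
    refine le_trans ?_ h1
    have e : X * (B * (V / (2 * N))) = ((PP q Y).card : ℝ) * 𝓜.card * (B * (V / 2)) := by
      rw [hX]
      field_simp
    rw [e]
    have : V / 2 ≤ V - 2 * Y * B := by linarith
    gcongr
  have h0 : 0 ≤ X * (B * (V / (2 * N))) := by positivity
  have h4 : (X * (B * (V / (2 * N)))) ^ (2 * r) ≤
      X ^ (2 * r - 2) * (CE * (D * X + X ^ 2 / q)) *
        (CM * (2 * ((B : ℝ) ^ (2 * r) * (q : ℝ) ^ (1 / 2 + η)))) := by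
    refine (pow_le_pow_left₀ h0 h3 _).trans (h2.trans ?_)
    have hm : (B : ℝ) ^ r * q ≤ (B : ℝ) ^ (2 * r) * (q : ℝ) ^ (1 / 2 + η) := by
      have e1 : (q : ℝ) = (q : ℝ) ^ (1 / 2 : ℝ) * (q : ℝ) ^ (1 / 2 : ℝ) := by
        rw [← Real.rpow_add hq0]; norm_num
      have e2 : (B : ℝ) ^ (2 * r) = (B : ℝ) ^ r * (B : ℝ) ^ r := by
        rw [← pow_add]; congr 1; ring
      have e3 : (q : ℝ) ^ (1 / 2 : ℝ) ≤ (q : ℝ) ^ (1 / 2 + η) :=
        Real.rpow_le_rpow_of_exponent_le hq1 (by linarith)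
      calc (B : ℝ) ^ r * q = (B : ℝ) ^ r * ((q : ℝ) ^ (1 / 2 : ℝ) * (q : ℝ) ^ (1 / 2 : ℝ)) := by
            rw [← e1]
        _ ≤ (B : ℝ) ^ r * ((B : ℝ) ^ r * (q : ℝ) ^ (1 / 2 + η)) := by gcongr
        _ = _ := by rw [e2]; ring
    have hm2 : ∑ x : ZMod q, TT χ B x ^ (2 * r) ≤
        CM * (2 * ((B : ℝ) ^ (2 * r) * (q : ℝ) ^ (1 / 2 + η))) := by
      refine hM.trans ?_
      gcongr
      linarith
    have hs : 0 ≤ ∑ x : ZMod q, TT χ B x ^ (2 * r) :=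
      Finset.sum_nonneg fun x _ => pow_nonneg (norm_nonneg _) _
    have hs2 : 0 ≤ CE * (D * X + X ^ 2 / q) := by positivity
    gcongr
  have e4 : (X * (B * (V / (2 * N)))) ^ (2 * r) =
      (X ^ (2 * r - 2) * (B : ℝ) ^ (2 * r)) * (X ^ 2 * (V / (2 * N)) ^ (2 * r)) := by
    rw [mul_pow, mul_pow]
    have : X ^ (2 * r) = X ^ (2 * r - 2) * X ^ 2 := by
      rw [← pow_add]; congr 1; omega
    rw [this]
    ring
  have e5 : X ^ (2 * r - 2) * (CE * (D * X + X ^ 2 / q)) *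
        (CM * (2 * ((B : ℝ) ^ (2 * r) * (q : ℝ) ^ (1 / 2 + η)))) =
      (X ^ (2 * r - 2) * (B : ℝ) ^ (2 * r)) *
        (2 * CE * CM * (D * X + X ^ 2 / q) * (q : ℝ) ^ (1 / 2 + η)) := by ring
  rw [e4, e5] at h4
  exact le_of_mul_le_mul_left h4 (by positivity)

/-- The number of available primes. -/
theorem P_lower (Q κ η : ℝ) (hQ1 : 1 ≤ Q) (hη0 : 0 < η) (hη1 : η ≤ 1) (hκ1 : κ ≤ 1)
    (hκη : 3 * η ≤ κ) (q Y : ℕ) (hq : q ≠ 0) (hY4 : 4 ≤ Y) (hY3 : Q ^ κ / 16 ≤ Y)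
    (q3 : 128 / η ≤ Q ^ η) (hD1 : (Nat.log 2 q : ℝ) ≤ Q ^ η) :
    Q ^ (κ - 2 * η) ≤ (PP q Y).card := by
  have hQpos : 0 < Q := by linarith
  have hmono : ∀ a b : ℝ, a ≤ b → Q ^ a ≤ Q ^ b := fun a b h =>
    Real.rpow_le_rpow_of_exponent_le hQ1 h
  have hY4' : (4 : ℝ) ≤ Y := by exact_mod_cast hY4
  have h1 := pi_ge_div Y hY4
  have h2 : (Nat.primeCounting Y : ℝ) ≤ (PP q Y).card + Nat.log 2 q := by
    exact_mod_cast PP_card q Y hq
  have hYpos : (0 : ℝ) < Y := by linarith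
  have h3 := Real.log_le_rpow_div hYpos.le hη0
  have h4 : η / 4 * (Y : ℝ) ^ (1 - η) ≤ Nat.primeCounting Y := by
    have h5 : (Y : ℝ) / 4 ≤ (Nat.primeCounting Y : ℝ) * ((Y : ℝ) ^ η / η) :=
      h1.trans (by gcongr)
    have h6 : (Y : ℝ) = (Y : ℝ) ^ (1 - η) * (Y : ℝ) ^ η := by
      rw [← Real.rpow_add hYpos]; simp
    have h7 : 0 < (Y : ℝ) ^ η := by positivity
    have h8 : η / 4 * (Y : ℝ) ^ (1 - η) * (Y : ℝ) ^ η ≤ (Nat.primeCounting Y : ℝ) * (Y : ℝ) ^ η := by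
      have e : (Nat.primeCounting Y : ℝ) * ((Y : ℝ) ^ η / η) =
        (Nat.primeCounting Y : ℝ) * (Y : ℝ) ^ η / η := by ring
      rw [e, le_div_iff₀ hη0] at h5
      rw [mul_assoc, ← h6]
      linarith
    exact le_of_mul_le_mul_right h8 h7
  have h9 : Q ^ (κ - η) / 16 ≤ (Y : ℝ) ^ (1 - η) := by
    have hk : κ - η ≤ κ * (1 - η) := by
      have : κ * η ≤ 1 * η := by gcongr
      linarith
    calc Q ^ (κ - η) / 16 ≤ Q ^ (κ * (1 - η)) / 16 ^ (1 - η) := by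
          apply div_le_div₀ (by positivity) (hmono _ _ hk) (by positivity)
          calc (16 : ℝ) ^ (1 - η) ≤ 16 ^ (1 : ℝ) :=
                Real.rpow_le_rpow_of_exponent_le (by norm_num) (by linarith)
            _ = 16 := by norm_num
      _ = (Q ^ κ / 16) ^ (1 - η) := by
          rw [Real.div_rpow (by positivity) (by norm_num), ← Real.rpow_mul hQpos.le]
      _ ≤ (Y : ℝ) ^ (1 - η) :=
          Real.rpow_le_rpow (by positivity) hY3 (by linarith)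
  have h10 : 2 * Q ^ (κ - 2 * η) ≤ η / 4 * (Q ^ (κ - η) / 16) := by
    have e : Q ^ (κ - η) = Q ^ (κ - 2 * η) * Q ^ η := by
      rw [← Real.rpow_add hQpos]; congr 1; ring
    rw [e]
    have h11 : 0 < Q ^ (κ - 2 * η) := by positivity
    rw [div_le_iff₀ hη0] at q3
    have h14 := mul_le_mul_of_nonneg_left q3 h11.le
    linarith
  have h12 : Q ^ η ≤ Q ^ (κ - 2 * η) := hmono _ _ (by linarith)
  have h13 : η / 4 * (Q ^ (κ - η) / 16) ≤ η / 4 * (Y : ℝ) ^ (1 - η) := by gcongr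
  linarith

/-- Absorbing the main term of the energy. -/
theorem absorb (Q θ η δ K2 X V q : ℝ) (hQ1 : 1 ≤ Q) (hθ0 : 0 < θ) (hη0 : 0 < η)
    (hη1 : η ≤ 1 / 16) (hδ : δ ≤ 1 / 2) (hK20 : 0 ≤ K2) (hX : 0 ≤ X)
    (hV : V = Q ^ ((1 - δ) * θ)) (hVq : V ≤ q) (q4 : 2 * K2 ≤ Q ^ (θ / 16)) :
    K2 * Q ^ (η * θ) * (X / q) * q ^ (1 / 2 + η) ≤ X / 2 := by
  have hQpos : 0 < Q := by linarith
  have hmono : ∀ a b : ℝ, a ≤ b → Q ^ a ≤ Q ^ b := fun a b h =>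
    Real.rpow_le_rpow_of_exponent_le hQ1 h
  have hVpos : 0 < V := by rw [hV]; positivity
  have hq0 : 0 < q := by linarith
  have h1 : q ^ (1 / 2 + η) = q * q ^ (-(1 / 2 - η)) := by
    nth_rewrite 2 [← Real.rpow_one q]
    rw [← Real.rpow_add hq0]; congr 1; ring
  have h2 : q ^ (-(1 / 2 - η)) ≤ Q ^ (-(θ / 8)) := by
    rw [Real.rpow_neg hq0.le, Real.rpow_neg hQpos.le]
    apply inv_anti₀ (by positivity)
    calc Q ^ (θ / 8) ≤ Q ^ ((1 - δ) * θ * (1 / 2 - η)) := by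
          apply hmono
          have h3 : 1 / 2 ≤ 1 - δ := by linarith
          have h4 : 1 / 4 ≤ 1 / 2 - η := by linarith
          calc θ / 8 = 1 / 2 * θ * (1 / 4) := by ring
            _ ≤ _ := by gcongr
      _ = V ^ (1 / 2 - η) := by rw [hV, ← Real.rpow_mul hQpos.le]
      _ ≤ q ^ (1 / 2 - η) := Real.rpow_le_rpow hVpos.le hVq (by linarith)
  have h5 : Q ^ (η * θ) * Q ^ (-(θ / 8)) ≤ Q ^ (-(θ / 16)) := by
    rw [← Real.rpow_add hQpos]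
    apply hmono
    have : η * θ ≤ 1 / 16 * θ := by gcongr
    linarith
  have h6 : K2 * Q ^ (-(θ / 16)) ≤ 1 / 2 := by
    have : Q ^ (θ / 16) * Q ^ (-(θ / 16)) = 1 := by
      rw [← Real.rpow_add hQpos]; simp
    have h7 : 0 < Q ^ (-(θ / 16)) := by positivity
    have h8 := mul_le_mul_of_nonneg_right q4 h7.le
    rw [this] at h8
    linarith
  calc K2 * Q ^ (η * θ) * (X / q) * q ^ (1 / 2 + η)
      = K2 * Q ^ (η * θ) * X * q ^ (-(1 / 2 - η)) := by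
        rw [h1]; field_simp
    _ ≤ K2 * Q ^ (η * θ) * X * Q ^ (-(θ / 8)) := by gcongr
    _ = K2 * (Q ^ (η * θ) * Q ^ (-(θ / 8))) * X := by ring
    _ ≤ K2 * Q ^ (-(θ / 16)) * X := by gcongr
    _ ≤ 1 / 2 * X := by gcongr
    _ = X / 2 := by ring

/-- The final computation with exponents. -/
theorem finish (Q θ η δ κ K2 X V N D q J p e : ℝ) (r : ℕ) (hQ1 : 1 ≤ Q) (hθ0 : 0 < θ)
    (hθ4 : θ ≤ 1) (hη0 : 0 < η) (hη1 : η ≤ 1 / 16) (hδ0 : 0 < δ) (hδ : δ ≤ 1 / 2)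
    (hδr : 2 * r * δ = η) (hK20 : 0 ≤ K2) (hX : 0 < X) (hN : 0 < N)
    (hV : V = Q ^ ((1 - δ) * θ)) (hVN : V ≤ N) (hNQ : N ≤ Q ^ θ) (hVq : V ≤ q) (hq1 : 1 ≤ q)
    (hqQ : q ≤ Q) (hJ : 0 ≤ J) (hXd : X = p * J * N) (hD0 : 0 ≤ D) (hD1 : D ≤ Q ^ η)
    (hP : Q ^ (κ - 2 * η) ≤ p) (q4 : 2 * K2 ≤ Q ^ (θ / 16))
    (hcore : 4 ^ r * (X ^ 2 * (V / (2 * N)) ^ (2 * r)) ≤
      K2 * (D * X + X ^ 2 / q) * q ^ (1 / 2 + η))
    (hexp : 3 * η ≤ e + ((κ - 2 * η) + (1 - δ) * θ)) :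
    J ≤ 2 * K2 * (q ^ (1 / 2 : ℝ) * Q ^ e) := by
  have hQpos : 0 < Q := by linarith
  have hmono : ∀ a b : ℝ, a ≤ b → Q ^ a ≤ Q ^ b := fun a b h =>
    Real.rpow_le_rpow_of_exponent_le hQ1 h
  have hq0 : 0 < q := by linarith
  have hVN2 : Q ^ (-(δ * θ)) / 2 ≤ V / (2 * N) := by
    rw [div_le_div_iff₀ (by norm_num) (by positivity)]
    have e : V = Q ^ (-(δ * θ)) * Q ^ θ := by
      rw [hV, ← Real.rpow_add hQpos]; congr 1; ring
    rw [e]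
    calc Q ^ (-(δ * θ)) * (2 * N) ≤ Q ^ (-(δ * θ)) * (2 * Q ^ θ) := by gcongr
      _ = _ := by ring
  have hVN3 : Q ^ (-(η * θ)) / 4 ^ r ≤ (V / (2 * N)) ^ (2 * r) := by
    calc Q ^ (-(η * θ)) / 4 ^ r = (Q ^ (-(δ * θ)) / 2) ^ (2 * r) := by
          rw [div_pow, pow_mul 2 2 r]
          congr 1
          · rw [← Real.rpow_natCast, ← Real.rpow_mul hQpos.le]
            congr 1
            push_cast
            rw [← hδr]
            ring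
          · norm_num
      _ ≤ _ := by gcongr
  have hmain : X ≤ K2 * Q ^ (η * θ) * (D + X / q) * q ^ (1 / 2 + η) := by
    have h44 : (0 : ℝ) < 4 ^ r := by positivity
    have h1 : 4 ^ r * (X ^ 2 * (Q ^ (-(η * θ)) / 4 ^ r)) ≤
        K2 * (D * X + X ^ 2 / q) * q ^ (1 / 2 + η) :=
      le_trans (by gcongr) hcore
    have h2 : (X * Q ^ (-(η * θ))) * X ≤
        (K2 * (D + X / q) * q ^ (1 / 2 + η)) * X := by
      calc (X * Q ^ (-(η * θ))) * X = 4 ^ r * (X ^ 2 * (Q ^ (-(η * θ)) / 4 ^ r)) := by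
            field_simp
        _ ≤ _ := h1
        _ = _ := by ring
    have h3 := le_of_mul_le_mul_right h2 hX
    have h4 : X * Q ^ (-(η * θ)) * Q ^ (η * θ) ≤
        (K2 * (D + X / q) * q ^ (1 / 2 + η)) * Q ^ (η * θ) := by
      gcongr
    have e1 : X * Q ^ (-(η * θ)) * Q ^ (η * θ) = X := by
      rw [mul_assoc, ← Real.rpow_add hQpos]; simp
    rw [e1] at h4
    calc X ≤ _ := h4
      _ = _ := by ring
  have habs := absorb Q θ η δ K2 X V q hQ1 hθ0 hη0 hη1 hδ hK20 hX.le hV hVq q4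
  have hX2 : X ≤ 2 * (K2 * Q ^ (η * θ) * D * q ^ (1 / 2 + η)) := by
    have e : K2 * Q ^ (η * θ) * (D + X / q) * q ^ (1 / 2 + η) =
      K2 * Q ^ (η * θ) * D * q ^ (1 / 2 + η) +
      K2 * Q ^ (η * θ) * (X / q) * q ^ (1 / 2 + η) := by ring
    rw [e] at hmain
    linarith
  have hX3 : X ≤ 2 * K2 * (q ^ (1 / 2 : ℝ) * Q ^ (3 * η)) := by
    refine hX2.trans ?_
    have hqQ2 : q ^ (1 / 2 + η) ≤ q ^ (1 / 2 : ℝ) * Q ^ η := by
      rw [Real.rpow_add hq0]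
      apply mul_le_mul_of_nonneg_left _ (by positivity)
      exact Real.rpow_le_rpow hq0.le hqQ hη0.le
    calc 2 * (K2 * Q ^ (η * θ) * D * q ^ (1 / 2 + η))
        ≤ 2 * (K2 * Q ^ (η * θ) * Q ^ η * (q ^ (1 / 2 : ℝ) * Q ^ η)) := by gcongr
      _ = 2 * K2 * (q ^ (1 / 2 : ℝ) * (Q ^ (η * θ) * Q ^ η * Q ^ η)) := by ring
      _ ≤ 2 * K2 * (q ^ (1 / 2 : ℝ) * Q ^ (3 * η)) := by
          rw [← Real.rpow_add hQpos, ← Real.rpow_add hQpos]
          apply mul_le_mul_of_nonneg_left _ (by positivity)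
          apply mul_le_mul_of_nonneg_left (hmono _ _ _) (by positivity)
          have : η * θ ≤ η * 1 := by
            apply mul_le_mul_of_nonneg_left (by linarith) hη0.le
          linarith
  have hVpos : 0 < V := by rw [hV]; positivity
  have hX4 : Q ^ (κ - 2 * η) * J * Q ^ ((1 - δ) * θ) ≤ X := by
    rw [hXd, ← hV]
    have h0 : 0 ≤ Q ^ (κ - 2 * η) := by positivity
    have h00 : 0 ≤ p := h0.trans hP
    gcongr
  have h1 : J * (Q ^ (κ - 2 * η) * Q ^ ((1 - δ) * θ)) ≤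
      (2 * K2 * (q ^ (1 / 2 : ℝ) * Q ^ e)) * (Q ^ (κ - 2 * η) * Q ^ ((1 - δ) * θ)) := by
    calc J * (Q ^ (κ - 2 * η) * Q ^ ((1 - δ) * θ))
        = Q ^ (κ - 2 * η) * J * Q ^ ((1 - δ) * θ) := by ring
      _ ≤ X := hX4
      _ ≤ 2 * K2 * (q ^ (1 / 2 : ℝ) * Q ^ (3 * η)) := hX3
      _ ≤ 2 * K2 * (q ^ (1 / 2 : ℝ) * Q ^ (e + ((κ - 2 * η) + (1 - δ) * θ))) := by
          apply mul_le_mul_of_nonneg_left _ (by positivity)
          exact mul_le_mul_of_nonneg_left (hmono _ _ hexp) (by positivity)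
      _ = _ := by rw [Real.rpow_add hQpos, Real.rpow_add hQpos (κ - 2 * η)]; ring
  exact le_of_mul_le_mul_right h1 (by positivity)

/-- The large value theorem for primitive characters and sums of one length. -/
theorem thmA (hM : Stmt_M) (hE : Stmt_E) (n : ℕ) (hn : 1 ≤ n) (ε : ℝ) (hε : 0 < ε) :
    ∃ δ : ℝ, 0 < δ ∧ δ ≤ 1 / 2 ∧ δ ≤ ε ∧ ∃ c : ℝ, 0 ≤ c ∧
      ∀ Q : ℝ, 1 ≤ Q → ∀ (q : ℕ) [NeZero q], (q : ℝ) ≤ Q →
      ∀ χ : DirichletCharacter ℂ q, χ.IsPrimitive → χ ^ 3 = 1 → χ ≠ 1 → ∀ N : ℕ,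
        (N : ℝ) ≤ Q ^ (1 / (n : ℝ)) → ∀ 𝓜 : Finset ℤ, Sep q N 𝓜 →
          (∀ M ∈ 𝓜, Q ^ ((1 - δ) / n) ≤ ‖shortSum χ M N‖) →
            (𝓜.card : ℝ) ≤ c * ((q : ℝ) ^ (1 / 2 : ℝ) * Q ^ (-(2 / (n : ℝ)) + ε)) := by
  -- parameters
  have hn0 : (1 : ℝ) ≤ n := by exact_mod_cast hn
  obtain ⟨θ, hθ⟩ : ∃ θ : ℝ, θ = 1 / (n : ℝ) := ⟨_, rfl⟩
  have hθ0 : 0 < θ := by rw [hθ]; positivity
  have hθ4 : θ ≤ 1 := by
    rw [hθ]
    simpa using one_div_le_one_div_of_le (by norm_num) hn0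
  have hθ2 : 2 / (n : ℝ) = 2 * θ := by rw [hθ]; ring
  obtain ⟨η, hη⟩ : ∃ η : ℝ, η = min ε θ / 16 := ⟨_, rfl⟩
  have hmin : 0 < min ε θ := lt_min hε hθ0
  have hη0 : 0 < η := by rw [hη]; positivity
  have hηε : 16 * η ≤ ε := by
    have := min_le_left ε θ
    linarith
  have hηθ : 16 * η ≤ θ := by
    have := min_le_right ε θ
    linarith
  obtain ⟨r, hr⟩ : ∃ r : ℕ, r = ⌈1 / (2 * η)⌉₊ := ⟨_, rfl⟩
  have hr1 : 1 / (2 * η) ≤ r := by rw [hr]; exact Nat.le_ceil _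
  have hrpos : (0 : ℝ) < r := lt_of_lt_of_le (by positivity) hr1
  have hr0 : 1 ≤ r := by
    have : 0 < r := by exact_mod_cast hrpos
    omega
  have hr1' : (1 : ℝ) ≤ r := by exact_mod_cast hr0
  have hrη : 1 / (2 * (r : ℝ)) ≤ η := by
    rw [div_le_iff₀ (by positivity)] at hr1 ⊢
    linarith
  obtain ⟨δ, hδ⟩ : ∃ δ : ℝ, δ = η / (2 * r) := ⟨_, rfl⟩
  have hδ0 : 0 < δ := by rw [hδ]; positivity
  have hδr : 2 * r * δ = η := by rw [hδ]; field_simp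
  have hδη : δ ≤ η / 2 := by
    rw [hδ]
    gcongr
    linarith
  obtain ⟨κ, hκ⟩ : ∃ κ : ℝ, κ = (1 - δ) * θ - 1 / (2 * r) := ⟨_, rfl⟩
  have hδθ0 : 0 < δ * θ := by positivity
  have hδθ : δ * θ ≤ η := by
    calc δ * θ ≤ η / 2 * 1 := by
          apply mul_le_mul hδη (by linarith) hθ0.le (by positivity)
      _ ≤ η := by linarith
  have hκe : κ = θ - δ * θ - 1 / (2 * r) := by rw [hκ]; ring
  have hκ0 : θ - 2 * η ≤ κ := by rw [hκe]; linarith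
  have hr2 : 0 < 1 / (2 * (r : ℝ)) := by positivity
  have hκ1 : κ ≤ 1 := by
    rw [hκe]
    linarith
  obtain ⟨CM, hCM, hMom⟩ := hM r hr0 η hη0
  obtain ⟨CE, hCE, hEn⟩ := hE
  obtain ⟨Cp, hCp, hpv⟩ := Pool.Agent.Work.MP_081200_nt.pv (1 / 16) (by norm_num)
  obtain ⟨K2, hK2⟩ : ∃ K2 : ℝ, K2 = 4 ^ r * (2 * CE * CM) := ⟨_, rfl⟩
  have hK20 : 0 ≤ K2 := by rw [hK2]; positivity
  -- large Q
  have hev : ∀ᶠ Q : ℝ in Filter.atTop, 64 ≤ Q ^ κ ∧ 128 / η ≤ Q ^ η ∧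
      2 * K2 ≤ Q ^ (θ / 16) ∧ 4 / η ≤ Q ^ (η / 2) ∧ 8 * Cp + 1 ≤ Q ^ (θ / 4) := by
    have hκpos : 0 < κ := by linarith
    exact ((tendsto_rpow_atTop hκpos).eventually_ge_atTop 64).and
      (((tendsto_rpow_atTop hη0).eventually_ge_atTop (128 / η)).and
      (((tendsto_rpow_atTop (by positivity : 0 < θ / 16)).eventually_ge_atTop (2 * K2)).and
      (((tendsto_rpow_atTop (by positivity : 0 < η / 2)).eventually_ge_atTop (4 / η)).and
      ((tendsto_rpow_atTop (by positivity : 0 < θ / 4)).eventually_ge_atTop (8 * Cp + 1)))))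
  obtain ⟨Q0, hQ0⟩ := Filter.eventually_atTop.mp hev
  refine ⟨δ, hδ0, by linarith, by linarith, (|Q0| + 1) ^ 3 + 2 * K2, by positivity, ?_⟩
  intro Q hQ1 q _ hqQ χ hprim hcub hne1 N hNQ 𝓜 hsep hV
  have hQpos : 0 < Q := by linarith
  have hmono : ∀ a b : ℝ, a ≤ b → Q ^ a ≤ Q ^ b := fun a b h =>
    Real.rpow_le_rpow_of_exponent_le hQ1 h
  rcases Finset.eq_empty_or_nonempty 𝓜 with hemp | ⟨M0, hM0⟩
  · rw [hemp]
    simp only [Finset.card_empty, Nat.cast_zero]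
    positivity
  have hVexp : Q ^ ((1 - δ) / n) = Q ^ ((1 - δ) * θ) := by rw [hθ]; congr 1; ring
  rw [hVexp] at hV
  rw [← hθ] at hNQ
  obtain ⟨V, hVdef⟩ : ∃ V : ℝ, V = Q ^ ((1 - δ) * θ) := ⟨_, rfl⟩
  rw [← hVdef] at hV
  have hVpos : 0 < V := by rw [hVdef]; positivity
  have hVN : V ≤ N := (hV M0 hM0).trans (norm_shortSum_le χ M0 N)
  have hN0 : (0 : ℝ) < N := lt_of_lt_of_le hVpos hVN
  have hN1 : 1 ≤ N := by
    have : 0 < N := by exact_mod_cast hN0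
    omega
  have hN1' : (1 : ℝ) ≤ N := by exact_mod_cast hN1
  have hq1 : 1 ≤ q := Nat.pos_of_ne_zero (NeZero.ne q)
  have hq1' : (1 : ℝ) ≤ q := by exact_mod_cast hq1
  have hq0 : (0 : ℝ) < q := by linarith
  have hcard := Sep.card_le hN0 hsep
  by_cases hQQ : Q < Q0
  · have h1 : (q : ℝ) / N ≤ |Q0| := by
      calc (q : ℝ) / N ≤ q := div_le_self hq0.le hN1'
        _ ≤ |Q0| := hqQ.trans (hQQ.le.trans (le_abs_self _))
    have h2 : 1 ≤ (q : ℝ) ^ (1 / 2 : ℝ) := Real.one_le_rpow hq1' (by norm_num)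
    have hA1 : 1 ≤ |Q0| + 1 := by
      have := abs_nonneg Q0
      linarith
    have h3 : ((|Q0| + 1) ^ 2)⁻¹ ≤ Q ^ (-(2 / (n : ℝ)) + ε) := by
      calc ((|Q0| + 1) ^ 2)⁻¹ = (|Q0| + 1) ^ (-2 : ℝ) := by
            rw [Real.rpow_neg (by positivity)]
            norm_num
        _ ≤ Q ^ (-2 : ℝ) := by
            apply Real.rpow_le_rpow_of_nonpos hQpos _ (by norm_num)
            have := le_abs_self Q0
            linarith
        _ ≤ Q ^ (-(2 / (n : ℝ)) + ε) := by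
            apply hmono
            rw [hθ2]; linarith
    calc (𝓜.card : ℝ) ≤ |Q0| + 1 := by linarith
      _ = (|Q0| + 1) ^ 3 * (1 * ((|Q0| + 1) ^ 2)⁻¹) := by field_simp
      _ ≤ (|Q0| + 1) ^ 3 * ((q : ℝ) ^ (1 / 2 : ℝ) * Q ^ (-(2 / (n : ℝ)) + ε)) := by gcongr
      _ ≤ _ := by
          apply mul_le_mul_of_nonneg_right _ (by positivity)
          linarith
  push Not at hQQ
  obtain ⟨q1, q3, q4, q5, q6⟩ := hQ0 Q hQQ
  by_cases hq8 : q < 8 * N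
  · exfalso
    have h1 := hpv q χ (NeZero.ne q) hne1 (M0 + 1) N
    have h2 : ∑ k ∈ range N, χ ((M0 + 1 + k : ℤ) : ZMod q) = shortSum χ M0 N := by
      rw [shortSum_eq, sum_Icc_one]
      apply Finset.sum_congr rfl
      intro k _
      congr 1
      push_cast
      ring
    rw [h2] at h1
    have h3 : (q : ℝ) ^ (1 / 2 + 1 / 16 : ℝ) ≤ 8 * Q ^ (9 / 16 * θ) := by
      calc (q : ℝ) ^ (1 / 2 + 1 / 16 : ℝ) ≤ (8 * Q ^ θ) ^ (1 / 2 + 1 / 16 : ℝ) := by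
            apply Real.rpow_le_rpow hq0.le _ (by norm_num)
            have : (q : ℝ) < 8 * N := by exact_mod_cast hq8
            linarith
        _ = 8 ^ (1 / 2 + 1 / 16 : ℝ) * (Q ^ θ) ^ (1 / 2 + 1 / 16 : ℝ) := by
            rw [Real.mul_rpow (by norm_num) (by positivity)]
        _ ≤ 8 ^ (1 : ℝ) * Q ^ (9 / 16 * θ) := by
            apply mul_le_mul _ _ (by positivity) (by positivity)
            · exact Real.rpow_le_rpow_of_exponent_le (by norm_num) (by norm_num)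
            · rw [← Real.rpow_mul hQpos.le]
              apply le_of_eq
              congr 1
              ring
        _ = 8 * Q ^ (9 / 16 * θ) := by norm_num
    have h4 : V ≤ Cp * (8 * Q ^ (9 / 16 * θ)) := by
      refine (hV M0 hM0).trans (h1.trans ?_)
      gcongr
    have h5 : Q ^ (θ / 4) * Q ^ (9 / 16 * θ) ≤ V := by
      rw [hVdef, ← Real.rpow_add hQpos]
      apply hmono
      have : δ * θ ≤ 1 / 16 * θ := by
        apply mul_le_mul_of_nonneg_right _ hθ0.le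
        linarith
      linarith
    have h6 : 0 < Q ^ (9 / 16 * θ) := by positivity
    have h7 := mul_le_mul_of_nonneg_right q6 h6.le
    linarith
  push Not at hq8
  -- B and Y
  obtain ⟨B, hB⟩ : ∃ B : ℕ, B = ⌈Q ^ (1 / (2 * (r : ℝ)))⌉₊ := ⟨_, rfl⟩
  have hQr1 : 1 ≤ Q ^ (1 / (2 * (r : ℝ))) := Real.one_le_rpow hQ1 (by positivity)
  have hB1 : Q ^ (1 / (2 * (r : ℝ))) ≤ B := by rw [hB]; exact Nat.le_ceil _
  have hB2 : (B : ℝ) ≤ 2 * Q ^ (1 / (2 * (r : ℝ))) := by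
    have := Nat.ceil_lt_add_one (a := Q ^ (1 / (2 * (r : ℝ)))) (by linarith)
    rw [hB]
    linarith
  have hBpos : (0 : ℝ) < B := by linarith
  have hB1' : (1 : ℝ) ≤ B := by linarith
  have hBr : (q : ℝ) ^ (1 / 2 : ℝ) ≤ (B : ℝ) ^ r := by
    calc (q : ℝ) ^ (1 / 2 : ℝ) ≤ Q ^ (1 / 2 : ℝ) := by gcongr
      _ = (Q ^ (1 / (2 * (r : ℝ)))) ^ r := by
          rw [← Real.rpow_natCast, ← Real.rpow_mul hQpos.le]
          congr 1
          field_simp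
      _ ≤ (B : ℝ) ^ r := by gcongr
  obtain ⟨Y, hY⟩ : ∃ Y : ℕ, Y = ⌊V / (4 * B)⌋₊ := ⟨_, rfl⟩
  have hY1 : (Y : ℝ) ≤ V / (4 * B) := by rw [hY]; exact Nat.floor_le (by positivity)
  have hY2 : V / (4 * B) - 1 < Y := by rw [hY]; exact Nat.sub_one_lt_floor _
  have hYB : 2 * (Y : ℝ) * B ≤ V / 2 := by
    rw [le_div_iff₀ (by positivity)] at hY1
    linarith
  have hYN : Y ≤ N := by
    have : (Y : ℝ) ≤ N := by
      refine hY1.trans (le_trans ?_ hVN)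
      exact div_le_self hVpos.le (by linarith)
    exact_mod_cast this
  have hVB : Q ^ κ / 16 ≤ V / (8 * B) := by
    rw [div_le_div_iff₀ (by norm_num) (by positivity)]
    have e : V = Q ^ κ * Q ^ (1 / (2 * (r : ℝ))) := by
      rw [hVdef, ← Real.rpow_add hQpos, hκ]
      congr 1
      ring
    rw [e]
    calc Q ^ κ * (8 * B) ≤ Q ^ κ * (8 * (2 * Q ^ (1 / (2 * (r : ℝ))))) := by gcongr
      _ = _ := by ring
  have hY3 : Q ^ κ / 16 ≤ Y := by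
    have e : V / (4 * B) = V / (8 * B) + V / (8 * B) := by field_simp; norm_num
    rw [e] at hY2
    linarith
  have hY4 : 4 ≤ Y := by
    have : (4 : ℝ) ≤ Y := by linarith
    exact_mod_cast this
  -- D
  have hlogq : Real.log q ≤ Real.log Q := Real.log_le_log hq0 hqQ
  have hD1 : (Nat.log 2 q : ℝ) ≤ Q ^ η := by
    have h1 := natlog_le q hq1
    have h2 := Real.log_le_rpow_div hQpos.le (by positivity : 0 < η / 2)
    have e : Q ^ η = Q ^ (η / 2) * Q ^ (η / 2) := by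
      rw [← Real.rpow_add hQpos]; congr 1; ring
    rw [e]
    have h3 : 0 < Q ^ (η / 2) := by positivity
    calc (Nat.log 2 q : ℝ) ≤ 2 * (Q ^ (η / 2) / (η / 2)) := by linarith
      _ = (4 / η) * Q ^ (η / 2) := by field_simp; norm_num
      _ ≤ _ := by gcongr
  -- P
  have hP : Q ^ (κ - 2 * η) ≤ (PP q Y).card :=
    P_lower Q κ η hQ1 hη0 (by linarith) hκ1 (by linarith) q Y (NeZero.ne q) hY4 hY3 q3 hD1
  obtain ⟨X, hX⟩ : ∃ X : ℝ, X = (PP q Y).card * 𝓜.card * N := ⟨_, rfl⟩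
  have hPpos : (0 : ℝ) < (PP q Y).card := lt_of_lt_of_le (by positivity) hP
  have hJpos : (0 : ℝ) < 𝓜.card := by exact_mod_cast Finset.card_pos.mpr ⟨M0, hM0⟩
  have hXpos : 0 < X := by rw [hX]; positivity
  have hM' := hMom q χ hprim hcub B
  have hE' := hEn q N Y (Nat.log 2 q) (PP q Y) 𝓜 hN1 hq8 hYN (fun a ha => PP_mem ha)
    (fun m hm hmq => PP_div q Y m hm hmq) hsep
  rw [← hX] at hE'
  have hcore := core r hr0 η CM CE hη0.le hCM hCE q N Y B χ 𝓜 V hVpos.le X (Nat.log 2 q) hX hXpos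
    (Nat.cast_nonneg _) hM' hE' hBr hYB hN1 hV
  have hVq : V ≤ q := by
    have : ((8 * N : ℕ) : ℝ) ≤ q := by exact_mod_cast hq8
    push_cast at this
    linarith
  have hcore' : 4 ^ r * (X ^ 2 * (V / (2 * N)) ^ (2 * r)) ≤
      K2 * ((Nat.log 2 q : ℝ) * X + X ^ 2 / q) * (q : ℝ) ^ (1 / 2 + η) := by
    have := mul_le_mul_of_nonneg_left hcore (by positivity : (0 : ℝ) ≤ 4 ^ r)
    refine this.trans (le_of_eq ?_)
    rw [hK2]
    ring
  have hfin : (𝓜.card : ℝ) ≤ 2 * K2 * ((q : ℝ) ^ (1 / 2 : ℝ) * Q ^ (-(2 / (n : ℝ)) + ε)) := by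
    apply finish Q θ η δ κ K2 X V N (Nat.log 2 q) q 𝓜.card (PP q Y).card _ r hQ1 hθ0 hθ4 hη0
      (by linarith) hδ0 (by linarith) hδr hK20 hXpos hN0 hVdef hVN hNQ hVq hq1' hqQ hJpos.le hX
      (Nat.cast_nonneg _) hD1 hP q4 hcore'
    rw [hθ2, hκe]
    have e : (1 - δ) * θ = θ - δ * θ := by ring
    rw [e]
    linarith
  refine hfin.trans ?_
  apply mul_le_mul_of_nonneg_right _ (by positivity)
  have : 0 ≤ (|Q0| + 1) ^ 3 := by positivity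
  linarith

end Pool.Agent.Work.LV
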