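import Pool.Agent.Work.LV.A4
import Pool.Agent.Work.MP_081200_nt.Imprim

/-!
# Assembly, part 5: all cubic characters
-/

namespace Pool.Agent.Work.LV

open Finset ArithmeticFunction
open scoped ArithmeticFunction.Moebius
open Pool.Agent.Work.MP_081200_nt (char_eq_sum div_bound)

/-- The number of multiples of `d` in `(M, M + N]`. -/
def Nd (d : ℕ) (M : ℤ) (N : ℕ) : ℕ := ((M + N) / (d : ℤ) - M / (d : ℤ)).toNat

theorem Nd_cast (d : ℕ) (hd : 0 < d) (M : ℤ) (N : ℕ) :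
    (Nd d M N : ℤ) = (M + N) / (d : ℤ) - M / (d : ℤ) := by
  unfold Nd
  apply Int.toNat_of_nonneg
  have hd' : (0 : ℤ) < d := by exact_mod_cast hd
  have := Int.ediv_le_ediv hd' (show M ≤ M + N by omega)
  omega

theorem Nd_mul_le (d : ℕ) (hd : 0 < d) (M : ℤ) (N : ℕ) : (Nd d M N : ℤ) * d ≤ N + (d - 1) := by
  rw [Nd_cast d hd]
  have hd' : (0 : ℤ) < d := by exact_mod_cast hd
  have h1 := Int.mul_ediv_add_emod (M + N) d
  have h2 := Int.mul_ediv_add_emod M d
  have h3 := Int.emod_nonneg (M + N) hd'.ne'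
  have h4 := Int.emod_lt_of_pos M hd'
  nlinarith

theorem Nd_le (d : ℕ) (hd : 0 < d) (M : ℤ) (N : ℕ) : Nd d M N ≤ N := by
  have h := Nd_mul_le d hd M N
  have hd' : (1 : ℤ) ≤ d := by exact_mod_cast hd
  by_contra hcon
  push Not at hcon
  have h1 : (N : ℤ) + 1 ≤ Nd d M N := by exact_mod_cast hcon
  nlinarith

theorem Nd_le_div (d : ℕ) (hd : 0 < d) (M : ℤ) (N : ℕ) : (Nd d M N : ℝ) ≤ N / d + 1 := by
  have h := Nd_mul_le d hd M N
  have hd' : (0 : ℝ) < d := by exact_mod_cast hd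
  have h' : (Nd d M N : ℝ) * d ≤ N + (d - 1) := by exact_mod_cast h
  rw [← sub_le_iff_le_add, le_div_iff₀ hd']
  linarith

/-- Multiples of `d` in an interval. -/
theorem sum_mult (d : ℕ) (hd : 0 < d) (M : ℤ) (N : ℕ) (g : ℤ → ℂ) :
    ∑ a ∈ Ioc M (M + N), (if (d : ℤ) ∣ a then g a else 0) =
      ∑ b ∈ Ioc (M / (d : ℤ)) (M / (d : ℤ) + (Nd d M N : ℤ)), g (d * b) := by
  have hd' : (0 : ℤ) < d := by exact_mod_cast hd
  rw [Nd_cast d hd, ← Finset.sum_filter]
  symm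
  refine Finset.sum_bij (fun b _ => (d : ℤ) * b) ?_ ?_ ?_ ?_
  · intro b hb
    rw [mem_Ioc] at hb
    rw [mem_filter, mem_Ioc]
    refine ⟨⟨?_, ?_⟩, Dvd.intro _ rfl⟩
    · have := (Int.ediv_lt_iff_lt_mul hd').mp hb.1
      linarith
    · have hb2 : b ≤ (M + N) / (d : ℤ) := by linarith [hb.2]
      have := (Int.le_ediv_iff_mul_le hd').mp hb2
      linarith
  · intro a _ b _ h
    exact mul_left_cancel₀ hd'.ne' h
  · intro a ha
    rw [mem_filter, mem_Ioc] at ha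
    obtain ⟨⟨h1, h2⟩, b, rfl⟩ := ha
    refine ⟨b, ?_, rfl⟩
    rw [mem_Ioc]
    constructor
    · rw [Int.ediv_lt_iff_lt_mul hd']
      linarith
    · have : b ≤ (M + N) / (d : ℤ) := by
        rw [Int.le_ediv_iff_mul_le hd']
        linarith
      linarith
  · intro b _
    rfl

/-- Reduction of a character sum to sums of the primitive character. -/
theorem norm_le_sum {q : ℕ} [NeZero q] (χ : DirichletCharacter ℂ q) (M : ℤ) (N : ℕ) :
    ‖shortSum χ M N‖ ≤ ∑ d ∈ q.divisors,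
      ‖shortSum χ.primitiveCharacter (M / (d : ℤ)) (Nd d M N)‖ := by
  have h1 : shortSum χ M N = ∑ d ∈ q.divisors, ((μ d : ℤ) : ℂ) *
      (χ.primitiveCharacter (d : ZMod χ.conductor) *
        shortSum χ.primitiveCharacter (M / (d : ℤ)) (Nd d M N)) := by
    unfold shortSum
    rw [Finset.sum_congr rfl (fun a _ => char_eq_sum q χ a), Finset.sum_comm]
    apply Finset.sum_congr rfl
    intro d hd
    have hd0 : 0 < d := Nat.pos_of_mem_divisors hd
    rw [sum_mult d hd0 M N (fun a => ((μ d : ℤ) : ℂ) *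
      χ.primitiveCharacter (a : ZMod χ.conductor)), Finset.mul_sum, Finset.mul_sum]
    apply Finset.sum_congr rfl
    intro b _
    rw [← map_mul]
    push_cast
    rfl
  rw [h1]
  refine (norm_sum_le _ _).trans (Finset.sum_le_sum fun d _ => ?_)
  rw [norm_mul, norm_mul]
  have h4 : ‖((μ d : ℤ) : ℂ)‖ ≤ 1 := by
    rw [Complex.norm_intCast]
    exact_mod_cast abs_moebius_le_one
  have h5 := DirichletCharacter.norm_le_one χ.primitiveCharacter (d : ZMod χ.conductor)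
  calc ‖((μ d : ℤ) : ℂ)‖ * (‖χ.primitiveCharacter (d : ZMod χ.conductor)‖ * _)
      ≤ 1 * (1 * ‖shortSum χ.primitiveCharacter (M / (d : ℤ)) (Nd d M N)‖) := by
        gcongr
    _ = _ := by ring

/-- The image of a separated set under division by `d`. -/
theorem Sep.div {q : ℕ} {L : ℝ} {𝓜 : Finset ℤ} (h : Sep q L 𝓜) (d : ℕ) (hd : 0 < d)
    (hL : 2 * (d : ℝ) ≤ L) :
    Sep q (L / (2 * d)) (𝓜.image fun M => M / (d : ℤ)) ∧
      (𝓜.image fun M => M / (d : ℤ)).card = 𝓜.card := by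
  classical
  have hd' : (0 : ℤ) < d := by exact_mod_cast hd
  have hdr : (0 : ℝ) < d := by exact_mod_cast hd
  have key : ∀ M ∈ 𝓜, ∀ M' ∈ 𝓜, M ≠ M' → ∀ k : ℤ,
      L / (2 * d) ≤ |((M / (d : ℤ) - M' / (d : ℤ) - k * q : ℤ) : ℝ)| := by
    intro M hM M' hM' hne k
    have h1 := h M hM M' hM' hne (k * d)
    have e1 := Int.mul_ediv_add_emod M d
    have e2 := Int.mul_ediv_add_emod M' d
    have e3 : (M - M' - k * d * q : ℤ) =
        d * (M / (d : ℤ) - M' / (d : ℤ) - k * q) + (M % d - M' % d) := by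
      linear_combination e2 - e1
    have a1 := Int.emod_nonneg M hd'.ne'
    have a2 := Int.emod_nonneg M' hd'.ne'
    have a3 := Int.emod_lt_of_pos M hd'
    have a4 := Int.emod_lt_of_pos M' hd'
    have h2 : |((M % d - M' % d : ℤ) : ℝ)| ≤ d := by
      rw [← Int.cast_abs]
      have : |(M % d - M' % d : ℤ)| ≤ d := by rw [abs_le]; constructor <;> omega
      exact_mod_cast this
    rw [e3] at h1
    have h3 : |((d * (M / (d : ℤ) - M' / (d : ℤ) - k * q) + (M % d - M' % d) : ℤ) : ℝ)| ≤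
        d * |((M / (d : ℤ) - M' / (d : ℤ) - k * q : ℤ) : ℝ)| + d := by
      rw [Int.cast_add, Int.cast_mul]
      refine (abs_add_le _ _).trans ?_
      rw [abs_mul]
      have : |((d : ℤ) : ℝ)| = d := by simp
      rw [this]
      gcongr
    rw [div_le_iff₀ (by positivity)]
    linarith
  have hpos : 0 < L / (2 * d) := by
    have : 0 < L := by linarith
    positivity
  have hinj : ∀ M ∈ 𝓜, ∀ M' ∈ 𝓜, M / (d : ℤ) = M' / (d : ℤ) → M = M' := by
    intro M hM M' hM' heq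
    by_contra hne
    have := key M hM M' hM' hne 0
    rw [heq] at this
    simp at this
    linarith
  constructor
  · intro A hA A' hA' hne k
    rw [mem_image] at hA hA'
    obtain ⟨M, hM, rfl⟩ := hA
    obtain ⟨M', hM', rfl⟩ := hA'
    exact key M hM M' hM' (fun h => hne (by rw [h])) k
  · exact Finset.card_image_of_injOn fun M hM M' hM' heq => hinj M hM M' hM' heq

theorem thmC (hM : Stmt_M) (hE : Stmt_E) (n : ℕ) (hn : 1 ≤ n) (ε : ℝ) (hε : 0 < ε) :
    ∃ δ : ℝ, 0 < δ ∧ ∃ c : ℝ, 0 ≤ c ∧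
      ∀ Q : ℝ, 1 ≤ Q → ∀ (q : ℕ) [NeZero q], (q : ℝ) ≤ Q →
      ∀ χ : DirichletCharacter ℂ q, χ ^ 3 = 1 → χ ≠ 1 →
        ∀ 𝓜 : Finset ℤ, Sep χ.conductor (Q ^ (1 / (n : ℝ))) 𝓜 →
          (∀ M ∈ 𝓜, ∃ N : ℕ, (N : ℝ) ≤ Q ^ (1 / (n : ℝ)) ∧
            c * Q ^ ((1 - δ) / n) < ‖shortSum χ M N‖) →
            (𝓜.card : ℝ) ≤ c * ((χ.conductor : ℝ) ^ (1 / 2 : ℝ) * Q ^ (-(2 / (n : ℝ)) + ε)) := by
  classical
  obtain ⟨δ, hδ0, hδ2, hδε, c, hc, hB⟩ := thmB hM hE n hn (ε / 4) (by positivity)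
  have hn0 : (1 : ℝ) ≤ n := by exact_mod_cast hn
  have hn1 : (0 : ℝ) < n := by linarith
  obtain ⟨Cτ, hCτ, hτ⟩ := div_bound (δ / (2 * n)) (by positivity)
  refine ⟨δ / 2, by positivity, 5 * Cτ + 6 * Cτ * c + 16 * (4 ^ n + 1), by positivity, ?_⟩
  intro Q hQ1 q _ hqQ χ hcub hne1 𝓜 hsep hV
  have hQpos : 0 < Q := by linarith
  obtain ⟨W, hW⟩ : ∃ W : ℝ, W = Q ^ ((1 - δ) / n) := ⟨_, rfl⟩
  obtain ⟨L, hL⟩ : ∃ L : ℝ, L = Q ^ (1 / (n : ℝ)) := ⟨_, rfl⟩
  obtain ⟨D, hD⟩ : ∃ D : ℝ, D = Q ^ (δ / n) := ⟨_, rfl⟩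
  have hW1 : 1 ≤ W := by
    rw [hW]
    exact Real.one_le_rpow hQ1 (div_nonneg (by linarith) (by linarith))
  have hL1 : 1 ≤ L := by
    rw [hL]
    exact Real.one_le_rpow hQ1 (by positivity)
  have hD1 : 1 ≤ D := by
    rw [hD]
    exact Real.one_le_rpow hQ1 (by positivity)
  have hWD : W * D = L := by
    rw [hW, hD, hL, ← Real.rpow_add hQpos]
    congr 1
    ring
  rw [← hL] at hsep
  simp only [← hL] at hV
  have hf0 : χ.conductor ≠ 0 := χ.conductor_ne_zero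
  haveI : NeZero χ.conductor := ⟨hf0⟩
  have hfq : χ.conductor ≤ q :=
    Nat.le_of_dvd (Nat.pos_of_ne_zero (NeZero.ne q)) χ.conductor_dvd_level
  have hfQ : (χ.conductor : ℝ) ≤ Q := le_trans (by exact_mod_cast hfq) hqQ
  have hf1 : (1 : ℝ) ≤ χ.conductor := by exact_mod_cast Nat.one_le_iff_ne_zero.2 hf0
  have hf2 : 1 ≤ (χ.conductor : ℝ) ^ (1 / 2 : ℝ) := Real.one_le_rpow hf1 (by norm_num)
  have hbig0 : 0 ≤ (χ.conductor : ℝ) ^ (1 / 2 : ℝ) * Q ^ (-(2 / (n : ℝ)) + ε) := by positivity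
  -- small Q
  by_cases hsm : Q < 4 ^ n
  · have h1 := Sep.card_le (by linarith) hsep
    have h2 : (χ.conductor : ℝ) / L ≤ 4 ^ n := by
      calc (χ.conductor : ℝ) / L ≤ χ.conductor := div_le_self (by positivity) hL1
        _ ≤ 4 ^ n := hfQ.trans hsm.le
    have h3 : (1 / 16 : ℝ) ≤ Q ^ (-(2 / (n : ℝ)) + ε) := by
      calc (1 / 16 : ℝ) = ((4 : ℝ) ^ n) ^ (-(2 / (n : ℝ))) := by
            rw [← Real.rpow_natCast, ← Real.rpow_mul (by norm_num)]
            have : (n : ℝ) * (-(2 / (n : ℝ))) = -2 := by field_simp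
            rw [this, Real.rpow_neg (by norm_num)]
            norm_num
        _ ≤ Q ^ (-(2 / (n : ℝ))) := by
            apply Real.rpow_le_rpow_of_nonpos hQpos hsm.le
            have : 0 < 2 / (n : ℝ) := by positivity
            linarith
        _ ≤ Q ^ (-(2 / (n : ℝ)) + ε) :=
            Real.rpow_le_rpow_of_exponent_le hQ1 (by linarith)
    calc (𝓜.card : ℝ) ≤ (5 * Cτ + 6 * Cτ * c + 16 * (4 ^ n + 1)) * (1 * (1 / 16)) := by
          have : 0 ≤ 5 * Cτ + 6 * Cτ * c := by positivity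
          linarith
      _ ≤ _ := by gcongr
  push Not at hsm
  have hL4 : 4 ≤ L := by
    rw [hL]
    calc (4 : ℝ) = ((4 : ℝ) ^ n) ^ (1 / (n : ℝ)) := by
          rw [← Real.rpow_natCast, ← Real.rpow_mul (by norm_num)]
          rw [mul_one_div_cancel hn1.ne', Real.rpow_one]
      _ ≤ Q ^ (1 / (n : ℝ)) := Real.rpow_le_rpow (by positivity) hsm (by positivity)
  have hDL : 2 * D ≤ L := by
    -- D^2 ≤ L, so D ≤ sqrt L ≤ L / 2
    have h1 : D * D ≤ L := by
      rw [hD, hL, ← Real.rpow_add hQpos]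
      apply Real.rpow_le_rpow_of_exponent_le hQ1
      rw [← add_div]
      apply div_le_div_of_nonneg_right _ hn1.le
      linarith
    nlinarith
  -- divisors
  obtain ⟨τ, hτdef⟩ : ∃ τ : ℝ, τ = (q.divisors.card : ℝ) := ⟨_, rfl⟩
  have hτ1 : τ ≤ Cτ * Q ^ (δ / (2 * n)) := by
    rw [hτdef]
    refine (hτ q (NeZero.ne q)).trans ?_
    gcongr
  have hτ0 : 0 ≤ τ := by rw [hτdef]; positivity
  -- the classes
  have hprim := χ.primitiveCharacter_isPrimitive
  have hcub' : χ.primitiveCharacter ^ 3 = 1 := by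
    apply DirichletCharacter.changeLevel_injective χ.conductor_dvd_level
    rw [map_pow, DirichletCharacter.changeLevel_primitiveCharacter, hcub, map_one]
  have hne1' : χ.primitiveCharacter ≠ 1 := by
    intro h
    apply hne1
    have := DirichletCharacter.changeLevel_primitiveCharacter χ
    rw [h, map_one] at this
    exact this.symm
  have hcls : ∀ d ∈ q.divisors.filter (fun d : ℕ => (d : ℝ) ≤ D),
      ((𝓜.filter fun M => ∃ N' : ℕ, (N' : ℝ) ≤ L ∧
        3 * W ≤ ‖shortSum χ.primitiveCharacter (M / (d : ℤ)) N'‖).card : ℝ) ≤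
        6 * D * (c * ((χ.conductor : ℝ) ^ (1 / 2 : ℝ) * Q ^ (-(2 / (n : ℝ)) + ε / 4))) := by
    intro d hd
    rw [mem_filter] at hd
    have hd0 : 0 < d := Nat.pos_of_mem_divisors hd.1
    have hd0' : (0 : ℝ) < d := by exact_mod_cast hd0
    have hd1' : (1 : ℝ) ≤ d := by exact_mod_cast hd0
    set F := 𝓜.filter fun M => ∃ N' : ℕ, (N' : ℝ) ≤ L ∧
        3 * W ≤ ‖shortSum χ.primitiveCharacter (M / (d : ℤ)) N'‖ with hF
    have hs1 : Sep χ.conductor L F := hsep.mono le_rfl (Finset.filter_subset _ _)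
    obtain ⟨hs2, hcard⟩ := hs1.div d hd0 (by linarith [hd.2])
    obtain ⟨G, hGsub, hGsep, hGcard⟩ := Sep.thin (L := L) (by positivity) hs2 (by linarith)
    have h1 := hB Q hQ1 χ.conductor hfQ χ.primitiveCharacter hprim hcub' hne1' G
      (by rw [← hL]; exact hGsep) (by
        intro A hA
        have := hGsub hA
        rw [mem_image] at this
        obtain ⟨M, hM, rfl⟩ := this
        rw [← hL, ← hW]
        exact (mem_filter.mp hM).2)
    rw [hcard] at hGcard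
    have h2 : 2 * L / (L / (2 * d)) + 2 ≤ 6 * D := by
      have e : 2 * L / (L / (2 * d)) = 4 * d := by
        field_simp
        norm_num
      rw [e]
      linarith [hd.2]
    calc (F.card : ℝ) ≤ G.card * (2 * L / (L / (2 * d)) + 2) := hGcard
      _ ≤ (c * ((χ.conductor : ℝ) ^ (1 / 2 : ℝ) * Q ^ (-(2 / (n : ℝ)) + ε / 4))) * (6 * D) := by
          apply mul_le_mul h1 h2 (by positivity) (by positivity)
      _ = _ := by ring
  have hsub : 𝓜 ⊆ (q.divisors.filter (fun d : ℕ => (d : ℝ) ≤ D)).biUnion fun d =>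
      𝓜.filter fun M => ∃ N' : ℕ, (N' : ℝ) ≤ L ∧
        3 * W ≤ ‖shortSum χ.primitiveCharacter (M / (d : ℤ)) N'‖ := by
    intro M hM
    obtain ⟨N, hN, hS⟩ := hV M hM
    by_contra hcon
    rw [mem_biUnion] at hcon
    push Not at hcon
    have hbd : ∀ d ∈ q.divisors, ‖shortSum χ.primitiveCharacter (M / (d : ℤ)) (Nd d M N)‖ ≤
        3 * W + 2 * W := by
      intro d hd
      have hd0 : 0 < d := Nat.pos_of_mem_divisors hd
      have hd0' : (0 : ℝ) < d := by exact_mod_cast hd0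
      by_cases hdD : (d : ℝ) ≤ D
      · have h1 := hcon d (mem_filter.mpr ⟨hd, hdD⟩)
        rw [mem_filter] at h1
        push Not at h1
        have h2 := h1 hM (Nd d M N) (le_trans (by exact_mod_cast Nd_le d hd0 M N) hN)
        linarith
      · push Not at hdD
        have h1 := norm_shortSum_le χ.primitiveCharacter (M / (d : ℤ)) (Nd d M N)
        have h2 := Nd_le_div d hd0 M N
        have h3 : (N : ℝ) / d ≤ W := by
          rw [div_le_iff₀ hd0']
          calc (N : ℝ) ≤ L := hN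
            _ = W * D := hWD.symm
            _ ≤ W * d := by gcongr
        linarith
    have h1 := (norm_le_sum χ M N).trans (Finset.sum_le_sum hbd)
    rw [Finset.sum_const, nsmul_eq_mul, ← hτdef] at h1
    have h2 : (5 * Cτ + 6 * Cτ * c + 16 * (4 ^ n + 1)) * Q ^ ((1 - δ / 2) / n) ≤ τ * (3 * W + 2 * W) :=
      (hS.trans_le h1).le
    have h3 : τ * (3 * W + 2 * W) ≤ 5 * Cτ * Q ^ ((1 - δ / 2) / n) := by
      calc τ * (3 * W + 2 * W) ≤ Cτ * Q ^ (δ / (2 * n)) * (3 * W + 2 * W) := by gcongr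
        _ = 5 * Cτ * (Q ^ (δ / (2 * n)) * W) := by ring
        _ = _ := by
            rw [hW, ← Real.rpow_add hQpos]
            congr 2
            field_simp
            ring
    have h4 : 0 < (6 * Cτ * c + 16 * (4 ^ n + 1)) * Q ^ ((1 - δ / 2) / n) := by positivity
    have h5 : (5 * Cτ + 6 * Cτ * c + 16 * (4 ^ n + 1)) * Q ^ ((1 - δ / 2) / n) =
      5 * Cτ * Q ^ ((1 - δ / 2) / n) + (6 * Cτ * c + 16 * (4 ^ n + 1)) * Q ^ ((1 - δ / 2) / n) := by ring
    linarith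
  have hfin : (𝓜.card : ℝ) ≤ 6 * Cτ * c * ((χ.conductor : ℝ) ^ (1 / 2 : ℝ) *
      Q ^ (-(2 / (n : ℝ)) + ε)) := by
    calc (𝓜.card : ℝ) ≤ (((q.divisors.filter (fun d : ℕ => (d : ℝ) ≤ D)).biUnion fun d =>
            𝓜.filter fun M => ∃ N' : ℕ, (N' : ℝ) ≤ L ∧
            3 * W ≤ ‖shortSum χ.primitiveCharacter (M / (d : ℤ)) N'‖).card : ℝ) := by
          exact_mod_cast Finset.card_le_card hsub
      _ ≤ ∑ d ∈ q.divisors.filter (fun d : ℕ => (d : ℝ) ≤ D), ((𝓜.filter fun M =>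
            ∃ N' : ℕ, (N' : ℝ) ≤ L ∧
            3 * W ≤ ‖shortSum χ.primitiveCharacter (M / (d : ℤ)) N'‖).card : ℝ) := by
          exact_mod_cast Finset.card_biUnion_le
      _ ≤ ∑ _d ∈ q.divisors.filter (fun d : ℕ => (d : ℝ) ≤ D),
            6 * D * (c * ((χ.conductor : ℝ) ^ (1 / 2 : ℝ) * Q ^ (-(2 / (n : ℝ)) + ε / 4))) := Finset.sum_le_sum hcls
      _ = ((q.divisors.filter (fun d : ℕ => (d : ℝ) ≤ D)).card : ℝ) *
            (6 * D * (c * ((χ.conductor : ℝ) ^ (1 / 2 : ℝ) * Q ^ (-(2 / (n : ℝ)) + ε / 4)))) := by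
          rw [Finset.sum_const, nsmul_eq_mul]
      _ ≤ τ * (6 * D * (c * ((χ.conductor : ℝ) ^ (1 / 2 : ℝ) * Q ^ (-(2 / (n : ℝ)) + ε / 4)))) := by
          have : ((q.divisors.filter (fun d : ℕ => (d : ℝ) ≤ D)).card : ℝ) ≤ τ := by
            rw [hτdef]
            exact_mod_cast Finset.card_filter_le _ _
          gcongr
      _ ≤ Cτ * Q ^ (δ / (2 * n)) * (6 * D * (c * ((χ.conductor : ℝ) ^ (1 / 2 : ℝ) * Q ^ (-(2 / (n : ℝ)) + ε / 4)))) := by
          gcongr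
      _ = 6 * Cτ * c * ((χ.conductor : ℝ) ^ (1 / 2 : ℝ) *
            (Q ^ (δ / (2 * n)) * Q ^ (δ / n) * Q ^ (-(2 / (n : ℝ)) + ε / 4))) := by
          rw [hD]; ring
      _ ≤ 6 * Cτ * c * ((χ.conductor : ℝ) ^ (1 / 2 : ℝ) * Q ^ (-(2 / (n : ℝ)) + ε)) := by
          rw [← Real.rpow_add hQpos, ← Real.rpow_add hQpos]
          apply mul_le_mul_of_nonneg_left _ (by positivity)
          apply mul_le_mul_of_nonneg_left _ (by positivity)
          apply Real.rpow_le_rpow_of_exponent_le hQ1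
          have e : δ / (2 * n) + δ / n = (3 / 2 * δ) / n := by field_simp; ring
          have h1 : (3 / 2 * δ) / n ≤ ε / 2 := by
            rw [div_le_iff₀ hn1]
            nlinarith
          linarith
  refine hfin.trans ?_
  apply mul_le_mul_of_nonneg_right _ hbig0
  have : (0 : ℝ) < 16 * (4 ^ n + 1) := by positivity
  have : 0 ≤ 5 * Cτ := by positivity
  linarith

end Pool.Agent.Work.LV
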