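import Pool.Agent.Work.LV.MCount
import Pool.Agent.Work.MP_081200_nt.Div

/-!
# Block M: the `2r`-th moment for primitive cubic characters of any modulus
-/

set_option autoImplicit false

namespace Pool.Agent.Work.LV.M

open Finset Polynomial Pool.Agent.Work.LV

/-- The exponents: `1` for `χ`, `2` for `conj χ = χ ^ 2`. -/
def ee (r : ℕ) : Fin r ⊕ Fin r → ℕ := Sum.elim (fun _ => 1) (fun _ => 2)

lemma sum_ee (r : ℕ) : ∑ i, ee r i = 3 * r := by
  simp [ee, Fintype.sum_sum_type]; ring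

lemma conj_cubic {q : ℕ} [NeZero q] (χ : DirichletCharacter ℂ q) (hχ : χ ^ 3 = 1) (y : ZMod q) :
    (starRingEnd ℂ) (χ y) = χ y ^ 2 := by
  by_cases hy : IsUnit y
  · have h1 : χ y ^ 3 = 1 := by
      rw [← MulChar.pow_apply' _ (by norm_num), hχ, MulChar.one_apply hy]
    have h2 : ‖χ y‖ = 1 := DirichletCharacter.unit_norm_eq_one χ hy.unit
    have h3 : χ y * (starRingEnd ℂ) (χ y) = 1 := by
      rw [Complex.mul_conj, Complex.normSq_eq_norm_sq, h2]; simp
    have h4 : χ y ≠ 0 := fun h => by rw [h] at h3; simp at h3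
    apply mul_left_cancel₀ h4
    rw [h3, ← h1]; ring
  · rw [MulChar.map_nonunit _ hy]; simp

lemma moment_expand (r : ℕ) (q : ℕ) [NeZero q] (χ : DirichletCharacter ℂ q) (hχ : χ ^ 3 = 1)
    (B : ℕ) :
    ((∑ x : ZMod q, TT χ B x ^ (2 * r) : ℝ) : ℂ) =
      ∑ h ∈ Fintype.piFinset (fun _ : Fin r ⊕ Fin r => Icc 1 B),
        ∑ x : ZMod q, χ (RR (ee r) h x) := by
  rw [sum_comm]
  push_cast
  apply sum_congr rfl
  intro x _
  have h1 : ((TT χ B x ^ (2 * r) : ℝ) : ℂ) =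
      ∏ i : Fin r ⊕ Fin r, ∑ b ∈ Icc 1 B, χ (x + (b : ZMod q)) ^ ee r i := by
    rw [Fintype.prod_sum_type]
    simp only [ee, Sum.elim_inl, Sum.elim_inr, pow_one, prod_const, card_univ, Fintype.card_fin]
    have h2 : ∑ b ∈ Icc 1 B, χ (x + (b : ZMod q)) ^ 2 =
        (starRingEnd ℂ) (∑ b ∈ Icc 1 B, χ (x + (b : ZMod q))) := by
      rw [map_sum]
      exact sum_congr rfl fun b _ => (conj_cubic χ hχ _).symm
    rw [h2, ← mul_pow, Complex.mul_conj, Complex.normSq_eq_norm_sq, TT, pow_mul]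
    push_cast
    rfl
  push_cast at h1
  rw [h1, prod_univ_sum]
  apply sum_congr rfl
  intro h _
  rw [RR, map_prod]
  apply prod_congr rfl
  intro i _
  rw [map_pow]

lemma omega_bound (K : ℝ) (hK : 1 ≤ K) (ε : ℝ) (hε : 0 < ε) :
    ∃ C : ℝ, 1 ≤ C ∧ ∀ q : ℕ, q ≠ 0 → K ^ q.primeFactors.card ≤ C * (q : ℝ) ^ ε := by
  obtain ⟨k, hk⟩ := pow_unbounded_of_one_lt K (by norm_num : (1 : ℝ) < 2)
  obtain ⟨C, hC1, hC⟩ := Pool.Agent.Work.MP_081200_nt.div_bound (ε / (k + 1)) (by positivity)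
  refine ⟨C ^ (k + 1), one_le_pow₀ hC1, fun q hq => ?_⟩
  have h1 : (2 : ℝ) ^ q.primeFactors.card ≤ q.divisors.card := by
    have h2 : 2 ^ q.primeFactors.card ≤ q.divisors.card := by
      rw [Nat.card_divisors hq, ← prod_const]
      apply prod_le_prod'
      intro p hp
      have := (Nat.Prime.factorization_pos_of_dvd (Nat.prime_of_mem_primeFactors hp) hq
        (Nat.dvd_of_mem_primeFactors hp))
      omega
    exact_mod_cast h2
  have hq0 : (0 : ℝ) ≤ q := Nat.cast_nonneg q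
  calc K ^ q.primeFactors.card ≤ ((2 : ℝ) ^ (k + 1)) ^ q.primeFactors.card := by
        apply pow_le_pow_left₀ (by linarith)
        refine hk.le.trans ?_
        exact pow_le_pow_right₀ (by norm_num) (by omega)
    _ = ((2 : ℝ) ^ q.primeFactors.card) ^ (k + 1) := by rw [← pow_mul, ← pow_mul, mul_comm]
    _ ≤ (C * (q : ℝ) ^ (ε / (k + 1))) ^ (k + 1) :=
        pow_le_pow_left₀ (by positivity) (h1.trans (hC q hq)) _
    _ = C ^ (k + 1) * (q : ℝ) ^ ε := by
        rw [mul_pow, ← Real.rpow_natCast ((q : ℝ) ^ (ε / (k + 1))), ← Real.rpow_mul hq0]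
        congr 2
        push_cast
        field_simp

theorem stmt_M (hW : Stmt_W) : Stmt_M := by
  classical
  intro r hr ε hε
  obtain ⟨C₀, hC₀, hWC⟩ := hW (3 * r)
  set C₁ : ℝ := max C₀ 1 with hC₁
  have hC₁1 : 1 ≤ C₁ := le_max_right _ _
  have hWB : WB (∑ i, ee r i) C₁ := by
    intro p _ χ h3 h1 F hF hα
    rw [sum_ee] at hF
    exact (hWC p χ h3 h1 F hF hα).trans
      (mul_le_mul_of_nonneg_right (le_max_left _ _) (Real.sqrt_nonneg _))
  set K : ℝ := C₁ * (2 * (2 * r)) with hK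
  have hr1 : (1 : ℝ) ≤ r := by exact_mod_cast hr
  have hK1 : 1 ≤ K := by rw [hK]; nlinarith
  obtain ⟨C₂, hC₂, hom⟩ := omega_bound K hK1 ε hε
  refine ⟨(2 * r) ^ (2 * r) + 9 * (2 * r) * C₂, by positivity, ?_⟩
  intro q _ χ hprim hχ3 B
  have hq : q ≠ 0 := NeZero.ne q
  have hq0 : (0 : ℝ) ≤ q := Nat.cast_nonneg q
  set H := Fintype.piFinset (fun _ : Fin r ⊕ Fin r => Icc 1 B) with hH
  set G : ((Fin r ⊕ Fin r) → ℕ) → ℂ := fun h => ∑ x : ZMod q, χ (RR (ee r) h x) with hG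
  have hI : Fintype.card (Fin r ⊕ Fin r) = 2 * r := by
    rw [Fintype.card_sum, Fintype.card_fin]; ring
  set Deg : ((Fin r ⊕ Fin r) → ℕ) → Prop := fun h =>
    ∀ i₀, 3 ∣ ∑ i, if h i = h i₀ then ee r i else 0 with hDeg
  have hexp : ∑ x : ZMod q, TT χ B x ^ (2 * r) = ‖∑ h ∈ H, G h‖ := by
    rw [← moment_expand r q χ hχ3 B, Complex.norm_real, Real.norm_of_nonneg]
    exact sum_nonneg fun x _ => pow_nonneg (norm_nonneg _) _
  rw [hexp]
  have h1 : ‖∑ h ∈ H, G h‖ ≤ ∑ h ∈ H.filter Deg, ‖G h‖ + ∑ h ∈ H.filter (fun h => ¬ Deg h), ‖G h‖ := by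
    rw [sum_filter_add_sum_filter_not]
    exact norm_sum_le _ _
  have hdeg : ∑ h ∈ H.filter Deg, ‖G h‖ ≤ (2 * r) ^ (2 * r) * (B : ℝ) ^ r * q := by
    have h2 : ∀ h ∈ H.filter Deg, ‖G h‖ ≤ (q : ℝ) := fun h _ => trivial_bound _ _ q χ
    refine (sum_le_card_nsmul _ _ _ h2).trans ?_
    rw [nsmul_eq_mul]
    apply mul_le_mul_of_nonneg_right _ hq0
    have h3 := card_twice r B hI hr Deg ?_
    · exact_mod_cast h3
    · intro h hh i
      by_contra hcon
      push Not at hcon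
      have h4 := hh i
      have h5 : ∑ j, (if h j = h i then ee r j else 0) = ee r i := by
        rw [sum_eq_single i]
        · simp
        · intro j _ hji
          rw [if_neg (hcon j hji)]
        · intro h; exact absurd (mem_univ i) h
      rw [h5] at h4
      rcases i with i | i <;> simp [ee] at h4
  have hnon : ∑ h ∈ H.filter (fun h => ¬ Deg h), ‖G h‖ ≤
      9 * (2 * r) * K ^ q.primeFactors.card * Real.sqrt q * (B : ℝ) ^ (2 * r) := by
    set c : ℝ := 9 * C₁ ^ q.primeFactors.card * Real.sqrt q with hc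
    have hc0 : 0 ≤ c := by positivity
    have h2 : ∀ h ∈ H.filter (fun h => ¬ Deg h), ‖G h‖ ≤ ∑ i₀ : Fin r ⊕ Fin r, c *
        ∑ S ∈ q.primeFactors.powerset, if (∀ p ∈ S, Bad h i₀ p) then Real.sqrt (∏ p ∈ S, p : ℕ)
          else 0 := by
      intro h hh
      rw [mem_filter] at hh
      obtain ⟨-, hh⟩ := hh
      rw [hDeg] at hh
      push Not at hh
      obtain ⟨i₀, hi₀⟩ := hh
      refine (G_bound' (ee r) h i₀ C₁ hC₁1 hWB hi₀ q χ hprim hχ3).trans ?_
      apply single_le_sum (f := fun i₀ : Fin r ⊕ Fin r => c *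
        ∑ S ∈ q.primeFactors.powerset, if (∀ p ∈ S, Bad h i₀ p) then Real.sqrt (∏ p ∈ S, p : ℕ)
          else 0) _ (mem_univ i₀)
      intro i _
      apply mul_nonneg hc0
      apply sum_nonneg
      intro S _
      split_ifs
      · exact Real.sqrt_nonneg _
      · exact le_rfl
    refine (sum_le_sum h2).trans ?_
    rw [sum_comm]
    have h3 : ∀ i₀ : Fin r ⊕ Fin r, ∑ h ∈ H.filter (fun h => ¬ Deg h), c *
        ∑ S ∈ q.primeFactors.powerset, (if (∀ p ∈ S, Bad h i₀ p) then Real.sqrt (∏ p ∈ S, p : ℕ)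
          else 0) ≤ c * ((2 * (2 * r)) ^ q.primeFactors.card * (B : ℝ) ^ (2 * r)) := by
      intro i₀
      rw [← mul_sum]
      apply mul_le_mul_of_nonneg_left _ hc0
      rw [sum_comm]
      have h4 : ∀ S ∈ q.primeFactors.powerset, ∑ h ∈ H.filter (fun h => ¬ Deg h),
          (if (∀ p ∈ S, Bad h i₀ p) then Real.sqrt (∏ p ∈ S, p : ℕ) else 0) ≤
          (2 * r : ℝ) ^ q.primeFactors.card * (B : ℝ) ^ (2 * r) := by
        intro S hS
        rw [mem_powerset] at hS
        have hSp : ∀ p ∈ S, p.Prime := fun p hp => Nat.prime_of_mem_primeFactors (hS hp)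
        have hD : (1 : ℝ) ≤ (∏ p ∈ S, p : ℕ) := by
          exact_mod_cast Nat.one_le_iff_ne_zero.2 (prod_pos fun p hp => (hSp p hp).pos).ne'
        have h5 : ∑ h ∈ H.filter (fun h => ¬ Deg h),
            (if (∀ p ∈ S, Bad h i₀ p) then Real.sqrt (∏ p ∈ S, p : ℕ) else 0) ≤
            ∑ h ∈ H, (if (∀ p ∈ S, Bad h i₀ p) then Real.sqrt (∏ p ∈ S, p : ℕ) else 0) := by
          apply sum_le_sum_of_subset_of_nonneg (filter_subset _ _)
          intro h _ _
          split_ifs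
          · exact Real.sqrt_nonneg _
          · exact le_rfl
        refine h5.trans ?_
        rw [← sum_filter, sum_const, nsmul_eq_mul]
        have h6 := card_bad i₀ B S hSp (fun h => ∀ p ∈ S, Bad h i₀ p) (fun h hh => hh)
        rw [hI] at h6
        calc _ ≤ ((2 * r : ℕ) : ℝ) ^ S.card * (B : ℝ) ^ (2 * r) / (∏ p ∈ S, p : ℕ)
              * Real.sqrt (∏ p ∈ S, p : ℕ) :=
              mul_le_mul_of_nonneg_right h6 (Real.sqrt_nonneg _)
          _ ≤ ((2 * r : ℕ) : ℝ) ^ S.card * (B : ℝ) ^ (2 * r) := by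
              rw [div_mul_eq_mul_div]
              apply div_le_of_le_mul₀ (by positivity) (by positivity)
              apply mul_le_mul_of_nonneg_left _ (by positivity)
              rw [Real.sqrt_le_left (by positivity)]
              nlinarith
          _ ≤ _ := by
              push_cast
              apply mul_le_mul_of_nonneg_right _ (by positivity)
              exact pow_le_pow_right₀ (by linarith) (card_le_card hS)
      refine (sum_le_card_nsmul _ _ _ h4).trans (le_of_eq ?_)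
      rw [card_powerset, nsmul_eq_mul, mul_pow 2 (2 * (r : ℝ))]
      push_cast
      ring
    refine (sum_le_sum fun i₀ _ => h3 i₀).trans (le_of_eq ?_)
    rw [sum_const, card_univ, hI, nsmul_eq_mul, hc, hK, mul_pow C₁]
    push_cast
    ring
  have hfin : K ^ q.primeFactors.card * Real.sqrt q ≤ C₂ * (q : ℝ) ^ (1 / 2 + ε) := by
    rw [Real.rpow_add' hq0 (by positivity), ← Real.sqrt_eq_rpow, mul_comm (Real.sqrt q), ← mul_assoc]
    exact mul_le_mul_of_nonneg_right (hom q hq) (Real.sqrt_nonneg _)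
  have hB0 : (0 : ℝ) ≤ (B : ℝ) ^ (2 * r) := by positivity
  have hB1 : (0 : ℝ) ≤ (B : ℝ) ^ r := by positivity
  have hX : 0 ≤ (q : ℝ) ^ (1 / 2 + ε) := by positivity
  calc ‖∑ h ∈ H, G h‖ ≤ (2 * r) ^ (2 * r) * (B : ℝ) ^ r * q +
        9 * (2 * r) * K ^ q.primeFactors.card * Real.sqrt q * (B : ℝ) ^ (2 * r) := by linarith
    _ ≤ (2 * r) ^ (2 * r) * (B : ℝ) ^ r * q +
        9 * (2 * r) * (C₂ * (q : ℝ) ^ (1 / 2 + ε)) * (B : ℝ) ^ (2 * r) := by
        have : 9 * (2 * (r : ℝ)) * K ^ q.primeFactors.card * Real.sqrt q * (B : ℝ) ^ (2 * r)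
          = 9 * (2 * r) * (K ^ q.primeFactors.card * Real.sqrt q) * (B : ℝ) ^ (2 * r) := by ring
        rw [this]
        gcongr
    _ ≤ _ := by
        have e1 : 0 ≤ (2 * (r : ℝ)) ^ (2 * r) * ((B : ℝ) ^ (2 * r) * (q : ℝ) ^ (1 / 2 + ε)) := by
          positivity
        have e2 : 0 ≤ 9 * (2 * (r : ℝ)) * C₂ * ((B : ℝ) ^ r * q) := by positivity
        nlinarith

end Pool.Agent.Work.LV.M
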