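import Pool.Agent.Work.LV.W2

/-!
# Block W: the Weil bound for cubic characters
-/

namespace Pool.Agent.Work.LV

open Finset Polynomial

variable {p : ℕ} [Fact p.Prime]

/-- The counting bound with explicit parameters, `s = Nat.sqrt p`. -/
theorem count_params {f : (ZMod p)[X]} {d m s t : ℕ} (hd : f.natDegree ≤ d) (hf0 : f.eval 0 ≠ 0)
    {α : ZMod p} (hα : ¬ 3 ∣ f.rootMultiplicity α) (hm : 3 * m + 1 = p)
    (hs : s * s ≤ p) (ht : t = 5 * d + 4) (hst : 3 * t + 2 * d + 1 ≤ s) (a : ZMod p) :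
    3 * s * (univ.filter fun x : ZMod p => f.eval x ^ m = a).card ≤
      s * p + (1 + d + t) * p + 3 * s * d := by
  obtain ⟨D, hD1, hD2⟩ : ∃ D, 2 * d + 3 * D < p ∧ p ≤ 3 * (D + 1) + 2 * d := by
    have h1 : s ≤ s * s := Nat.le_mul_self s
    exact ⟨(p - 2 * d - 1) / 3, by omega, by omega⟩
  have h1 : s ≤ s * s := Nat.le_mul_self s
  have h3s : 3 * s ≤ s * s := Nat.mul_le_mul_right s (by omega)
  have hsum : ∑ k ∈ range (3 * s), (D + k * d + (s + t)) < 3 * (s + t) * (D + 1) := by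
    have e1 : 2 * ∑ k ∈ range (3 * s), (D + k * d + (s + t)) ≤
        2 * (3 * s * (D + (s + t))) + 3 * s * (3 * s) * d := by
      have e2 : ∑ k ∈ range (3 * s), (D + k * d + (s + t)) =
          3 * s * (D + (s + t)) + (∑ k ∈ range (3 * s), k) * d := by
        rw [Finset.sum_mul, ← smul_eq_mul (3 * s), ← Finset.card_range (3 * s),
          ← Finset.sum_const, Finset.card_range, ← Finset.sum_add_distrib]
        apply Finset.sum_congr rfl
        intro k _
        ring
      have e3 : (∑ k ∈ range (3 * s), k) * 2 ≤ 3 * s * (3 * s) := by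
        rw [Finset.sum_range_id_mul_two]
        exact Nat.mul_le_mul_left _ (Nat.sub_le _ _)
      rw [e2]
      nlinarith
    have e4 : 3 * D ≤ p := by omega
    have key : 2 * (3 * s * (D + (s + t))) + 3 * s * (3 * s) * d < 2 * (3 * (s + t) * (D + 1)) := by
      -- s * 3 D + 3 s (s+t) + 4.5 d s^2 < (s + t) 3 (D + 1)
      have f1 : 3 * (D + 1) + 2 * d ≥ s * s := by omega
      have f2 : t * (s * s) ≤ t * (3 * (D + 1) + 2 * d) := Nat.mul_le_mul_left _ f1
      -- need : 6 s (s+t) + 9 d s^2 < 6 s + 6 t (D+1)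
      have f3 : 6 * s * (s + t) + 9 * d * (s * s) + 4 * d * t < 6 * s + 2 * t * (s * s) := by
        subst ht
        -- 2 t s^2 = (10 d + 8) s^2
        have g1 : s * (3 * (5 * d + 4) + 2 * d + 1) ≤ s * s := Nat.mul_le_mul_left s hst
        have g2 : (5 * d + 4) * d ≤ s * d := Nat.mul_le_mul_right d (by omega)
        nlinarith
      nlinarith
    omega
  have h2 := stepanov_count (ℓ := 3 * s) (J := s + t) hd hf0 hα hm hD1 (by omega) (by omega)
    hsum a
  refine h2.trans ?_
  have h4 : D ≤ p := by omega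
  have h5 : 2 * m ≤ p := by omega
  have h6 : (s + t - 1) * p ≤ (s + t) * p := Nat.mul_le_mul_right _ (by omega)
  have h7 : 2 * m * d ≤ p * d := Nat.mul_le_mul_right _ h5
  nlinarith

/-- Real form of the counting bound. -/
theorem count_real {f : (ZMod p)[X]} {d m : ℕ} (hd : f.natDegree ≤ d) (hf0 : f.eval 0 ≠ 0)
    {α : ZMod p} (hα : ¬ 3 ∣ f.rootMultiplicity α) (hm : 3 * m + 1 = p)
    (hp : 17 * d + 13 ≤ Nat.sqrt p) (a : ZMod p) :
    ((univ.filter fun x : ZMod p => f.eval x ^ m = a).card : ℝ) ≤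
      p / 3 + (8 * d + 5) * Real.sqrt p := by
  set s := Nat.sqrt p with hs
  have h1 := count_params (t := 5 * d + 4) hd hf0 hα hm (Nat.sqrt_le p) rfl
    (by omega) a
  rw [← hs] at h1
  set N := (univ.filter fun x : ZMod p => f.eval x ^ m = a).card with hN
  have h2 : (3 * s * N : ℝ) ≤ s * p + (6 * d + 5) * p + 3 * s * d := by
    have : ((3 * s * N : ℕ) : ℝ) ≤ ((s * p + (1 + d + (5 * d + 4)) * p + 3 * s * d : ℕ) : ℝ) := by
      exact_mod_cast h1
    push_cast at this
    nlinarith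
  have hs0 : (0 : ℝ) < s := by
    have : 0 < s := by omega
    exact_mod_cast this
  have hsq : Real.sqrt p ≤ 2 * s := by
    rw [Real.sqrt_le_left (by positivity)]
    have h3 := Nat.lt_succ_sqrt p
    rw [← hs] at h3
    have h4 : p ≤ (2 * s) * (2 * s) := by
      have : s + 1 ≤ 2 * s := by omega
      have := Nat.mul_le_mul this this
      rw [Nat.succ_eq_add_one] at h3
      omega
    have h5 : (p : ℝ) ≤ ((2 * s) * (2 * s) : ℕ) := by exact_mod_cast h4
    push_cast at h5
    nlinarith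
  have hp1 : (1 : ℝ) ≤ Real.sqrt p := by
    rw [Real.one_le_sqrt]
    exact_mod_cast (Fact.out : p.Prime).one_lt.le
  have hpp : (p : ℝ) = Real.sqrt p * Real.sqrt p := (Real.mul_self_sqrt (by positivity)).symm
  have h6 : (p : ℝ) ≤ Real.sqrt p * (2 * s) := by
    conv_lhs => rw [hpp]
    exact mul_le_mul_of_nonneg_left hsq (Real.sqrt_nonneg _)
  have h7 : (3 * s : ℝ) * N ≤ (3 * s) * (p / 3 + (8 * d + 5) * Real.sqrt p) := by
    have hd0 : (0 : ℝ) ≤ d := Nat.cast_nonneg d
    have h8 : (6 * d + 5 : ℝ) * p ≤ (6 * d + 5) * (Real.sqrt p * (2 * s)) :=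
      mul_le_mul_of_nonneg_left h6 (by positivity)
    have h9 : (3 * s * d : ℝ) ≤ 3 * s * d * Real.sqrt p := by
      have : (0 : ℝ) ≤ 3 * s * d := by positivity
      nlinarith
    have h10 : (0 : ℝ) ≤ s * Real.sqrt p * d := by positivity
    have h11 : (0 : ℝ) ≤ s * Real.sqrt p := by positivity
    nlinarith
  exact le_of_mul_le_mul_left h7 (by positivity)

section char

/-- In a cyclic group of order `3 m` the elements killed by `m` are cubes. -/
theorem cube_of_pow {m : ℕ} (hm : 3 * m + 1 = p) (y : (ZMod p)ˣ) (hy : y ^ m = 1) :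
    ∃ z : (ZMod p)ˣ, z ^ 3 = y := by
  obtain ⟨g, hg⟩ := IsCyclic.exists_generator (α := (ZMod p)ˣ)
  have hord : orderOf g = 3 * m := by
    rw [orderOf_eq_card_of_forall_mem_zpowers hg, Nat.card_eq_fintype_card, ZMod.card_units]
    omega
  obtain ⟨k, hk⟩ := (mem_powers_iff_mem_zpowers.mpr (hg y))
  have hk' : g ^ k = y := hk
  have hm0 : 0 < m := by
    rcases Nat.eq_zero_or_pos m with h | h
    · subst h
      exact absurd (Fact.out : p.Prime) (by rw [← hm]; norm_num)
    · exact h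
  have h1 : g ^ (k * m) = 1 := by rw [pow_mul, hk', hy]
  have h2 : 3 * m ∣ k * m := by rw [← hord]; exact orderOf_dvd_of_pow_eq_one h1
  obtain ⟨c, hc⟩ := Nat.dvd_of_mul_dvd_mul_right hm0 h2
  exact ⟨g ^ c, by rw [← pow_mul, mul_comm, ← hc, hk']⟩

variable {χ : MulChar (ZMod p) ℂ}

theorem exists_m (h3 : χ ^ 3 = 1) (h1 : χ ≠ 1) : ∃ m, 3 * m + 1 = p := by
  have hord : orderOf χ = 3 := orderOf_eq_prime h3 h1
  have h2 := MulChar.pow_card_eq_one χ
  have h4 : 3 ∣ Fintype.card (ZMod p)ˣ := by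
    rw [← hord]; exact orderOf_dvd_of_pow_eq_one h2
  rw [ZMod.card_units] at h4
  obtain ⟨m, hm⟩ := h4
  have := (Fact.out : p.Prime).one_lt
  exact ⟨m, by omega⟩

/-- The character as a function of the `m`-th power. -/
theorem char_struct (h3 : χ ^ 3 = 1) (h1 : χ ≠ 1) {m : ℕ} (hm : 3 * m + 1 = p) :
    ∃ (ω : ℂ) (ζ : ZMod p), ω ^ 3 = 1 ∧ ω ≠ 1 ∧ ζ ^ 3 = 1 ∧ ζ ≠ 1 ∧
      ∀ y : ZMod p, y ≠ 0 → ∀ k : ℕ, y ^ m = ζ ^ k → χ y = ω ^ k := by
  obtain ⟨u, hu⟩ : ∃ u : (ZMod p)ˣ, χ u ≠ 1 := by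
    by_contra hcon
    push Not at hcon
    apply h1
    ext u
    rw [hcon u, MulChar.one_apply_coe]
  have hcube : ∀ z : (ZMod p)ˣ, χ ((z ^ 3 : (ZMod p)ˣ) : ZMod p) = 1 := by
    intro z
    have h4 : (χ ^ 3) (z : ZMod p) = 1 := by rw [h3, MulChar.one_apply_coe]
    rw [MulChar.pow_apply_coe] at h4
    rw [Units.val_pow_eq_pow_val, map_pow, h4]
  have hpow : ∀ y : (ZMod p)ˣ, (y ^ m) ^ 3 = 1 := by
    intro y
    rw [← pow_mul, mul_comm]
    have := pow_card_eq_one (x := y)
    rw [ZMod.card_units] at this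
    rw [show 3 * m = p - 1 by omega]
    exact this
  refine ⟨χ u, ((u ^ m : (ZMod p)ˣ) : ZMod p), ?_, hu, ?_, ?_, ?_⟩
  · rw [← MulChar.pow_apply_coe, h3, MulChar.one_apply_coe]
  · rw [← Units.val_pow_eq_pow_val, hpow, Units.val_one]
  · intro h
    have h5 : u ^ m = 1 := Units.ext h
    obtain ⟨z, hz⟩ := cube_of_pow hm u h5
    apply hu
    rw [← hz]
    exact hcube z
  · intro y hy k hk
    set y' : (ZMod p)ˣ := Units.mk0 y hy with hy'
    have h5 : (y' * (u ^ k)⁻¹) ^ m = 1 := by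
      rw [mul_pow, inv_pow, mul_inv_eq_one]
      apply Units.ext
      rw [Units.val_pow_eq_pow_val, hy', Units.val_mk0, hk, ← pow_mul, mul_comm k m, pow_mul]
      rfl
    obtain ⟨z, hz⟩ := cube_of_pow hm _ h5
    have h6 : χ ((y' * (u ^ k)⁻¹ : (ZMod p)ˣ) : ZMod p) = 1 := by rw [← hz]; exact hcube z
    have h7 : y = ((y' * (u ^ k)⁻¹ : (ZMod p)ˣ) : ZMod p) * (u : ZMod p) ^ k := by
      rw [← Units.val_pow_eq_pow_val, ← Units.val_mul, inv_mul_cancel_right, hy', Units.val_mk0]
    rw [h7, map_mul, map_pow, h6, one_mul]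

theorem omega_sum {K : Type} [Field K] {ω : K} (h3 : ω ^ 3 = 1) (h1 : ω ≠ 1) :
    1 + ω + ω ^ 2 = 0 := by
  have h : (ω - 1) * (1 + ω + ω ^ 2) = 0 := by linear_combination h3
  exact (mul_eq_zero.mp h).resolve_left (sub_ne_zero.mpr h1)

/-- The main estimate for large `p` when `f(0) ≠ 0`. -/
theorem weil_large (h3 : χ ^ 3 = 1) (h1 : χ ≠ 1) {f : (ZMod p)[X]} {d : ℕ}
    (hd : f.natDegree ≤ d) (hf0 : f.eval 0 ≠ 0) {α : ZMod p} (hα : ¬ 3 ∣ f.rootMultiplicity α)
    (hp : 17 * d + 13 ≤ Nat.sqrt p) :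
    ‖∑ x : ZMod p, χ (f.eval x)‖ ≤ 3 * (2 * ((8 * d + 5) * Real.sqrt p) + d) := by
  classical
  obtain ⟨m, hm⟩ := exists_m h3 h1
  obtain ⟨ω, ζ, hω3, hω1, hζ3, hζ1, hχ⟩ := char_struct h3 h1 hm
  have hm0 : m ≠ 0 := by
    rintro rfl
    exact absurd (Fact.out : p.Prime) (by rw [← hm]; norm_num)
  have hζ0 : ζ ≠ 0 := by rintro rfl; simp at hζ3
  have hf : f ≠ 0 := by rintro rfl; simp at hf0
  set N : ℕ → ℕ := fun k => (univ.filter fun x : ZMod p => f.eval x ^ m = ζ ^ k).card with hN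
  have hsumζ := omega_sum hζ3 hζ1
  have hζ2 : ζ ^ 2 ≠ 1 := by
    intro h
    apply hζ1
    calc ζ = ζ * ζ ^ 2 := by rw [h, mul_one]
      _ = ζ ^ 3 := by ring
      _ = 1 := hζ3
  have hζ12 : ζ ≠ ζ ^ 2 := by
    intro h
    apply hζ1
    have h2 : ζ * ζ = ζ * 1 := by rw [mul_one, ← pow_two]; exact h.symm
    exact mul_left_cancel₀ hζ0 h2
  -- the three cases
  have hcase : ∀ y : ZMod p, y ≠ 0 → y ^ m = ζ ^ 0 ∨ y ^ m = ζ ^ 1 ∨ y ^ m = ζ ^ 2 := by
    intro y hy
    have h4 : (y ^ m) ^ 3 = 1 := by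
      rw [← pow_mul, mul_comm, show 3 * m = p - 1 by omega]
      exact ZMod.pow_card_sub_one_eq_one hy
    have h5 : (y ^ m - 1) * ((y ^ m - ζ) * (y ^ m - ζ ^ 2)) = 0 := by
      have h6 : ζ ^ 3 = 1 := hζ3
      linear_combination h4 - (y ^ m) * (y ^ m - 1) * hsumζ + (y ^ m - 1) * h6
    rcases mul_eq_zero.mp h5 with h | h
    · left; rw [pow_zero]; exact sub_eq_zero.mp h
    · rcases mul_eq_zero.mp h with h | h
      · right; left; rw [pow_one]; exact sub_eq_zero.mp h
      · right; right; exact sub_eq_zero.mp h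
  have hpt : ∀ x : ZMod p, χ (f.eval x) = ∑ k ∈ range 3,
      if f.eval x ^ m = ζ ^ k then ω ^ k else 0 := by
    intro x
    rw [Finset.sum_range_succ, Finset.sum_range_succ, Finset.sum_range_one]
    by_cases hy : f.eval x = 0
    · rw [hy, MulChar.map_zero, zero_pow hm0, if_neg, if_neg, if_neg]
      · ring
      · exact (pow_ne_zero _ hζ0).symm
      · exact (pow_ne_zero _ hζ0).symm
      · exact (pow_ne_zero _ hζ0).symm
    · rcases hcase _ hy with h | h | h
      · rw [hχ _ hy 0 h, if_pos h, if_neg, if_neg]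
        · ring
        · rw [h, pow_zero]; exact hζ2.symm
        · rw [h, pow_zero, pow_one]; exact hζ1.symm
      · rw [hχ _ hy 1 h, if_neg, if_pos h, if_neg]
        · ring
        · rw [h, pow_one]; exact hζ12
        · rw [h, pow_zero, pow_one]; exact hζ1
      · rw [hχ _ hy 2 h, if_neg, if_neg, if_pos h]
        · ring
        · rw [h, pow_one]; exact hζ12.symm
        · rw [h, pow_zero]; exact hζ2
  have hsum : ∑ x : ZMod p, χ (f.eval x) = ∑ k ∈ range 3, ω ^ k * (N k : ℂ) := by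
    rw [Finset.sum_congr rfl (fun x _ => hpt x), Finset.sum_comm]
    apply Finset.sum_congr rfl
    intro k _
    rw [← Finset.sum_filter, Finset.sum_const, nsmul_eq_mul, mul_comm]
  have hnz : (univ.filter fun x : ZMod p => f.eval x ≠ 0).card ≤ N 0 + N 1 + N 2 := by
    have hsub : (univ.filter fun x : ZMod p => f.eval x ≠ 0) ⊆
        ((univ.filter fun x : ZMod p => f.eval x ^ m = ζ ^ 0) ∪
          (univ.filter fun x : ZMod p => f.eval x ^ m = ζ ^ 1)) ∪
          (univ.filter fun x : ZMod p => f.eval x ^ m = ζ ^ 2) := by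
      intro x hx
      rw [Finset.mem_filter] at hx
      simp only [Finset.mem_union, Finset.mem_filter, Finset.mem_univ, true_and]
      rcases hcase _ hx.2 with h | h | h
      · exact Or.inl (Or.inl h)
      · exact Or.inl (Or.inr h)
      · exact Or.inr h
    refine (Finset.card_le_card hsub).trans ?_
    refine (Finset.card_union_le _ _).trans ?_
    exact Nat.add_le_add_right (Finset.card_union_le _ _) _
  have hz : (univ.filter fun x : ZMod p => f.eval x = 0).card ≤ d := by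
    have hsub : (univ.filter fun x : ZMod p => f.eval x = 0) ⊆ f.roots.toFinset := by
      intro x hx
      rw [Finset.mem_filter] at hx
      rw [Multiset.mem_toFinset, mem_roots hf]
      exact hx.2
    refine (Finset.card_le_card hsub).trans ((Multiset.toFinset_card_le _).trans ?_)
    exact (card_roots' f).trans hd
  have hcard : (univ.filter fun x : ZMod p => f.eval x = 0).card +
      (univ.filter fun x : ZMod p => f.eval x ≠ 0).card = p := by
    rw [Finset.card_filter_add_card_filter_not, Finset.card_univ, ZMod.card]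
  have hlow : (p : ℝ) - d ≤ N 0 + N 1 + N 2 := by
    have : p ≤ d + (N 0 + N 1 + N 2) := by omega
    have h' : (p : ℝ) ≤ ((d + (N 0 + N 1 + N 2) : ℕ) : ℝ) := by exact_mod_cast this
    push_cast at h'
    linarith
  have hup : ∀ k, (N k : ℝ) ≤ p / 3 + (8 * d + 5) * Real.sqrt p := fun k =>
    count_real hd hf0 hα hm hp _
  set E : ℝ := (8 * d + 5) * Real.sqrt p with hE
  have habs : ∀ k ∈ range 3, |(N k : ℝ) - p / 3| ≤ 2 * E + d := by
    intro k hk
    have u0 := hup 0
    have u1 := hup 1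
    have u2 := hup 2
    have hE0 : 0 ≤ E := by positivity
    have hd0 : (0 : ℝ) ≤ d := Nat.cast_nonneg d
    rw [Finset.mem_range] at hk
    rw [abs_le]
    interval_cases k <;> constructor <;> linarith
  have hsum2 : ∑ k ∈ range 3, ω ^ k * (N k : ℂ) =
      ∑ k ∈ range 3, ω ^ k * (((N k : ℝ) - p / 3 : ℝ) : ℂ) := by
    have hω := omega_sum hω3 hω1
    rw [Finset.sum_range_succ, Finset.sum_range_succ, Finset.sum_range_one,
      Finset.sum_range_succ, Finset.sum_range_succ, Finset.sum_range_one]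
    push_cast
    linear_combination (p / 3 : ℂ) * hω
  have hωn : ‖ω‖ = 1 := by
    have : ‖ω‖ ^ 3 = 1 := by rw [← norm_pow, hω3, norm_one]
    exact (pow_eq_one_iff_of_nonneg (norm_nonneg _) (by norm_num)).mp this
  rw [hsum, hsum2]
  refine (norm_sum_le _ _).trans ?_
  calc ∑ k ∈ range 3, ‖ω ^ k * (((N k : ℝ) - p / 3 : ℝ) : ℂ)‖
      ≤ ∑ k ∈ range 3, (2 * E + d) := by
        apply Finset.sum_le_sum
        intro k hk
        rw [norm_mul, norm_pow, hωn, one_pow, one_mul, Complex.norm_real]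
        exact habs k hk
    _ = 3 * (2 * E + d) := by rw [Finset.sum_const, Finset.card_range, nsmul_eq_mul]; push_cast; ring

end char

/-- **Block W.** -/
theorem stmt_W : Stmt_W := by
  intro d
  refine ⟨48 * d + 30 + 3 * d + (17 * d + 13), by positivity, ?_⟩
  intro p _ χ h3 h1 F hd ⟨α, hα⟩
  have hp1 : (1 : ℝ) ≤ Real.sqrt p := by
    rw [Real.one_le_sqrt]
    exact_mod_cast (Fact.out : p.Prime).one_lt.le
  have hd0 : (0 : ℝ) ≤ d := Nat.cast_nonneg d
  by_cases hp : 17 * d + 13 ≤ Nat.sqrt p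
  · -- translate
    have hF : F ≠ 0 := by rintro rfl; simp at hα
    have hdp : d < p := by
      have := Nat.sqrt_le_self p
      omega
    obtain ⟨t, ht⟩ : ∃ t : ZMod p, F.eval t ≠ 0 := by
      by_contra hcon
      push Not at hcon
      apply hF
      apply Polynomial.eq_zero_of_natDegree_lt_card_of_eval_eq_zero (ι := ZMod p) F
        (fun _ _ h => h) hcon
      rw [ZMod.card]
      omega
    have h4 := weil_large h3 h1 (f := F.comp (X + C t)) (d := d) (α := α - t)
      (by rw [natDegree_comp, natDegree_X_add_C, mul_one]; exact hd)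
      (by rw [eval_comp]; simpa using ht)
      (by
        rw [rootMultiplicity_eq_rootMultiplicity, comp_assoc]
        have : (X + C t : (ZMod p)[X]).comp (X + C (α - t)) = X + C α := by
          rw [add_comp, X_comp, C_comp, add_assoc, ← C_add, sub_add_cancel]
        rw [this, ← rootMultiplicity_eq_rootMultiplicity]
        exact hα) hp
    have h5 : ∑ x : ZMod p, χ ((F.comp (X + C t)).eval x) = ∑ x : ZMod p, χ (F.eval x) := by
      rw [← Equiv.sum_comp (Equiv.addRight t) (fun x => χ (F.eval x))]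
      apply Finset.sum_congr rfl
      intro x _
      rw [eval_comp]
      simp
    rw [h5] at h4
    refine h4.trans ?_
    nlinarith
  · have h4 : Real.sqrt p ≤ 17 * d + 13 := by
      rw [Real.sqrt_le_left (by positivity)]
      have h5 := Nat.lt_succ_sqrt p
      have h6 : Nat.sqrt p + 1 ≤ 17 * d + 13 := by omega
      have h7 := Nat.mul_le_mul h6 h6
      rw [Nat.succ_eq_add_one] at h5
      have h8 : p ≤ (17 * d + 13) * (17 * d + 13) := by omega
      have h9 : (p : ℝ) ≤ (((17 * d + 13) * (17 * d + 13) : ℕ) : ℝ) := by exact_mod_cast h8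
      push_cast at h9
      nlinarith
    have h5 : ‖∑ x : ZMod p, χ (F.eval x)‖ ≤ p := by
      refine (norm_sum_le _ _).trans ?_
      calc ∑ x : ZMod p, ‖χ (F.eval x)‖ ≤ ∑ x : ZMod p, (1 : ℝ) := by
            apply Finset.sum_le_sum
            intro x _
            exact DirichletCharacter.norm_le_one χ _
        _ = p := by rw [Finset.sum_const, Finset.card_univ, ZMod.card]; simp
    have h6 : (p : ℝ) = Real.sqrt p * Real.sqrt p := (Real.mul_self_sqrt (by positivity)).symm
    refine h5.trans ?_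
    calc (p : ℝ) = Real.sqrt p * Real.sqrt p := h6
      _ ≤ (17 * d + 13) * Real.sqrt p := mul_le_mul_of_nonneg_right h4 (Real.sqrt_nonneg _)
      _ ≤ _ := mul_le_mul_of_nonneg_right (by nlinarith) (Real.sqrt_nonneg _)

end Pool.Agent.Work.LV
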