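import Pool.Agent.Work.LV.A5
import Pool.Agent.Work.LV.E
import Pool.Agent.Work.LV.M
import Pool.Agent.Work.LV.W

/-!
# Assembly, part 6: windows
-/

namespace Pool.Agent.Work.LV

open Finset

theorem thmD (n : ℕ) (hn : 1 ≤ n) (ε : ℝ) (hε : 0 < ε) :
    ∃ δ : ℝ, 0 < δ ∧ ∃ c : ℝ, ∀ Q : ℝ, 1 ≤ Q → ∀ (q : ℕ) [NeZero q], (q : ℝ) ≤ Q →
      ∀ χ : DirichletCharacter ℂ q, χ ^ 3 = 1 → χ ≠ 1 →
        (∀ 𝓜 : Finset ℤ,
          (∀ M ∈ 𝓜, ∀ M' ∈ 𝓜, M ≠ M' → ∀ k : ℤ,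
            Q ^ (1 / (n : ℝ)) ≤ |(M : ℝ) - M' - k * χ.conductor|) →
          (∀ M ∈ 𝓜, ∃ N : ℕ, 1 ≤ N ∧ (N : ℝ) ≤ Q ^ (1 / (n : ℝ)) ∧
            c * Q ^ ((1 - δ) / n) < ‖∑ a ∈ Ioc M (M + N), χ (a : ZMod q)‖) →
          (𝓜.card : ℝ) ≤ c * ((χ.conductor : ℝ) ^ (1 / 2 : ℝ) * Q ^ (ε - 2 / n))) ∧
        (∀ (x : ℤ) (H : ℕ), Q ^ (1 / 2 - 1 / (n : ℝ) + ε) ≤ H →
          ({M : ℤ | x < M ∧ M ≤ x + H ∧ ∃ N : ℕ, 1 ≤ N ∧ (N : ℝ) ≤ Q ^ (1 / (n : ℝ)) ∧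
            c * Q ^ ((1 - δ) / n) < ‖∑ a ∈ Ioc M (M + N), χ (a : ZMod q)‖}.ncard : ℝ) ≤
            c * (Q ^ (-δ) * H)) := by
  classical
  have hn0 : (1 : ℝ) ≤ n := by exact_mod_cast hn
  have hn1 : (0 : ℝ) < n := by linarith
  obtain ⟨ε', hε'⟩ : ∃ ε' : ℝ, ε' = min (ε / 2) (1 / (2 * n)) := ⟨_, rfl⟩
  have hε'0 : 0 < ε' := by rw [hε']; exact lt_min (by positivity) (by positivity)
  have hε'1 : ε' ≤ ε / 2 := by rw [hε']; exact min_le_left _ _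
  have hε'2 : ε' ≤ 1 / (2 * n) := by rw [hε']; exact min_le_right _ _
  obtain ⟨δ₀, hδ₀, c₀, hc₀, hC⟩ := thmC (M.stmt_M stmt_W) stmt_E n hn ε' hε'0
  obtain ⟨δ, hδ⟩ : ∃ δ : ℝ, δ = min δ₀ ε' := ⟨_, rfl⟩
  have hδ0 : 0 < δ := by rw [hδ]; exact lt_min hδ₀ hε'0
  have hδ1 : δ ≤ δ₀ := by rw [hδ]; exact min_le_left _ _
  have hδ2 : δ ≤ ε' := by rw [hδ]; exact min_le_right _ _
  refine ⟨δ, hδ0, 8 * c₀, ?_⟩
  intro Q hQ1 q _ hqQ χ hcub hne1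
  have hQpos : 0 < Q := by linarith
  have hmono : ∀ a b : ℝ, a ≤ b → Q ^ a ≤ Q ^ b := fun a b h =>
    Real.rpow_le_rpow_of_exponent_le hQ1 h
  have hthr : c₀ * Q ^ ((1 - δ₀) / n) ≤ 8 * c₀ * Q ^ ((1 - δ) / n) := by
    have h1 : Q ^ ((1 - δ₀) / n) ≤ Q ^ ((1 - δ) / n) := by
      apply hmono
      apply div_le_div_of_nonneg_right _ hn1.le
      linarith
    calc c₀ * Q ^ ((1 - δ₀) / n) ≤ c₀ * Q ^ ((1 - δ) / n) := by gcongr
      _ ≤ 8 * c₀ * Q ^ ((1 - δ) / n) := by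
          apply mul_le_mul_of_nonneg_right _ (by positivity)
          linarith
  have hf0 : χ.conductor ≠ 0 := χ.conductor_ne_zero
  have hfq : χ.conductor ≤ q :=
    Nat.le_of_dvd (Nat.pos_of_ne_zero (NeZero.ne q)) χ.conductor_dvd_level
  have hfQ : (χ.conductor : ℝ) ≤ Q := le_trans (by exact_mod_cast hfq) hqQ
  have hfpos : (0 : ℝ) < χ.conductor := by exact_mod_cast Nat.pos_of_ne_zero hf0
  have hsepE : ∀ (L : ℝ) (𝓜 : Finset ℤ), Sep χ.conductor L 𝓜 ↔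
      ∀ M ∈ 𝓜, ∀ M' ∈ 𝓜, M ≠ M' → ∀ k : ℤ, L ≤ |(M : ℝ) - M' - k * χ.conductor| := by
    intro L 𝓜
    unfold Sep
    push_cast
    rfl
  -- the bound for separated sets
  have hsepb : ∀ 𝓜 : Finset ℤ, Sep χ.conductor (Q ^ (1 / (n : ℝ))) 𝓜 →
      (∀ M ∈ 𝓜, ∃ N : ℕ, 1 ≤ N ∧ (N : ℝ) ≤ Q ^ (1 / (n : ℝ)) ∧
        8 * c₀ * Q ^ ((1 - δ) / n) < ‖∑ a ∈ Ioc M (M + N), χ (a : ZMod q)‖) →
      (𝓜.card : ℝ) ≤ c₀ * ((χ.conductor : ℝ) ^ (1 / 2 : ℝ) * Q ^ (-(2 / (n : ℝ)) + ε')) := by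
    intro 𝓜 h1 h2
    apply hC Q hQ1 q hqQ χ hcub hne1 𝓜 h1
    intro M hM
    obtain ⟨N, _, hN2, hN3⟩ := h2 M hM
    exact ⟨N, hN2, hthr.trans_lt hN3⟩
  refine ⟨?_, ?_⟩
  · intro 𝓜 h1 h2
    refine (hsepb 𝓜 ((hsepE _ _).mpr h1) h2).trans ?_
    have h3 : Q ^ (-(2 / (n : ℝ)) + ε') ≤ Q ^ (ε - 2 / n) := by
      apply hmono
      linarith
    have h4 : c₀ ≤ 8 * c₀ := by linarith
    gcongr
  · intro x H hH
    obtain ⟨S, hS⟩ : ∃ S : Finset ℤ, S = Finset.filter (fun M : ℤ => ∃ N : ℕ, 1 ≤ N ∧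
        (N : ℝ) ≤ Q ^ (1 / (n : ℝ)) ∧
          8 * c₀ * Q ^ ((1 - δ) / n) < ‖∑ a ∈ Ioc M (M + N), χ (a : ZMod q)‖) (Ioc x (x + (H : ℤ))) :=
      ⟨_, rfl⟩
    have hset : {M : ℤ | x < M ∧ M ≤ x + H ∧ ∃ N : ℕ, 1 ≤ N ∧ (N : ℝ) ≤ Q ^ (1 / (n : ℝ)) ∧
            8 * c₀ * Q ^ ((1 - δ) / n) < ‖∑ a ∈ Ioc M (M + N), χ (a : ZMod q)‖} = (S : Set ℤ) := by
      rw [hS]
      ext M
      simp only [Set.mem_setOf_eq, Finset.coe_filter, mem_Ioc]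
      tauto
    rw [hset, Set.ncard_coe_finset]
    obtain ⟨L, hL⟩ : ∃ L : ℝ, L = Q ^ (1 / (n : ℝ)) := ⟨_, rfl⟩
    have hL1 : 1 ≤ L := by rw [hL]; exact Real.one_le_rpow hQ1 (by positivity)
    -- the bound for sets that are distinct modulo the conductor
    have hone : ∀ T ⊆ S, Sep χ.conductor 1 T →
        (T.card : ℝ) ≤ 4 * c₀ * ((χ.conductor : ℝ) ^ (1 / 2 : ℝ) * Q ^ (-(1 / (n : ℝ)) + ε')) := by
      intro T hT hsep
      obtain ⟨G, hG1, hG2, hG3⟩ := Sep.thin (L := L) one_pos hsep (by linarith)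
      have h1 := hsepb G (by rw [← hL]; exact hG2) (fun M hM => by
        have := hT (hG1 hM)
        rw [hS, mem_filter] at this
        exact this.2)
      calc (T.card : ℝ) ≤ G.card * (2 * L / 1 + 2) := hG3
        _ ≤ (c₀ * ((χ.conductor : ℝ) ^ (1 / 2 : ℝ) * Q ^ (-(2 / (n : ℝ)) + ε'))) * (4 * L) := by
            apply mul_le_mul h1 _ (by positivity) (by positivity)
            linarith
        _ = 4 * c₀ * ((χ.conductor : ℝ) ^ (1 / 2 : ℝ) * (Q ^ (-(2 / (n : ℝ)) + ε') * L)) := by ring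
        _ = _ := by
            rw [hL, ← Real.rpow_add hQpos]
            congr 3
            ring
    -- fibres
    have hmaps : ∀ M ∈ S, ((M - x - 1) / (χ.conductor : ℤ)).toNat ∈
        range (H / χ.conductor + 1) := by
      intro M hM
      rw [hS, mem_filter, mem_Ioc] at hM
      rw [mem_range, Nat.lt_add_one_iff, Int.toNat_le]
      have hfz : (0 : ℤ) < χ.conductor := by exact_mod_cast Nat.pos_of_ne_zero hf0
      push_cast
      apply Int.ediv_le_ediv hfz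
      linarith [hM.1.2]
    have hcard := Finset.card_eq_sum_card_fiberwise (s := S)
      (f := fun M : ℤ => ((M - x - 1) / (χ.conductor : ℤ)).toNat)
      (t := range (H / χ.conductor + 1)) hmaps
    have hfib : ∀ j ∈ range (H / χ.conductor + 1),
        ((S.filter fun M : ℤ => ((M - x - 1) / (χ.conductor : ℤ)).toNat = j).card : ℝ) ≤
          4 * c₀ * ((χ.conductor : ℝ) ^ (1 / 2 : ℝ) * Q ^ (-(1 / (n : ℝ)) + ε')) := by
      intro j _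
      apply hone _ (Finset.filter_subset _ _)
      intro M hM M' hM' hne k
      rw [mem_filter] at hM hM'
      obtain ⟨hM1, hM2⟩ := hM
      obtain ⟨hM1', hM2'⟩ := hM'
      rw [hS, mem_filter, mem_Ioc] at hM1 hM1'
      have hfz : (0 : ℤ) < χ.conductor := by exact_mod_cast Nat.pos_of_ne_zero hf0
      have e1 : (M - x - 1) / (χ.conductor : ℤ) = j := by
        rw [← hM2, Int.toNat_of_nonneg]
        exact Int.ediv_nonneg (by linarith [hM1.1.1]) hfz.le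
      have e2 : (M' - x - 1) / (χ.conductor : ℤ) = j := by
        rw [← hM2', Int.toNat_of_nonneg]
        exact Int.ediv_nonneg (by linarith [hM1'.1.1]) hfz.le
      have a1 := Int.mul_ediv_add_emod (M - x - 1) χ.conductor
      have a2 := Int.mul_ediv_add_emod (M' - x - 1) χ.conductor
      rw [e1] at a1
      rw [e2] at a2
      have b1 := Int.emod_nonneg (M - x - 1) hfz.ne'
      have b2 := Int.emod_nonneg (M' - x - 1) hfz.ne'
      have b3 := Int.emod_lt_of_pos (M - x - 1) hfz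
      have b4 := Int.emod_lt_of_pos (M' - x - 1) hfz
      have hnz : M - M' - k * χ.conductor ≠ 0 := by
        intro h0
        have h1 : M - M' = k * χ.conductor := by linarith
        have h2 : |M - M'| < χ.conductor := by
          rw [abs_lt]; constructor <;> linarith
        have h3 : (χ.conductor : ℤ) ∣ M - M' := ⟨k, by linarith⟩
        have h4 := Int.eq_zero_of_abs_lt_dvd h3 h2
        exact hne (by linarith)
      have : (1 : ℤ) ≤ |M - M' - k * χ.conductor| := Int.one_le_abs hnz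
      rw [← Int.cast_abs]
      exact_mod_cast this
    have hcard' : (S.card : ℝ) ≤ (((H / χ.conductor + 1 : ℕ)) : ℝ) *
        (4 * c₀ * ((χ.conductor : ℝ) ^ (1 / 2 : ℝ) * Q ^ (-(1 / (n : ℝ)) + ε'))) := by
      rw [hcard]
      push_cast
      refine (Finset.sum_le_sum hfib).trans (le_of_eq ?_)
      rw [Finset.sum_const, Finset.card_range, nsmul_eq_mul]
      push_cast
      ring
    refine hcard'.trans ?_
    have h1 : (((H / χ.conductor + 1 : ℕ)) : ℝ) ≤ H / χ.conductor + 1 := by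
      push_cast
      have := Nat.cast_div_le (α := ℝ) (m := H) (n := χ.conductor)
      linarith
    have hf1 : (1 : ℝ) ≤ χ.conductor := by exact_mod_cast Nat.one_le_iff_ne_zero.2 hf0
    have hHpos : (0 : ℝ) ≤ H := Nat.cast_nonneg _
    have h2 : (H : ℝ) / χ.conductor * ((χ.conductor : ℝ) ^ (1 / 2 : ℝ) * Q ^ (-(1 / (n : ℝ)) + ε'))
        ≤ Q ^ (-δ) * H := by
      have e1 : (χ.conductor : ℝ) ^ (1 / 2 : ℝ) ≤ χ.conductor := by
        calc (χ.conductor : ℝ) ^ (1 / 2 : ℝ) ≤ (χ.conductor : ℝ) ^ (1 : ℝ) :=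
              Real.rpow_le_rpow_of_exponent_le hf1 (by norm_num)
          _ = _ := Real.rpow_one _
      have e2 : Q ^ (-(1 / (n : ℝ)) + ε') ≤ Q ^ (-δ) := by
        apply hmono
        have : 1 / (n : ℝ) = 1 / (2 * n) + 1 / (2 * n) := by field_simp; norm_num
        linarith
      calc (H : ℝ) / χ.conductor * ((χ.conductor : ℝ) ^ (1 / 2 : ℝ) * Q ^ (-(1 / (n : ℝ)) + ε'))
          ≤ (H : ℝ) / χ.conductor * ((χ.conductor : ℝ) * Q ^ (-δ)) := by gcongr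
        _ = Q ^ (-δ) * H := by field_simp
    have h3 : (χ.conductor : ℝ) ^ (1 / 2 : ℝ) * Q ^ (-(1 / (n : ℝ)) + ε') ≤ Q ^ (-δ) * H := by
      calc (χ.conductor : ℝ) ^ (1 / 2 : ℝ) * Q ^ (-(1 / (n : ℝ)) + ε')
          ≤ Q ^ (1 / 2 : ℝ) * Q ^ (-(1 / (n : ℝ)) + ε') := by gcongr
        _ = Q ^ (1 / 2 + (-(1 / (n : ℝ)) + ε')) := by rw [← Real.rpow_add hQpos]
        _ ≤ Q ^ (-δ + (1 / 2 - 1 / (n : ℝ) + ε)) := by
            apply hmono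
            linarith
        _ = Q ^ (-δ) * Q ^ (1 / 2 - 1 / (n : ℝ) + ε) := by rw [Real.rpow_add hQpos]
        _ ≤ Q ^ (-δ) * H := by gcongr
    calc (((H / χ.conductor + 1 : ℕ)) : ℝ) *
        (4 * c₀ * ((χ.conductor : ℝ) ^ (1 / 2 : ℝ) * Q ^ (-(1 / (n : ℝ)) + ε')))
        ≤ (H / χ.conductor + 1) *
          (4 * c₀ * ((χ.conductor : ℝ) ^ (1 / 2 : ℝ) * Q ^ (-(1 / (n : ℝ)) + ε'))) := by gcongr
      _ = 4 * c₀ * ((H : ℝ) / χ.conductor * ((χ.conductor : ℝ) ^ (1 / 2 : ℝ) *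
            Q ^ (-(1 / (n : ℝ)) + ε')) +
            (χ.conductor : ℝ) ^ (1 / 2 : ℝ) * Q ^ (-(1 / (n : ℝ)) + ε')) := by ring
      _ ≤ 4 * c₀ * (Q ^ (-δ) * H + Q ^ (-δ) * H) := by gcongr
      _ = 8 * c₀ * (Q ^ (-δ) * H) := by ring

end Pool.Agent.Work.LV
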