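import Pool.Agent.Work.LV.MCrt

/-!
# Block M, part 2: the bound for the complete sums
-/

set_option autoImplicit false

namespace Pool.Agent.Work.LV.M

open Finset Polynomial Pool.Agent.Work.LV

lemma rootMultiplicity_prod_aux {K : Type} [Field K] {I : Type} [DecidableEq I] [DecidableEq K]
    (a : I → K) (e : I → ℕ) (α : K) (s : Finset I) :
    (∏ i ∈ s, (X - C (a i)) ^ e i).rootMultiplicity α = ∑ i ∈ s, if a i = α then e i else 0 := by
  induction s using Finset.induction_on with
  | empty =>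
    simp only [prod_empty, sum_empty]
    exact rootMultiplicity_eq_zero (by simp)
  | insert i s hi ih =>
    rw [prod_insert hi, sum_insert hi, rootMultiplicity_mul, ih]
    · congr 1
      split_ifs with h
      · rw [h, rootMultiplicity_X_sub_C_pow]
      · apply rootMultiplicity_eq_zero
        rw [IsRoot.def, eval_pow, eval_sub, eval_X, eval_C]
        exact pow_ne_zero _ (sub_ne_zero.2 (fun h' => h h'.symm))
    · apply mul_ne_zero
      · exact pow_ne_zero _ (X_sub_C_ne_zero _)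
      · exact prod_ne_zero_iff.2 fun j _ => pow_ne_zero _ (X_sub_C_ne_zero _)

/-- `p` divides one of the nonzero differences `h j - h i₀`. -/
def Bad {I : Type} (h : I → ℕ) (i₀ : I) (p : ℕ) : Prop :=
  ∃ j, h j ≠ h i₀ ∧ (p : ℤ) ∣ (h j : ℤ) - h i₀

/-- The bound of Stepanov/Weil type for polynomials of degree at most `d`. -/
def WB (d : ℕ) (C : ℝ) : Prop :=
  ∀ (p : ℕ) [Fact p.Prime] (χ : MulChar (ZMod p) ℂ),
    χ ^ 3 = 1 → χ ≠ 1 → ∀ F : (ZMod p)[X], F.natDegree ≤ d →
      (∃ α : ZMod p, ¬ 3 ∣ F.rootMultiplicity α) →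
        ‖∑ x : ZMod p, χ (F.eval x)‖ ≤ C * Real.sqrt p

lemma local_prime {I : Type} [Fintype I] [DecidableEq I] (e h : I → ℕ) (i₀ : I) (C : ℝ)
    (hW : WB (∑ i, e i) C) (hnd : ¬ 3 ∣ ∑ i, if h i = h i₀ then e i else 0)
    (p : ℕ) [Fact p.Prime] (χ : DirichletCharacter ℂ p) (hχ : χ ^ 3 = 1) (hχ1 : χ ≠ 1)
    (hbad : ¬ Bad h i₀ p) :
    ‖∑ x : ZMod p, χ (RR e h x)‖ ≤ C * Real.sqrt p := by
  have hF : (RR e h (X : (ZMod p)[X])) = ∏ i, (X - Polynomial.C (-(h i : ZMod p))) ^ e i := by
    unfold RR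
    apply prod_congr rfl
    intro i _
    congr 1
    rw [map_neg, sub_neg_eq_add, map_natCast]
  have h1 := hW p χ hχ hχ1 (RR e h (X : (ZMod p)[X])) ?_ ?_
  · have h2 : ∀ x : ZMod p, (RR e h (X : (ZMod p)[X])).eval x = RR e h x := by
      intro x
      have := map_RR e h (evalRingHom x) (X : (ZMod p)[X])
      simpa using this
    simpa only [h2] using h1
  · rw [hF]
    refine (natDegree_prod_le _ _).trans ?_
    apply sum_le_sum
    intro i _
    refine natDegree_pow_le.trans ?_
    rw [natDegree_X_sub_C, mul_one]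
  · refine ⟨-(h i₀ : ZMod p), ?_⟩
    rw [hF, rootMultiplicity_prod_aux]
    convert hnd using 3 with i _
    have h3 : (-(h i : ZMod p) = -(h i₀ : ZMod p)) ↔ h i = h i₀ := by
      rw [neg_inj]
      constructor
      · intro h4
        by_contra h5
        apply hbad
        refine ⟨i, h5, ?_⟩
        rw [← ZMod.intCast_zmod_eq_zero_iff_dvd]
        push_cast
        rw [h4, sub_self]
      · intro h4; rw [h4]
    simp only [h3]

lemma trivial_bound {I : Type} [Fintype I] (e h : I → ℕ) (q : ℕ) [NeZero q]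
    (χ : DirichletCharacter ℂ q) : ‖∑ x : ZMod q, χ (RR e h x)‖ ≤ q := by
  calc ‖∑ x : ZMod q, χ (RR e h x)‖ ≤ ∑ x : ZMod q, ‖χ (RR e h x)‖ := norm_sum_le _ _
    _ ≤ ∑ _x : ZMod q, 1 := sum_le_sum fun x _ => χ.norm_le_one _
    _ = q := by simp [ZMod.card]

/-- The local factor. -/
noncomputable def loc {I : Type} (h : I → ℕ) (i₀ : I) (C : ℝ) (p : ℕ) : ℝ :=
  open Classical in
  (if p = 3 then 9 else 1) * (C * Real.sqrt p * (if Bad h i₀ p then Real.sqrt p else 1))

lemma loc_nonneg {I : Type} (h : I → ℕ) (i₀ : I) (C : ℝ) (hC : 1 ≤ C) (p : ℕ) :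
    0 ≤ loc h i₀ C p := by
  unfold loc
  have : 0 ≤ C := by linarith
  positivity

lemma G_bound {I : Type} [Fintype I] [DecidableEq I] (e h : I → ℕ) (i₀ : I) (C : ℝ) (hC : 1 ≤ C)
    (hW : WB (∑ i, e i) C) (hnd : ¬ 3 ∣ ∑ i, if h i = h i₀ then e i else 0) :
    ∀ q : ℕ, ∀ _ : NeZero q, ∀ χ : DirichletCharacter ℂ q, LocPrim χ → χ ^ 3 = 1 →
      ‖∑ x : ZMod q, χ (RR e h x)‖ ≤ ∏ p ∈ q.primeFactors, loc h i₀ C p := by
  classical
  intro q
  induction q using Nat.recOnPosPrimePosCoprime with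
  | prime_pow p n hp hn =>
    intro hne χ hloc hχ
    rw [Nat.primeFactors_prime_pow hn.ne' hp, prod_singleton]
    have hsq : Real.sqrt p * Real.sqrt p = p := Real.mul_self_sqrt (Nat.cast_nonneg p)
    by_cases hp3 : p = 3
    · subst hp3
      have hn2 : n ≤ 2 := by
        by_contra h3
        exact not_locPrim_three (by omega) χ hχ hloc
      refine (trivial_bound e h _ χ).trans ?_
      have h9 : ((3 ^ n : ℕ) : ℝ) ≤ 9 := by
        interval_cases n
        · norm_num
        · norm_num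
      have h4 : (1 : ℝ) ≤ C * Real.sqrt (3 : ℕ) * (if Bad h i₀ 3 then Real.sqrt (3 : ℕ) else 1) := by
        have h5 : (1 : ℝ) ≤ Real.sqrt (3 : ℕ) := Real.one_le_sqrt.2 (by norm_num)
        have h6 : (1 : ℝ) ≤ C * Real.sqrt (3 : ℕ) := by nlinarith
        split_ifs
        · nlinarith
        · linarith
      unfold loc
      simp only [if_true]
      linarith
    · have hn1 : n = 1 := by
        by_contra h3
        exact not_locPrim_of_ne_three hp hp3 (by omega) χ hχ hloc
      subst hn1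
      have : Fact p.Prime := ⟨hp⟩
      have key : ∀ m : ℕ, m = p → ∀ _ : NeZero m, ∀ χ : DirichletCharacter ℂ m, LocPrim χ →
          χ ^ 3 = 1 → ‖∑ x : ZMod m, χ (RR e h x)‖ ≤ loc h i₀ C p := by
        rintro m rfl hne χ hloc hχ
        unfold loc
        rw [if_neg hp3, one_mul]
        split_ifs with hb
        · refine (trivial_bound e h _ χ).trans ?_
          rw [mul_assoc, hsq]
          have : (0 : ℝ) ≤ m := Nat.cast_nonneg m
          nlinarith
        · rw [mul_one]
          apply local_prime e h i₀ C hW hnd m χ hχ _ hb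
          rintro rfl
          obtain ⟨u, -, hu⟩ := hloc m hp dvd_rfl
          exact hu (MulChar.one_apply u.isUnit)
      exact key (p ^ 1) (pow_one p) hne χ hloc hχ
  | zero => intro hne; exact absurd rfl (NeZero.ne 0)
  | one =>
    intro hne χ _ _
    simpa using trivial_bound e h 1 χ
  | coprime a b ha hb hab iha ihb =>
    intro hne χ hloc hχ
    have hna : NeZero a := ⟨by omega⟩
    have hnb : NeZero b := ⟨by omega⟩
    rw [sum_RR_mul e h hab χ, norm_mul, hab.primeFactors_mul,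
      prod_union hab.disjoint_primeFactors]
    exact mul_le_mul (iha hna _ (locPrim_chiL hab χ hloc) (chiL_pow hab χ hχ))
      (ihb hnb _ (locPrim_chiR hab χ hloc) (chiR_pow hab χ hχ)) (norm_nonneg _)
      (prod_nonneg fun p _ => loc_nonneg h i₀ C hC p)

/-- The final form of the bound for the complete sums. -/
lemma G_bound' {I : Type} [Fintype I] [DecidableEq I] (e h : I → ℕ) (i₀ : I) (C : ℝ) (hC : 1 ≤ C)
    (hW : WB (∑ i, e i) C) (hnd : ¬ 3 ∣ ∑ i, if h i = h i₀ then e i else 0)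
    (q : ℕ) [hq : NeZero q] (χ : DirichletCharacter ℂ q) (hχ : χ.IsPrimitive) (hχ3 : χ ^ 3 = 1) :
    open Classical in
    ‖∑ x : ZMod q, χ (RR e h x)‖ ≤ 9 * C ^ q.primeFactors.card * Real.sqrt q *
      ∑ S ∈ q.primeFactors.powerset, if (∀ p ∈ S, Bad h i₀ p) then Real.sqrt (∏ p ∈ S, p : ℕ)
        else 0 := by
  classical
  refine (G_bound e h i₀ C hC hW hnd q hq χ (locPrim_of_isPrimitive χ hχ) hχ3).trans ?_
  have hC0 : 0 ≤ C := by linarith
  unfold loc
  rw [prod_mul_distrib, prod_mul_distrib, prod_mul_distrib, prod_const]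
  have h1 : ∏ p ∈ q.primeFactors, (if p = 3 then (9 : ℝ) else 1) ≤ 9 := by
    rw [prod_ite_eq']
    split_ifs
    · exact le_rfl
    · norm_num
  have h2 : ∏ p ∈ q.primeFactors, Real.sqrt p ≤ Real.sqrt q := by
    rw [← Real.sqrt_prod _ (fun p _ => Nat.cast_nonneg p)]
    apply Real.sqrt_le_sqrt
    rw [← Nat.cast_prod]
    exact_mod_cast Nat.le_of_dvd (Nat.pos_of_ne_zero (NeZero.ne q)) (Nat.prod_primeFactors_dvd q)
  have h3 : ∏ p ∈ q.primeFactors, (if Bad h i₀ p then Real.sqrt p else 1) ≤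
      ∑ S ∈ q.primeFactors.powerset, if (∀ p ∈ S, Bad h i₀ p) then Real.sqrt (∏ p ∈ S, p : ℕ)
        else 0 := by
    have h4 : ∏ p ∈ q.primeFactors, (if Bad h i₀ p then Real.sqrt p else 1)
        = if (∀ p ∈ q.primeFactors.filter (Bad h i₀), Bad h i₀ p) then
            Real.sqrt (∏ p ∈ q.primeFactors.filter (Bad h i₀), p : ℕ) else 0 := by
      rw [if_pos (fun p hp => (mem_filter.1 hp).2), Nat.cast_prod,
        Real.sqrt_prod _ (fun p _ => Nat.cast_nonneg p), prod_filter]
    rw [h4]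
    apply single_le_sum (f := fun S => if (∀ p ∈ S, Bad h i₀ p) then
      Real.sqrt (∏ p ∈ S, p : ℕ) else 0)
    · intro S _
      split_ifs
      · positivity
      · exact le_rfl
    · rw [mem_powerset]; exact filter_subset _ _
  have h5 : 0 ≤ ∏ p ∈ q.primeFactors, (if Bad h i₀ p then Real.sqrt p else 1) := by
    apply prod_nonneg
    intro p _
    split_ifs
    · positivity
    · norm_num
  calc _ ≤ 9 * (C ^ q.primeFactors.card * Real.sqrt q *
        ∏ p ∈ q.primeFactors, (if Bad h i₀ p then Real.sqrt p else 1)) := by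
        apply mul_le_mul h1 _ (by positivity) (by norm_num)
        gcongr
    _ ≤ _ := by
        rw [mul_assoc 9, mul_assoc 9]
        gcongr

end Pool.Agent.Work.LV.M
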