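import Pool.Agent.Work.LV.A1

/-!
# Assembly, part 2: separated sets, prime counting
-/

namespace Pool.Agent.Work.LV

open Finset

theorem Sep.mono {q : ℕ} {L L' : ℝ} {𝓜 𝓜' : Finset ℤ} (h : Sep q L 𝓜) (hL : L' ≤ L)
    (hM : 𝓜' ⊆ 𝓜) : Sep q L' 𝓜' :=
  fun M hM1 M' hM1' hne k => hL.trans (h M (hM hM1) M' (hM hM1') hne k)

/-- The number of points of a separated set. -/
theorem Sep.card_le {q : ℕ} [NeZero q] {L : ℝ} (hL : 0 < L) {𝓜 : Finset ℤ} (h : Sep q L 𝓜) :
    (𝓜.card : ℝ) ≤ q / L + 1 := by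
  have hq : (0 : ℤ) < q := by exact_mod_cast Nat.pos_of_ne_zero (NeZero.ne q)
  have hq0 : (q : ℤ) ≠ 0 := hq.ne'
  have key : 𝓜.card ≤ (range (⌊(q : ℝ) / L⌋₊ + 1)).card := by
    apply Finset.card_le_card_of_injOn (fun M => ⌊((M % q : ℤ) : ℝ) / L⌋₊)
    · intro M _
      have h1 : M % q < q := Int.emod_lt_of_pos M hq
      simp only [Finset.coe_range, Set.mem_Iio]
      apply Nat.lt_succ_of_le
      apply Nat.floor_le_floor
      gcongr
      exact_mod_cast h1.le
    · intro M hM M' hM' heq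
      simp only at heq
      by_contra hne
      have h1 := h M hM M' hM' hne (M / q - M' / q)
      have h2 : (M - M' - (M / q - M' / q) * q : ℤ) = M % q - M' % q := by
        have e1 := Int.mul_ediv_add_emod M q
        have e2 := Int.mul_ediv_add_emod M' q
        linear_combination e2 - e1
      rw [h2] at h1
      have a1 : (0 : ℝ) ≤ ((M % q : ℤ) : ℝ) / L :=
        div_nonneg (by exact_mod_cast Int.emod_nonneg M hq0) hL.le
      have a2 : (0 : ℝ) ≤ ((M' % q : ℤ) : ℝ) / L :=
        div_nonneg (by exact_mod_cast Int.emod_nonneg M' hq0) hL.le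
      have b1 := Nat.floor_le a1
      have b2 := Nat.floor_le a2
      have c1 := Nat.lt_floor_add_one (((M % q : ℤ) : ℝ) / L)
      have c2 := Nat.lt_floor_add_one (((M' % q : ℤ) : ℝ) / L)
      rw [heq] at b1 c1
      have d1 : |((M % q : ℤ) : ℝ) / L - ((M' % q : ℤ) : ℝ) / L| < 1 := by
        rw [abs_lt]; constructor <;> linarith
      rw [← sub_div, abs_div, abs_of_pos hL, div_lt_one hL] at d1
      push_cast at h1 d1
      linarith
  rw [Finset.card_range] at key
  calc (𝓜.card : ℝ) ≤ ((⌊(q : ℝ) / L⌋₊ + 1 : ℕ) : ℝ) := by exact_mod_cast key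
    _ ≤ q / L + 1 := by
        push_cast
        have := Nat.floor_le (a := (q : ℝ) / L) (by positivity)
        linarith

/-- Thinning a separated set. -/
theorem Sep.thin {q : ℕ} {L L' : ℝ} (hL' : 0 < L') {𝓜 : Finset ℤ} (h : Sep q L' 𝓜) (hL : 0 < L) :
    ∃ 𝓜' ⊆ 𝓜, Sep q L 𝓜' ∧ (𝓜.card : ℝ) ≤ 𝓜'.card * (2 * L / L' + 2) := by
  classical
  -- a maximal L-separated subset
  obtain ⟨𝓜', hmem, hmax⟩ := Finset.exists_max_image (𝓜.powerset.filter fun S => Sep q L S)
    Finset.card ⟨∅, by simp [Sep]⟩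
  rw [mem_filter, mem_powerset] at hmem
  refine ⟨𝓜', hmem.1, hmem.2, ?_⟩
  -- every element is close to an element of 𝓜'
  have hclose : ∀ M ∈ 𝓜, ∃ M' ∈ 𝓜', ∃ k : ℤ, |((M - M' - k * q : ℤ) : ℝ)| < L := by
    intro M hM
    by_contra hcon
    push Not at hcon
    have hnot : M ∉ 𝓜' := by
      intro hM'
      have := hcon M hM' 0
      simp at this
      linarith
    have hsep : Sep q L (insert M 𝓜') := by
      intro A hA A' hA' hne k
      rw [mem_insert] at hA hA'
      rcases hA with rfl | hA <;> rcases hA' with rfl | hA'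
      · exact absurd rfl hne
      · exact hcon A' hA' k
      · have := hcon A hA (-k)
        rw [← abs_neg]
        have e : -((A - A' - k * q : ℤ) : ℝ) = ((A' - A - -k * q : ℤ) : ℝ) := by
          push_cast
          ring
        rw [e]
        exact this
      · exact hmem.2 A hA A' hA' hne k
    have := hmax (insert M 𝓜') (by
      rw [mem_filter, mem_powerset]
      exact ⟨Finset.insert_subset hM hmem.1, hsep⟩)
    rw [Finset.card_insert_of_notMem hnot] at this
    omega
  -- the fibres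
  have hfib : ∀ M' ∈ 𝓜', ((𝓜.filter fun M => ∃ k : ℤ, |((M - M' - k * q : ℤ) : ℝ)| < L).card : ℝ) ≤
      2 * L / L' + 2 := by
    intro M' hM'
    set F := 𝓜.filter fun M => ∃ k : ℤ, |((M - M' - k * q : ℤ) : ℝ)| < L with hF
    have hch : ∀ M : ℤ, ∃ k : ℤ, M ∈ F → |((M - M' - k * q : ℤ) : ℝ)| < L := by
      intro M
      by_cases hM : M ∈ F
      · obtain ⟨k, hk⟩ := (mem_filter.mp hM).2
        exact ⟨k, fun _ => hk⟩
      · exact ⟨0, fun h => absurd h hM⟩
    choose k hk using hch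
    have hcard : F.card ≤ (range (⌊2 * L / L'⌋₊ + 1)).card := by
      apply Finset.card_le_card_of_injOn (fun M => ⌊(((M - M' - k M * q : ℤ) : ℝ) + L) / L'⌋₊)
      · intro M hM
        have h1 := hk M hM
        rw [abs_lt] at h1
        simp only [Finset.coe_range, Set.mem_Iio]
        apply Nat.lt_succ_of_le
        apply Nat.floor_le_floor
        gcongr
        linarith [h1.2]
      · intro A hA A' hA' heq
        simp only at heq
        by_contra hne
        have h1 := h A (mem_filter.mp hA).1 A' (mem_filter.mp hA').1 hne (k A - k A')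
        have h2 : (A - A' - (k A - k A') * q : ℤ) = (A - M' - k A * q) - (A' - M' - k A' * q) := by
          ring
        rw [h2] at h1
        have x1 := hk A hA
        have x2 := hk A' hA'
        rw [abs_lt] at x1 x2
        have a1 : (0 : ℝ) ≤ (((A - M' - k A * q : ℤ) : ℝ) + L) / L' :=
          div_nonneg (by linarith [x1.1]) hL'.le
        have a2 : (0 : ℝ) ≤ (((A' - M' - k A' * q : ℤ) : ℝ) + L) / L' :=
          div_nonneg (by linarith [x2.1]) hL'.le
        have b1 := Nat.floor_le a1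
        have b2 := Nat.floor_le a2
        have c1 := Nat.lt_floor_add_one ((((A - M' - k A * q : ℤ) : ℝ) + L) / L')
        have c2 := Nat.lt_floor_add_one ((((A' - M' - k A' * q : ℤ) : ℝ) + L) / L')
        rw [heq] at b1 c1
        have d1 : |(((A - M' - k A * q : ℤ) : ℝ) + L) / L' - (((A' - M' - k A' * q : ℤ) : ℝ) + L) / L'|
            < 1 := by
          rw [abs_lt]; constructor <;> linarith
        rw [← sub_div, abs_div, abs_of_pos hL', div_lt_one hL'] at d1
        have e : ((A - M' - k A * q : ℤ) : ℝ) + L - (((A' - M' - k A' * q : ℤ) : ℝ) + L) =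
          (((A - M' - k A * q) - (A' - M' - k A' * q) : ℤ) : ℝ) := by push_cast; ring
        rw [e] at d1
        linarith
    rw [Finset.card_range] at hcard
    calc (F.card : ℝ) ≤ ((⌊2 * L / L'⌋₊ + 1 : ℕ) : ℝ) := by exact_mod_cast hcard
      _ ≤ 2 * L / L' + 2 := by
        push_cast
        have := Nat.floor_le (a := 2 * L / L') (by positivity)
        linarith
  have hsub : 𝓜 ⊆ 𝓜'.biUnion fun M' => 𝓜.filter fun M => ∃ k : ℤ, |((M - M' - k * q : ℤ) : ℝ)| < L := by
    intro M hM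
    rw [mem_biUnion]
    obtain ⟨M', hM', k, hk⟩ := hclose M hM
    exact ⟨M', hM', mem_filter.mpr ⟨hM, k, hk⟩⟩
  calc (𝓜.card : ℝ) ≤ ((𝓜'.biUnion fun M' =>
          𝓜.filter fun M => ∃ k : ℤ, |((M - M' - k * q : ℤ) : ℝ)| < L).card : ℝ) := by
        exact_mod_cast Finset.card_le_card hsub
    _ ≤ ∑ M' ∈ 𝓜', ((𝓜.filter fun M => ∃ k : ℤ, |((M - M' - k * q : ℤ) : ℝ)| < L).card : ℝ) := by
        exact_mod_cast Finset.card_biUnion_le
    _ ≤ ∑ _M' ∈ 𝓜', (2 * L / L' + 2) := Finset.sum_le_sum hfib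
    _ = _ := by rw [Finset.sum_const, nsmul_eq_mul]

/-- A lower bound for the number of primes. -/
theorem pi_ge_div (n : ℕ) (hn : 4 ≤ n) : (n : ℝ) / 4 ≤ (Nat.primeCounting n : ℝ) * Real.log n := by
  have hn' : (4 : ℝ) ≤ n := by exact_mod_cast hn
  have hlog : 0 < Real.log n := Real.log_pos (by linarith)
  have h1 := Chebyshev.pi_ge n
  rw [div_le_iff₀ hlog] at h1
  refine le_trans ?_ h1
  have h2 : Real.log ((n : ℝ) + 1) ≤ 3 * Real.log 2 + (((n : ℝ) + 1) / 8 - 1) := by
    have e : (n : ℝ) + 1 = 2 ^ 3 * (((n : ℝ) + 1) / 8) := by ring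
    conv_lhs => rw [e]
    rw [Real.log_mul (by norm_num) (by positivity), Real.log_pow]
    have := Real.log_le_sub_one_of_pos (x := ((n : ℝ) + 1) / 8) (by positivity)
    push_cast
    linarith
  have h3 := Real.log_two_gt_d9
  nlinarith

/-- The number of prime factors is at most the binary logarithm. -/
theorem card_primeFactors_le (m : ℕ) (hm : m ≠ 0) : m.primeFactors.card ≤ Nat.log 2 m := by
  apply Nat.le_log_of_pow_le (by norm_num)
  calc 2 ^ m.primeFactors.card ≤ ∏ p ∈ m.primeFactors, p :=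
        Finset.pow_card_le_prod _ _ _ fun p hp => (Nat.prime_of_mem_primeFactors hp).two_le
    _ ≤ m := Nat.le_of_dvd (Nat.pos_of_ne_zero hm) (Nat.prod_primeFactors_dvd m)

/-- The set of primes up to `Y` not dividing `q`. -/
def PP (q Y : ℕ) : Finset ℕ := (Icc 1 Y).filter fun p => p.Prime ∧ ¬ p ∣ q

theorem PP_mem {q Y a : ℕ} (h : a ∈ PP q Y) : 1 ≤ a ∧ a ≤ Y ∧ a.Coprime q := by
  unfold PP at h
  rw [mem_filter, mem_Icc] at h
  exact ⟨h.1.1, h.1.2, (Nat.Prime.coprime_iff_not_dvd h.2.1).mpr h.2.2⟩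

theorem PP_div (q Y : ℕ) (m : ℕ) (hm : 0 < m) (hmq : m < q) :
    ((PP q Y).filter (· ∣ m)).card ≤ Nat.log 2 q := by
  have h1 : (PP q Y).filter (· ∣ m) ⊆ m.primeFactors := by
    intro p hp
    unfold PP at hp
    rw [mem_filter, mem_filter] at hp
    exact Nat.mem_primeFactors.mpr ⟨hp.1.2.1, hp.2, hm.ne'⟩
  exact (Finset.card_le_card h1).trans ((card_primeFactors_le m hm.ne').trans
    (Nat.log_mono_right hmq.le))

theorem PP_card (q Y : ℕ) (hq : q ≠ 0) : Nat.primeCounting Y ≤ (PP q Y).card + Nat.log 2 q := by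
  have h1 : Nat.primeCounting Y = ((Icc 1 Y).filter Nat.Prime).card := by
    rw [Nat.primeCounting, Nat.primeCounting', Nat.count_eq_card_filter_range]
    congr 1
    ext p
    simp only [mem_filter, mem_range, mem_Icc]
    constructor
    · rintro ⟨h, hp⟩
      exact ⟨⟨hp.one_lt.le, by omega⟩, hp⟩
    · rintro ⟨h, hp⟩
      exact ⟨by omega, hp⟩
  have h2 : (Icc 1 Y).filter Nat.Prime ⊆ PP q Y ∪ q.primeFactors := by
    intro p hp
    rw [mem_filter] at hp
    rw [mem_union]
    by_cases h : p ∣ q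
    · exact Or.inr (Nat.mem_primeFactors.mpr ⟨hp.2, h, hq⟩)
    · exact Or.inl (by unfold PP; exact mem_filter.mpr ⟨hp.1, hp.2, h⟩)
  rw [h1]
  exact (Finset.card_le_card h2).trans ((Finset.card_union_le _ _).trans
    (Nat.add_le_add_left (card_primeFactors_le q hq) _))

theorem natlog_le (q : ℕ) (hq : 1 ≤ q) : (Nat.log 2 q : ℝ) ≤ 2 * Real.log q := by
  have h1 : (2 : ℝ) ^ Nat.log 2 q ≤ q := by
    exact_mod_cast Nat.pow_log_le_self 2 (by omega)
  have h2 := Real.log_le_log (by positivity) h1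
  rw [Real.log_pow] at h2
  have h3 := Real.log_two_gt_d9
  have h4 : (0 : ℝ) ≤ Nat.log 2 q := by positivity
  nlinarith

end Pool.Agent.Work.LV
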