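import Pool.Agent.Work.LV.A3

/-!
# Assembly, part 4: the maximal version, primitive characters
-/

namespace Pool.Agent.Work.LV

open Finset

theorem shortSum_diff {q : ℕ} (χ : DirichletCharacter ℂ q) (M : ℤ) (N K : ℕ) (h : K ≤ N) :
    ‖shortSum χ M N‖ ≤ ‖shortSum χ M K‖ + (N - K) := by
  rw [shortSum_eq, shortSum_eq, sum_Icc_one, sum_Icc_one]
  have h1 := Finset.sum_range_add_sum_Ico (fun i => χ ((M : ZMod q) + ((i + 1 : ℕ) : ZMod q))) h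
  rw [← h1]
  refine (norm_add_le _ _).trans ?_
  gcongr
  refine (norm_sum_le _ _).trans ?_
  calc ∑ i ∈ Ico K N, ‖χ ((M : ZMod q) + ((i + 1 : ℕ) : ZMod q))‖ ≤ ∑ _i ∈ Ico K N, (1 : ℝ) :=
        Finset.sum_le_sum fun n _ => DirichletCharacter.norm_le_one χ _
    _ = N - K := by
        simp only [Finset.sum_const, Nat.card_Ico, nsmul_eq_mul, mul_one]
        rw [Nat.cast_sub h]

theorem thmB (hM : Stmt_M) (hE : Stmt_E) (n : ℕ) (hn : 1 ≤ n) (ε : ℝ) (hε : 0 < ε) :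
    ∃ δ : ℝ, 0 < δ ∧ δ ≤ 1 / 2 ∧ δ ≤ ε ∧ ∃ c : ℝ, 0 ≤ c ∧
      ∀ Q : ℝ, 1 ≤ Q → ∀ (q : ℕ) [NeZero q], (q : ℝ) ≤ Q →
      ∀ χ : DirichletCharacter ℂ q, χ.IsPrimitive → χ ^ 3 = 1 → χ ≠ 1 →
        ∀ 𝓜 : Finset ℤ, Sep q (Q ^ (1 / (n : ℝ))) 𝓜 →
          (∀ M ∈ 𝓜, ∃ N : ℕ, (N : ℝ) ≤ Q ^ (1 / (n : ℝ)) ∧
            3 * Q ^ ((1 - δ) / n) ≤ ‖shortSum χ M N‖) →
            (𝓜.card : ℝ) ≤ c * ((q : ℝ) ^ (1 / 2 : ℝ) * Q ^ (-(2 / (n : ℝ)) + ε)) := by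
  classical
  obtain ⟨δ, hδ0, hδ2, hδε, c, hc, hA⟩ := thmA hM hE n hn (ε / 2) (by positivity)
  have hn0 : (1 : ℝ) ≤ n := by exact_mod_cast hn
  refine ⟨δ, hδ0, hδ2, by linarith, 2 * c, by positivity, ?_⟩
  intro Q hQ1 q _ hqQ χ hprim hcub hne1 𝓜 hsep hV
  have hQpos : 0 < Q := by linarith
  obtain ⟨W, hW⟩ : ∃ W : ℝ, W = Q ^ ((1 - δ) / n) := ⟨_, rfl⟩
  obtain ⟨L, hL⟩ : ∃ L : ℝ, L = Q ^ (1 / (n : ℝ)) := ⟨_, rfl⟩
  have hW1 : 1 ≤ W := by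
    rw [hW]
    exact Real.one_le_rpow hQ1 (div_nonneg (by linarith) (by linarith))
  have hL1 : 1 ≤ L := by
    rw [hL]
    exact Real.one_le_rpow hQ1 (by positivity)
  rw [← hL] at hsep
  simp only [← hL, ← hW] at hV
  obtain ⟨H, hH⟩ : ∃ H : ℕ, H = ⌈W⌉₊ := ⟨_, rfl⟩
  have hH1 : W ≤ H := by rw [hH]; exact Nat.le_ceil _
  have hH2 : (H : ℝ) ≤ 2 * W := by
    have := Nat.ceil_lt_add_one (a := W) (by linarith)
    rw [hH]; linarith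
  have hH0 : 0 < H := by
    have : (0 : ℝ) < H := by linarith
    exact_mod_cast this
  have hH0' : (0 : ℝ) < H := by exact_mod_cast hH0
  -- the classes
  have hcls : ∀ j : ℕ, ((𝓜.filter fun M => W ≤ ‖shortSum χ M (j * H)‖ ∧
      ((j * H : ℕ) : ℝ) ≤ L).card : ℝ) ≤ c * ((q : ℝ) ^ (1 / 2 : ℝ) * Q ^ (-(2 / (n : ℝ)) + ε / 2)) := by
    intro j
    by_cases hj : ((j * H : ℕ) : ℝ) ≤ L
    · apply hA Q hQ1 q hqQ χ hprim hcub hne1 (j * H) (by rw [← hL]; exact hj)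
      · exact hsep.mono hj (Finset.filter_subset _ _)
      · intro M hM
        rw [← hW]
        exact (mem_filter.mp hM).2.1
    · have : (𝓜.filter fun M => W ≤ ‖shortSum χ M (j * H)‖ ∧ ((j * H : ℕ) : ℝ) ≤ L) = ∅ := by
        apply Finset.filter_eq_empty_iff.mpr
        intro M _ h
        exact hj h.2
      rw [this]
      simp only [Finset.card_empty, Nat.cast_zero]
      positivity
  have hsub : 𝓜 ⊆ (range (⌊L / W⌋₊ + 1)).biUnion fun j =>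
      𝓜.filter fun M => W ≤ ‖shortSum χ M (j * H)‖ ∧ ((j * H : ℕ) : ℝ) ≤ L := by
    intro M hM
    obtain ⟨N, hN, hS⟩ := hV M hM
    rw [mem_biUnion]
    have h1 : N / H * H ≤ N := Nat.div_mul_le_self N H
    have h2 : N < N / H * H + H := by
      have := Nat.lt_div_mul_add (a := N) hH0
      omega
    have h1' : ((N / H * H : ℕ) : ℝ) ≤ N := by exact_mod_cast h1
    have h2' : (N : ℝ) < ((N / H * H : ℕ) : ℝ) + H := by exact_mod_cast h2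
    refine ⟨N / H, ?_, ?_⟩
    · rw [mem_range, Nat.lt_add_one_iff]
      apply Nat.le_floor
      rw [le_div_iff₀ (by linarith)]
      calc ((N / H : ℕ) : ℝ) * W ≤ ((N / H : ℕ) : ℝ) * H := by gcongr
        _ = ((N / H * H : ℕ) : ℝ) := by push_cast; ring
        _ ≤ N := h1'
        _ ≤ L := hN
    · rw [mem_filter]
      refine ⟨hM, ?_, h1'.trans hN⟩
      have := shortSum_diff χ M N (N / H * H) h1
      linarith
  have hLW : L / W = Q ^ (δ / n) := by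
    rw [hL, hW, ← Real.rpow_sub hQpos]
    congr 1
    ring
  have hcount : ((⌊L / W⌋₊ + 1 : ℕ) : ℝ) ≤ 2 * Q ^ (ε / 2) := by
    push_cast
    have h1 := Nat.floor_le (a := L / W) (by positivity)
    have h2 : Q ^ (δ / n) ≤ Q ^ (ε / 2) := by
      apply Real.rpow_le_rpow_of_exponent_le hQ1
      rw [div_le_iff₀ (by linarith)]
      nlinarith
    have h3 : 1 ≤ Q ^ (ε / 2) := Real.one_le_rpow hQ1 (by positivity)
    rw [hLW] at h1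
    rw [hLW]
    linarith
  calc (𝓜.card : ℝ) ≤ (((range (⌊L / W⌋₊ + 1)).biUnion fun j =>
          𝓜.filter fun M => W ≤ ‖shortSum χ M (j * H)‖ ∧ ((j * H : ℕ) : ℝ) ≤ L).card : ℝ) := by
        exact_mod_cast Finset.card_le_card hsub
    _ ≤ ∑ j ∈ range (⌊L / W⌋₊ + 1), ((𝓜.filter fun M => W ≤ ‖shortSum χ M (j * H)‖ ∧
          ((j * H : ℕ) : ℝ) ≤ L).card : ℝ) := by
        exact_mod_cast Finset.card_biUnion_le
    _ ≤ ∑ _j ∈ range (⌊L / W⌋₊ + 1), c * ((q : ℝ) ^ (1 / 2 : ℝ) * Q ^ (-(2 / (n : ℝ)) + ε / 2)) :=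
        Finset.sum_le_sum fun j _ => hcls j
    _ = ((⌊L / W⌋₊ + 1 : ℕ) : ℝ) * (c * ((q : ℝ) ^ (1 / 2 : ℝ) * Q ^ (-(2 / (n : ℝ)) + ε / 2))) := by
        rw [Finset.sum_const, Finset.card_range, nsmul_eq_mul]
    _ ≤ 2 * Q ^ (ε / 2) * (c * ((q : ℝ) ^ (1 / 2 : ℝ) * Q ^ (-(2 / (n : ℝ)) + ε / 2))) := by gcongr
    _ = 2 * c * ((q : ℝ) ^ (1 / 2 : ℝ) * (Q ^ (ε / 2) * Q ^ (-(2 / (n : ℝ)) + ε / 2))) := by ring
    _ = 2 * c * ((q : ℝ) ^ (1 / 2 : ℝ) * Q ^ (-(2 / (n : ℝ)) + ε)) := by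
        rw [← Real.rpow_add hQpos]
        congr 3
        ring

end Pool.Agent.Work.LV
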